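import Mathlib

/-! The two polynomials of the problem, their Lagrange decomposition and the size of the
coefficients. -/

set_option autoImplicit false

open Polynomial Finset

namespace Pool.Agent.D0H14.BA

/-- the shifts `2 l + 2 s` -/
noncomputable def cc (s : ℝ) (l : ℕ) : ℝ := 2 * l + 2 * s

/-- `∏_{l < n} (X + 2 l + 2 s)` -/
noncomputable def PP (n : ℕ) (s : ℝ) : ℝ[X] := ∏ l ∈ range n, (X + C (cc s l))

/-- `∏_{l < n} (X + 2 (l + 1) - 2 s)` -/
noncomputable def QQ (n : ℕ) (s : ℝ) : ℝ[X] := ∏ l ∈ range n, (X + C (2 * ((l : ℝ) + 1) - 2 * s))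

/-- the product without the factor of index `l` -/
noncomputable def PL (n : ℕ) (s : ℝ) (l : ℕ) : ℝ[X] := ∏ j ∈ (range n).erase l, (X + C (cc s j))

/-- the coefficients -/
noncomputable def AA (n : ℕ) (s : ℝ) (l : ℕ) : ℝ :=
  (QQ n s).eval (-(cc s l)) / (PL n s l).eval (-(cc s l))

theorem PP_monic (n : ℕ) (s : ℝ) : (PP n s).Monic := monic_prod_of_monic _ _ fun _ _ => monic_X_add_C _
theorem QQ_monic (n : ℕ) (s : ℝ) : (QQ n s).Monic := monic_prod_of_monic _ _ fun _ _ => monic_X_add_C _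
theorem PL_monic (n : ℕ) (s : ℝ) (l : ℕ) : (PL n s l).Monic :=
  monic_prod_of_monic _ _ fun _ _ => monic_X_add_C _

theorem deg_prod (S : Finset ℕ) (f : ℕ → ℝ) :
    (∏ l ∈ S, (X + C (f l)) : ℝ[X]).natDegree = S.card := by
  rw [natDegree_prod_of_monic _ _ fun _ _ => monic_X_add_C _, sum_congr rfl fun l _ =>
    natDegree_X_add_C (f l)]
  simp

theorem PP_deg (n : ℕ) (s : ℝ) : (PP n s).natDegree = n :=
  (deg_prod (range n) _).trans (card_range n)
theorem QQ_deg (n : ℕ) (s : ℝ) : (QQ n s).natDegree = n := by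
  have h := deg_prod (range n) fun l => 2 * ((l : ℝ) + 1) - 2 * s
  rw [card_range] at h
  exact h
theorem PL_deg (n : ℕ) (s : ℝ) (l : ℕ) (hl : l < n) : (PL n s l).natDegree = n - 1 :=
  (deg_prod ((range n).erase l) _).trans (by rw [card_erase_of_mem (mem_range.mpr hl), card_range])

theorem PL_mul (n : ℕ) (s : ℝ) (l : ℕ) (hl : l < n) : (X + C (cc s l)) * PL n s l = PP n s := by
  rw [PL, PP]
  exact mul_prod_erase (range n) (fun j => (X + C (cc s j) : ℝ[X])) (mem_range.mpr hl)

theorem PL_eval (n : ℕ) (s : ℝ) (l : ℕ) (x : ℝ) :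
    (PL n s l).eval x = ∏ j ∈ (range n).erase l, (x + cc s j) := by
  rw [PL, eval_prod]
  apply prod_congr rfl
  intro j _
  rw [eval_add, eval_X, eval_C]

theorem PL_eval_ne (n : ℕ) (s : ℝ) (l : ℕ) : (PL n s l).eval (-(cc s l)) ≠ 0 := by
  rw [PL_eval]
  refine prod_ne_zero_iff.mpr fun j hj => ?_
  have hjl : j ≠ l := (mem_erase.mp hj).1
  intro h
  apply hjl
  have h2 : (j : ℝ) = l := by
    rw [cc, cc] at h
    linarith
  exact_mod_cast h2

theorem PL_eval_zero (n : ℕ) (s : ℝ) (l k : ℕ) (hk : k < n) (hlk : l ≠ k) :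
    (PL n s l).eval (-(cc s k)) = 0 := by
  rw [PL, eval_prod]
  apply prod_eq_zero (i := k) (mem_erase.mpr ⟨hlk.symm, mem_range.mpr hk⟩)
  simp

theorem PP_eval_zero (n : ℕ) (s : ℝ) (k : ℕ) (hk : k < n) : (PP n s).eval (-(cc s k)) = 0 := by
  rw [PP, eval_prod]
  apply prod_eq_zero (i := k) (mem_range.mpr hk)
  simp

/-- the decomposition -/
theorem lagrange (n : ℕ) (s : ℝ) (hn : 1 ≤ n) :
    QQ n s = PP n s + ∑ l ∈ range n, C (AA n s l) * PL n s l := by
  have h : QQ n s - PP n s = ∑ l ∈ range n, C (AA n s l) * PL n s l := by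
    refine eq_of_degrees_lt_of_eval_index_eq (v := fun l : ℕ => -(cc s l)) (range n) ?_ ?_ ?_ ?_
    · intro i _ j _ h
      simp only [cc, neg_inj] at h
      have : (i : ℝ) = j := by linarith
      exact_mod_cast this
    · rw [card_range]
      have h1 : (QQ n s).degree = n := by
        rw [degree_eq_natDegree (QQ_monic n s).ne_zero, QQ_deg]
      have h2 : (PP n s).degree = n := by
        rw [degree_eq_natDegree (PP_monic n s).ne_zero, PP_deg]
      calc (QQ n s - PP n s).degree < (QQ n s).degree := by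
            apply degree_sub_lt (h1.trans h2.symm) (QQ_monic n s).ne_zero
            rw [(QQ_monic n s).leadingCoeff, (PP_monic n s).leadingCoeff]
        _ = n := h1
    · rw [card_range]
      refine lt_of_le_of_lt (degree_sum_le _ _) ?_
      rw [Finset.sup_lt_iff (by exact_mod_cast WithBot.bot_lt_coe n)]
      intro l hl
      refine lt_of_le_of_lt (b := (PL n s l).degree) ?_ ?_
      · refine (degree_mul_le _ _).trans ?_
        calc (C (AA n s l)).degree + (PL n s l).degree ≤ 0 + (PL n s l).degree := by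
              gcongr
              exact degree_C_le
          _ = _ := zero_add _
      rw [degree_eq_natDegree (PL_monic n s l).ne_zero, PL_deg n s l (mem_range.mp hl)]
      exact_mod_cast (by omega : n - 1 < n)
    · intro k hk
      have hk' := mem_range.mp hk
      rw [eval_sub, PP_eval_zero n s k hk', sub_zero, eval_finset_sum, sum_eq_single k]
      · rw [eval_mul, eval_C, AA, div_mul_cancel₀ _ (PL_eval_ne n s k)]
      · intro l _ hlk
        rw [eval_mul, PL_eval_zero n s l k hk' hlk, mul_zero]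
      · intro h; exact absurd hk h
  rw [← h]; ring

theorem AA_nonneg (n : ℕ) (s : ℝ) (hs : 0 < s) (hs2 : s < 1 / 2) (l : ℕ) (hl : l < n) :
    0 ≤ AA n s l := by
  have h : 0 ≤ (QQ n s).eval (-(cc s l)) * (PL n s l).eval (-(cc s l)) := by
    rw [QQ, PL, eval_prod, eval_prod, ← mul_prod_erase _ _ (mem_range.mpr hl), mul_assoc,
      ← prod_mul_distrib]
    apply mul_nonneg
    · simp only [eval_add, eval_X, eval_C, cc]
      linarith
    · apply prod_nonneg
      intro j hj
      have hjl : j ≠ l := (mem_erase.mp hj).1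
      simp only [eval_add, eval_X, eval_C, cc]
      rcases Nat.lt_or_ge j l with h1 | h1
      · have h2 : (j : ℝ) + 1 ≤ l := by exact_mod_cast h1
        apply mul_nonneg_of_nonpos_of_nonpos <;> linarith
      · have h2 : (l : ℝ) + 1 ≤ j := by exact_mod_cast (lt_of_le_of_ne h1 hjl.symm)
        apply mul_nonneg <;> linarith
  have h2 : AA n s l = (QQ n s).eval (-(cc s l)) * (PL n s l).eval (-(cc s l))
      / ((PL n s l).eval (-(cc s l))) ^ 2 := by
    have := PL_eval_ne n s l
    rw [AA]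
    field_simp
  rw [h2]
  positivity

theorem coeff_pred (n : ℕ) (f : ℕ → ℝ) :
    (∏ l ∈ range (n + 1), (X + C (f l)) : ℝ[X]).coeff n = ∑ l ∈ range (n + 1), f l := by
  have h1 : (∏ l ∈ range (n + 1), (X + C (f l)) : ℝ[X]).natDegree = n + 1 := by
    rw [natDegree_prod_of_monic _ _ fun _ _ => monic_X_add_C _]
    simp
  have h2 := Monic.nextCoeff_prod (range (n + 1)) (fun l => (X + C (f l) : ℝ[X]))
    fun _ _ => monic_X_add_C _
  rw [nextCoeff_of_natDegree_pos (by rw [h1]; omega), h1] at h2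
  simpa using h2

theorem AA_sum (n : ℕ) (s : ℝ) :
    ∑ l ∈ range (n + 1), AA (n + 1) s l = (n + 1) * (2 - 4 * s) := by
  have h := congrArg (fun p : ℝ[X] => p.coeff n) (lagrange (n + 1) s (by omega))
  simp only [coeff_add, finset_sum_coeff, coeff_C_mul] at h
  have h1 : (QQ (n + 1) s).coeff n = ∑ l ∈ range (n + 1), (2 * ((l : ℝ) + 1) - 2 * s) :=
    coeff_pred n _
  have h2 : (PP (n + 1) s).coeff n = ∑ l ∈ range (n + 1), cc s l := coeff_pred n _
  have h3 : ∀ l ∈ range (n + 1), AA (n + 1) s l * (PL (n + 1) s l).coeff n = AA (n + 1) s l := by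
    intro l hl
    have h4 : (PL (n + 1) s l).coeff n = 1 := by
      have h5 := (PL_monic (n + 1) s l).coeff_natDegree
      rwa [PL_deg _ _ _ (mem_range.mp hl), Nat.add_sub_cancel] at h5
    rw [h4, mul_one]
  rw [sum_congr rfl h3, h1, h2] at h
  have h6 : ∑ l ∈ range (n + 1), (2 * ((l : ℝ) + 1) - 2 * s) - ∑ l ∈ range (n + 1), cc s l
      = (n + 1) * (2 - 4 * s) := by
    rw [← sum_sub_distrib]
    have : ∀ l ∈ range (n + 1), (2 * ((l : ℝ) + 1) - 2 * s) - cc s l = 2 - 4 * s := by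
      intro l _
      rw [cc]; ring
    rw [sum_congr rfl this]
    simp
    ring
  linarith

theorem AA_zero (n : ℕ) (s : ℝ) :
    AA (n + 1) s 0 = (2 * (n + 1) - 4 * s) * ∏ j ∈ range n, (1 - 2 * s / (j + 1)) := by
  have h1 : PL (n + 1) s 0 = ∏ j ∈ range n, (X + C (cc s (j + 1))) := by
    have h2 := PL_mul (n + 1) s 0 (by omega)
    rw [PP, prod_range_succ', mul_comm] at h2
    exact mul_right_cancel₀ (monic_X_add_C _).ne_zero h2
  rw [AA, h1, QQ, eval_prod, eval_prod, prod_range_succ, mul_comm, mul_div_assoc, ← prod_div_distrib]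
  congr 1
  · simp [cc]; ring
  · apply prod_congr rfl
    intro j _
    have : (j : ℝ) + 1 ≠ 0 := by positivity
    simp only [eval_add, eval_X, eval_C, cc]
    push_cast
    have h3 : -(2 * (0 : ℝ) + 2 * s) + (2 * ((j : ℝ) + 1) + 2 * s) = 2 * ((j : ℝ) + 1) := by ring
    rw [h3]
    field_simp
    ring

theorem prod_lower (n : ℕ) (s : ℝ) (hs : 0 < s) (hs2 : s < 1 / 2) :
    1 - 2 * s * (harmonic n : ℝ) ≤ ∏ j ∈ range n, (1 - 2 * s / (j + 1)) ∧
      0 ≤ ∏ j ∈ range n, (1 - 2 * s / ((j : ℝ) + 1)) ∧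
      ∏ j ∈ range n, (1 - 2 * s / ((j : ℝ) + 1)) ≤ 1 := by
  induction n with
  | zero => simp
  | succ n ih =>
    obtain ⟨h1, h2, h3⟩ := ih
    have hn : (0 : ℝ) < (n : ℝ) + 1 := by positivity
    have h4 : 0 < 2 * s / ((n : ℝ) + 1) := by positivity
    have h5 : 2 * s / ((n : ℝ) + 1) ≤ 1 := by
      rw [div_le_one hn]
      have : (0 : ℝ) ≤ n := by positivity
      linarith
    rw [prod_range_succ, harmonic_succ]
    refine ⟨?_, ?_, ?_⟩
    · push_cast
      have h6 : 2 * s * ((harmonic n : ℝ) + ((n : ℝ) + 1)⁻¹)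
          = 2 * s * (harmonic n : ℝ) + 2 * s / ((n : ℝ) + 1) := by
        ring
      rw [h6]
      nlinarith
    · apply mul_nonneg h2; linarith
    · nlinarith

theorem harm_le (n : ℕ) : (harmonic n : ℝ) ≤ 1 + Real.log (n + 1) := by
  rcases Nat.eq_zero_or_pos n with h | h
  · subst h; simp
  · refine (harmonic_le_one_add_log n).trans ?_
    have : (0 : ℝ) < n := by exact_mod_cast h
    gcongr
    linarith

/-- the constant of the question -/
noncomputable def K (n : ℕ) (p : ℝ) : ℝ :=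
  (ascPochhammer ℝ n).eval (1 - 1 / p) / (ascPochhammer ℝ n).eval (1 / p)

theorem asc_prod (n : ℕ) (x : ℝ) : (ascPochhammer ℝ n).eval x = ∏ l ∈ range n, (x + l) := by
  induction n with
  | zero => simp
  | succ n ih => rw [ascPochhammer_succ_eval, ih, prod_range_succ]

theorem PP_zero (n : ℕ) (s : ℝ) : (PP n s).eval 0 = 2 ^ n * ∏ l ∈ range n, (s + l) := by
  rw [PP, eval_prod]
  have : ∀ l ∈ range n, eval 0 (X + C (cc s l)) = 2 * (s + l) := by
    intro l _
    simp [cc]; ring
  rw [prod_congr rfl this, prod_mul_distrib]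
  simp

theorem QQ_zero (n : ℕ) (s : ℝ) : (QQ n s).eval 0 = 2 ^ n * ∏ l ∈ range n, (1 - s + l) := by
  rw [QQ, eval_prod]
  have : ∀ l ∈ range n, eval 0 (X + C (2 * ((l : ℝ) + 1) - 2 * s)) = 2 * (1 - s + l) := by
    intro l _
    simp; ring
  rw [prod_congr rfl this, prod_mul_distrib]
  simp

theorem PP_zero_pos (n : ℕ) (s : ℝ) (hs : 0 < s) : 0 < (PP n s).eval 0 := by
  rw [PP_zero]
  have : 0 < ∏ l ∈ range n, (s + (l : ℝ)) := prod_pos fun l _ => by positivity
  positivity

theorem K_mul (n : ℕ) (p : ℝ) (hp : 0 < p) :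
    (QQ n (1 / p)).eval 0 = K n p * (PP n (1 / p)).eval 0 := by
  have h : (ascPochhammer ℝ n).eval (1 / p) ≠ 0 := by
    rw [asc_prod]
    exact (prod_pos fun l _ => by positivity).ne'
  rw [K, PP_zero, QQ_zero, ← asc_prod, ← asc_prod]
  field_simp

theorem K_lower (n : ℕ) (p : ℝ) (hp : 2 < p) :
    ((n + 1 : ℝ) - 1 / p) * p * (1 - 2 / p * (1 + Real.log (n + 1))) ≤ K (n + 1) p := by
  have hp0 : 0 < p := by linarith
  set s := 1 / p with hs
  have hs0 : 0 < s := by positivity
  have hs2 : s < 1 / 2 := by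
    rw [hs]; gcongr
  obtain ⟨h1, h2, h3⟩ := prod_lower n s hs0 hs2
  have hK : K (n + 1) p = ((n + 1 : ℝ) - s) * p * ∏ l ∈ range n, ((1 - s + l) / (1 + s + l)) := by
    rw [K, asc_prod, asc_prod, prod_range_succ, ← hs]
    have e : ∏ l ∈ range (n + 1), (s + (l : ℝ)) = (∏ l ∈ range n, (1 + s + (l : ℝ))) * s := by
      rw [prod_range_succ']
      congr 1
      · apply prod_congr rfl
        intro l _
        push_cast; ring
      · simp
    have e0 : ∏ l ∈ range n, (1 + s + (l : ℝ)) ≠ 0 := (prod_pos fun l _ => by positivity).ne'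
    rw [e, prod_div_distrib]
    have hps : p = 1 / s := by rw [hs]; field_simp
    rw [hps]
    field_simp
    ring
  rw [hK]
  have hn1 : 0 ≤ ((n + 1 : ℝ) - s) * p := by
    have : (0 : ℝ) ≤ n := by positivity
    apply mul_nonneg _ hp0.le
    linarith
  apply mul_le_mul_of_nonneg_left _ hn1
  calc 1 - 2 / p * (1 + Real.log (n + 1)) ≤ 1 - 2 * s * (harmonic n : ℝ) := by
        have h4 := harm_le n
        have h5 : 2 / p = 2 * s := by rw [hs]; ring
        rw [h5]
        have : 2 * s * (harmonic n : ℝ) ≤ 2 * s * (1 + Real.log (n + 1)) := by gcongr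
        linarith
    _ ≤ ∏ j ∈ range n, (1 - 2 * s / ((j : ℝ) + 1)) := h1
    _ ≤ ∏ l ∈ range n, ((1 - s + (l : ℝ)) / (1 + s + l)) := by
        apply prod_le_prod
        · intro j _
          have : (0 : ℝ) ≤ j := by positivity
          rw [sub_nonneg, div_le_one (by positivity)]
          linarith
        · intro j _
          have hj : (0 : ℝ) ≤ j := by positivity
          have h6 : 1 - 2 * s / ((j : ℝ) + 1) = ((j : ℝ) + 1 - 2 * s) / (j + 1) := by
            field_simp
          rw [h6, div_le_div_iff₀ (by positivity) (by positivity)]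
          nlinarith

/-- the size of the kernel -/
theorem AA_bound (n : ℕ) (s : ℝ) (hs : 0 < s) (hs2 : s < 1 / 2) :
    2 * Real.pi * s * AA (n + 1) s 0 + ∑ l ∈ range n, AA (n + 1) s (l + 1)
      ≤ 4 * s * (n + 1) * (Real.pi + (1 + Real.log (n + 1))) := by
  have h1 := AA_sum n s
  rw [sum_range_succ'] at h1
  have h2 := AA_zero n s
  obtain ⟨h3, h4, h5⟩ := prod_lower n s hs hs2
  have hn : (0 : ℝ) ≤ n := by positivity
  have h6 : AA (n + 1) s 0 ≤ 2 * (n + 1) := by
    rw [h2]
    nlinarith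
  have h7 : (2 * ((n : ℝ) + 1) - 4 * s) * (1 - 2 * s * (harmonic n : ℝ)) ≤ AA (n + 1) s 0 := by
    rw [h2]
    apply mul_le_mul_of_nonneg_left h3
    linarith
  have h8 := harm_le n
  have h9 : (0 : ℝ) ≤ harmonic n := by
    rcases Nat.eq_zero_or_pos n with h | h
    · subst h; simp
    · exact_mod_cast (harmonic_pos (by omega)).le
  have h10 : ∑ l ∈ range n, AA (n + 1) s (l + 1) ≤ 4 * s * (n + 1) * (1 + Real.log (n + 1)) := by
    have h11 : ∑ l ∈ range n, AA (n + 1) s (l + 1)
        ≤ (n + 1) * (2 - 4 * s) - (2 * ((n : ℝ) + 1) - 4 * s) * (1 - 2 * s * (harmonic n : ℝ)) := by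
      linarith
    have h12 : (n + 1) * (2 - 4 * s) - (2 * ((n : ℝ) + 1) - 4 * s) * (1 - 2 * s * (harmonic n : ℝ))
        = 4 * s * ((n + 1) * (harmonic n : ℝ)) - 4 * s * n - 8 * s ^ 2 * (harmonic n : ℝ) := by
      ring
    have h13 : 4 * s * ((n + 1) * (harmonic n : ℝ)) ≤ 4 * s * ((n + 1) * (1 + Real.log (n + 1))) := by
      gcongr
    have h14 : 0 ≤ 4 * s * n := by positivity
    have h15 : 0 ≤ 8 * s ^ 2 * (harmonic n : ℝ) := by positivity
    linarith
  have h16 : 2 * Real.pi * s * AA (n + 1) s 0 ≤ 2 * Real.pi * s * (2 * (n + 1)) := by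
    have := Real.pi_pos
    gcongr
  linarith

end Pool.Agent.D0H14.BA
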