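import Mathlib

/-! Differential operators with constant coefficients on `2π`-periodic functions. -/

set_option autoImplicit false

open Polynomial Finset

namespace Pool.Agent.D0H14.BA

/-- `F(D) h` with `D = -i d/dθ`, for polynomials `F` of degree at most `n` -/
noncomputable def op (n : ℕ) (F : ℝ[X]) (h : ℝ → ℂ) (θ : ℝ) : ℂ :=
  ∑ k ∈ range (n + 1), (F.coeff k : ℂ) * (-Complex.I) ^ k * iteratedDeriv k h θ

theorem op_add (n : ℕ) (F G : ℝ[X]) (h : ℝ → ℂ) (θ : ℝ) :
    op n (F + G) h θ = op n F h θ + op n G h θ := by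
  simp only [op]
  rw [← sum_add_distrib]
  apply sum_congr rfl
  intro k _
  rw [coeff_add]; push_cast; ring

theorem op_C_mul (n : ℕ) (a : ℝ) (F : ℝ[X]) (h : ℝ → ℂ) (θ : ℝ) :
    op n (C a * F) h θ = a * op n F h θ := by
  simp only [op]
  rw [mul_sum]
  apply sum_congr rfl
  intro k _
  rw [coeff_C_mul]; push_cast; ring

theorem op_zero (n : ℕ) (h : ℝ → ℂ) (θ : ℝ) : op n 0 h θ = 0 := by
  simp [op]

theorem op_sum (n : ℕ) (S : Finset ℕ) (F : ℕ → ℝ[X]) (h : ℝ → ℂ) (θ : ℝ) :
    op n (∑ l ∈ S, F l) h θ = ∑ l ∈ S, op n (F l) h θ := by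
  classical
  induction S using Finset.induction_on with
  | empty => simp [op_zero]
  | insert a S ha ih => rw [sum_insert ha, sum_insert ha, op_add, ih]

theorem contD {n k : ℕ} (hk : k ≤ n) {h : ℝ → ℂ} (hh : ContDiff ℝ n h) :
    Continuous (iteratedDeriv k h) :=
  hh.continuous_iteratedDeriv k (by exact_mod_cast hk)

theorem hasD {n k : ℕ} (hk : k < n) {h : ℝ → ℂ} (hh : ContDiff ℝ n h) (θ : ℝ) :
    HasDerivAt (iteratedDeriv k h) (iteratedDeriv (k + 1) h θ) θ := by
  have := (hh.differentiable_iteratedDeriv k (by exact_mod_cast hk)) θ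
  rw [iteratedDeriv_succ]
  exact this.hasDerivAt

theorem op_cont {n : ℕ} {h : ℝ → ℂ} (hh : ContDiff ℝ n h) (F : ℝ[X]) : Continuous (op n F h) := by
  unfold op
  apply continuous_finset_sum
  intro k hk
  exact continuous_const.mul (contD (by have := mem_range.mp hk; omega) hh)

/-- derivative of `F(D) h` when `deg F < n` -/
theorem op_hasDeriv {n : ℕ} {h : ℝ → ℂ} (hh : ContDiff ℝ n h) (F : ℝ[X]) (hF : F.coeff n = 0)
    (θ : ℝ) :
    HasDerivAt (op n F h)
      (∑ k ∈ range n, (F.coeff k : ℂ) * (-Complex.I) ^ k * iteratedDeriv (k + 1) h θ) θ := by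
  have e : op n F h = fun θ => ∑ k ∈ range n, (F.coeff k : ℂ) * (-Complex.I) ^ k
      * iteratedDeriv k h θ := by
    funext θ
    rw [op, sum_range_succ, hF]
    simp
  rw [e]
  apply HasDerivAt.fun_sum
  intro k hk
  exact (hasD (mem_range.mp hk) hh θ).const_mul _

theorem op_step {n : ℕ} {h : ℝ → ℂ} (hh : ContDiff ℝ n h) (F : ℝ[X]) (hF : F.coeff n = 0) (c : ℝ)
    (θ : ℝ) :
    op n ((X + C c) * F) h θ = -Complex.I * deriv (op n F h) θ + c * op n F h θ := by
  rw [(op_hasDeriv hh F hF θ).deriv, add_mul, op_add, op_C_mul]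
  congr 1
  rw [op, sum_range_succ', mul_sum, coeff_X_mul_zero]
  simp only [Complex.ofReal_zero, zero_mul, add_zero]
  apply sum_congr rfl
  intro k _
  rw [coeff_X_mul, pow_succ]
  ring

theorem deriv_periodic {f : ℝ → ℂ} {T : ℝ} (hf : Function.Periodic f T) :
    Function.Periodic (deriv f) T := by
  intro x
  rw [← deriv_comp_add_const]
  congr 1
  funext y
  exact hf y

theorem iter_periodic {f : ℝ → ℂ} {T : ℝ} (hf : Function.Periodic f T) (k : ℕ) :
    Function.Periodic (iteratedDeriv k f) T := by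
  induction k with
  | zero => rwa [iteratedDeriv_zero]
  | succ k ih => rw [iteratedDeriv_succ]; exact deriv_periodic ih

theorem op_periodic {n : ℕ} {f : ℝ → ℂ} {T : ℝ} (hf : Function.Periodic f T) (F : ℝ[X]) :
    Function.Periodic (op n F f) T := by
  intro x
  simp only [op]
  apply sum_congr rfl
  intro k _
  rw [iter_periodic hf k x]

theorem op_sub_const {n : ℕ} (h : ℝ → ℂ) (F : ℝ[X]) (a : ℂ) (θ : ℝ) :
    op n F h θ = (F.eval 0 : ℝ) * a + op n F (fun x => h x - a) θ := by
  rw [op, op, sum_range_succ', sum_range_succ' _ n]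
  have e : ∀ k ∈ range n, (F.coeff (k + 1) : ℂ) * (-Complex.I) ^ (k + 1)
      * iteratedDeriv (k + 1) (fun x => h x - a) θ
      = (F.coeff (k + 1) : ℂ) * (-Complex.I) ^ (k + 1) * iteratedDeriv (k + 1) h θ := by
    intro k _
    rw [iteratedDeriv_succ', iteratedDeriv_succ']
    have : deriv (fun x => h x - a) = deriv h := by
      funext x
      exact deriv_sub_const a
    rw [this]
  rw [sum_congr rfl e, ← coeff_zero_eq_eval_zero]
  simp only [iteratedDeriv_zero, pow_zero]
  ring

theorem op_integral {n : ℕ} {h : ℝ → ℂ} (hh : ContDiff ℝ n h)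
    (hp : Function.Periodic h (2 * Real.pi)) (F : ℝ[X]) :
    ∫ θ in (0 : ℝ)..(2 * Real.pi), op n F h θ
      = (F.eval 0 : ℝ) * ∫ θ in (0 : ℝ)..(2 * Real.pi), h θ := by
  unfold op
  rw [intervalIntegral.integral_finset_sum, sum_range_succ']
  · have e : ∀ k ∈ range n, ∫ θ in (0 : ℝ)..(2 * Real.pi), (F.coeff (k + 1) : ℂ)
        * (-Complex.I) ^ (k + 1) * iteratedDeriv (k + 1) h θ = 0 := by
      intro k hk
      have hk' := mem_range.mp hk
      rw [intervalIntegral.integral_const_mul,
        intervalIntegral.integral_eq_sub_of_hasDerivAt (f := iteratedDeriv k h)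
          (fun x _ => hasD hk' hh x) ((contD (by omega) hh).intervalIntegrable _ _)]
      have := iter_periodic hp k 0
      rw [zero_add] at this
      rw [this]
      simp
    rw [sum_congr rfl e, ← coeff_zero_eq_eval_zero]
    simp [intervalIntegral.integral_const_mul]
  · intro k hk
    exact (continuous_const.mul (contD (by have := mem_range.mp hk; omega) hh)).intervalIntegrable
      _ _

/-- the kernel of `(D + c)⁻¹` -/
noncomputable def ee (c t : ℝ) : ℂ := Complex.exp (Complex.I * (c * (Real.pi - t)))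

theorem ee_cont (c : ℝ) : Continuous (ee c) := by
  unfold ee
  fun_prop

theorem ee_norm (c t : ℝ) : ‖ee c t‖ = 1 := by
  rw [ee, mul_comm]
  have : ((c : ℂ) * ((Real.pi : ℂ) - t)) = ((c * (Real.pi - t) : ℝ) : ℂ) := by push_cast; ring
  rw [this, Complex.norm_exp_ofReal_mul_I]

theorem ee_hasDeriv (c t : ℝ) : HasDerivAt (ee c) (-(Complex.I * c) * ee c t) t := by
  unfold ee
  have h1 : HasDerivAt (fun t : ℝ => Complex.I * ((c : ℂ) * ((Real.pi : ℂ) - (t : ℂ))))
      (Complex.I * ((c : ℂ) * (0 - 1))) t :=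
    (((hasDerivAt_const t (Real.pi : ℂ)).sub (Complex.ofRealCLM.hasDerivAt (x := t))).const_mul
      (c : ℂ)).const_mul Complex.I
  have h2 := h1.cexp
  convert h2 using 1
  ring

theorem kernel {v v' : ℝ → ℂ} (hv : ∀ x, HasDerivAt v (v' x) x) (hc : Continuous v')
    (hp : Function.Periodic v (2 * Real.pi)) (c θ : ℝ) :
    ∫ t in (0 : ℝ)..(2 * Real.pi), ee c t * (-Complex.I * v' (θ - t) + c * v (θ - t))
      = 2 * Real.sin (Real.pi * c) * v θ := by
  have hvc : Continuous v := continuous_iff_continuousAt.mpr fun x => (hv x).continuousAt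
  have hd : ∀ t : ℝ, HasDerivAt (fun t => Complex.I * (ee c t * v (θ - t)))
      (ee c t * (-Complex.I * v' (θ - t) + c * v (θ - t))) t := by
    intro t
    have h1 : HasDerivAt (fun t : ℝ => v (θ - t)) (-(v' (θ - t))) t := by
      have := (hv (θ - t)).scomp t ((hasDerivAt_id t).const_sub θ)
      exact this.congr_deriv (by simp)
    have h2 := ((ee_hasDeriv c t).fun_mul h1).const_mul Complex.I
    refine h2.congr_deriv ?_
    have hI := Complex.I_mul_I
    linear_combination (-(c : ℂ) * ee c t * v (θ - t)) * hI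
  rw [intervalIntegral.integral_eq_sub_of_hasDerivAt (fun t _ => hd t)]
  · have h1 : v (θ - 2 * Real.pi) = v θ := hp.sub_eq θ
    rw [h1, sub_zero]
    have h2 : ee c (2 * Real.pi) = Complex.exp (-(c * Real.pi) * Complex.I) := by
      rw [ee]; congr 1; push_cast; ring
    have h3 : ee c 0 = Complex.exp ((c * Real.pi) * Complex.I) := by
      rw [ee]; congr 1; push_cast; ring
    rw [h2, h3]
    have h4 : (Real.sin (Real.pi * c) : ℂ) = (Complex.exp (-(c * Real.pi) * Complex.I)
        - Complex.exp ((c * Real.pi) * Complex.I)) * Complex.I / 2 := by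
      push_cast
      rw [Complex.sin]
      have : (Real.pi : ℂ) * c = c * Real.pi := by ring
      rw [this]
    rw [h4]
    ring
  · apply Continuous.intervalIntegrable
    have h5 : Continuous fun t : ℝ => v' (θ - t) := hc.comp (by fun_prop)
    have h6 : Continuous fun t : ℝ => v (θ - t) := hvc.comp (by fun_prop)
    exact (ee_cont c).mul ((continuous_const.mul h5).add (continuous_const.mul h6))

end Pool.Agent.D0H14.BA
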