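import Mathlib
import Pool.Agent.D0H14.BA.Op
import Pool.Agent.D0H14.BA.Lag

/-! Wirtinger derivatives of functions homogeneous for the dilations, restricted to the unit
circle. -/

set_option autoImplicit false

open Polynomial Finset MeasureTheory

namespace Pool.Agent.D0H14.BA

/-- `∂ u = (u_x - i u_y) / 2` -/
noncomputable def dz (u : ℂ → ℂ) (z : ℂ) : ℂ :=
  (fderiv ℝ u z 1 - Complex.I * fderiv ℝ u z Complex.I) / 2

/-- `∂̄ u = (u_x + i u_y) / 2` -/
noncomputable def dzb (u : ℂ → ℂ) (z : ℂ) : ℂ :=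
  (fderiv ℝ u z 1 + Complex.I * fderiv ℝ u z Complex.I) / 2

/-- `u (t z) = t ^ b u z` for `t > 0`, `z ≠ 0` -/
def Homog (b : ℝ) (u : ℂ → ℂ) : Prop :=
  ∀ t : ℝ, 0 < t → ∀ z : ℂ, z ≠ 0 → u (t * z) = ((t ^ b : ℝ) : ℂ) * u z

theorem nhds_ne {z : ℂ} (hz : z ≠ 0) : ({0}ᶜ : Set ℂ) ∈ nhds z :=
  isOpen_compl_singleton.mem_nhds hz

theorem diffAt {k : ℕ} {u : ℂ → ℂ} (hu : ContDiffOn ℝ (k + 1 : ℕ) u {0}ᶜ) {z : ℂ} (hz : z ≠ 0) :
    DifferentiableAt ℝ u z :=
  (hu.contDiffAt (nhds_ne hz)).differentiableAt (by simp)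

theorem dz_smooth {k : ℕ} {u : ℂ → ℂ} (hu : ContDiffOn ℝ (k + 1 : ℕ) u {0}ᶜ) :
    ContDiffOn ℝ k (dz u) {0}ᶜ := by
  have h := hu.fderiv_of_isOpen (m := k) isOpen_compl_singleton (by exact_mod_cast le_rfl)
  have h1 : ContDiffOn ℝ k (fun z => fderiv ℝ u z 1) {0}ᶜ := h.clm_apply contDiffOn_const
  have h2 : ContDiffOn ℝ k (fun z => fderiv ℝ u z Complex.I) {0}ᶜ := h.clm_apply contDiffOn_const
  exact (h1.sub (contDiffOn_const.mul h2)).div_const _

theorem dzb_smooth {k : ℕ} {u : ℂ → ℂ} (hu : ContDiffOn ℝ (k + 1 : ℕ) u {0}ᶜ) :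
    ContDiffOn ℝ k (dzb u) {0}ᶜ := by
  have h := hu.fderiv_of_isOpen (m := k) isOpen_compl_singleton (by exact_mod_cast le_rfl)
  have h1 : ContDiffOn ℝ k (fun z => fderiv ℝ u z 1) {0}ᶜ := h.clm_apply contDiffOn_const
  have h2 : ContDiffOn ℝ k (fun z => fderiv ℝ u z Complex.I) {0}ᶜ := h.clm_apply contDiffOn_const
  exact (h1.add (contDiffOn_const.mul h2)).div_const _

/-- derivative at `t z` -/
theorem fderiv_homog {b : ℝ} {u : ℂ → ℂ} (hb : Homog b u)
    {t : ℝ} (ht : 0 < t) {z : ℂ} (hz : z ≠ 0) (hd : DifferentiableAt ℝ u z) (w : ℂ) :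
    fderiv ℝ u (t * z) w = ((t ^ (b - 1) : ℝ) : ℂ) * fderiv ℝ u z w := by
  have h1 : (fun x : ℂ => u (t • x)) =ᶠ[nhds z] fun x => ((t ^ b : ℝ) : ℂ) * u x := by
    filter_upwards [nhds_ne hz] with x hx
    have := hb t ht x hx
    rwa [← Complex.real_smul] at this
  have h2 := h1.fderiv_eq (𝕜 := ℝ)
  rw [fderiv_comp_smul] at h2
  have h3 : fderiv ℝ (fun x => ((t ^ b : ℝ) : ℂ) * u x) z = ((t ^ b : ℝ) : ℂ) • fderiv ℝ u z :=
    fderiv_const_mul hd _
  rw [h3] at h2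
  have h4 := congrArg (fun L : ℂ →L[ℝ] ℂ => L w) h2
  simp only [ContinuousLinearMap.smul_apply, smul_eq_mul, Complex.real_smul] at h4
  have h5 : ((t ^ b : ℝ) : ℂ) = (t : ℂ) * ((t ^ (b - 1) : ℝ) : ℂ) := by
    rw [← Complex.ofReal_mul]
    congr 1
    rw [Real.rpow_sub_one ht.ne']
    field_simp
  rw [h5, mul_assoc] at h4
  exact mul_left_cancel₀ (by exact_mod_cast ht.ne') h4

theorem dz_homog {k : ℕ} {b : ℝ} {u : ℂ → ℂ} (hu : ContDiffOn ℝ (k + 1 : ℕ) u {0}ᶜ)
    (hb : Homog b u) : Homog (b - 1) (dz u) := by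
  intro t ht z hz
  rw [dz, dz, fderiv_homog hb ht hz (diffAt hu hz), fderiv_homog hb ht hz (diffAt hu hz)]
  ring

theorem dzb_homog {k : ℕ} {b : ℝ} {u : ℂ → ℂ} (hu : ContDiffOn ℝ (k + 1 : ℕ) u {0}ᶜ)
    (hb : Homog b u) : Homog (b - 1) (dzb u) := by
  intro t ht z hz
  rw [dzb, dzb, fderiv_homog hb ht hz (diffAt hu hz), fderiv_homog hb ht hz (diffAt hu hz)]
  ring

/-- Euler's identity -/
theorem euler {b : ℝ} {u : ℂ → ℂ} (hb : Homog b u) {z : ℂ} (hz : z ≠ 0)
    (hd : DifferentiableAt ℝ u z) : fderiv ℝ u z z = b * u z := by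
  have h1 : HasDerivAt (fun t : ℝ => u ((t : ℂ) * z)) (fderiv ℝ u z z) 1 := by
    have h2 : HasDerivAt (fun t : ℝ => (t : ℂ) * z) z 1 := by
      have := (Complex.ofRealCLM.hasDerivAt (x := (1 : ℝ))).mul_const z
      simpa using this
    have h3 : HasFDerivAt u (fderiv ℝ u z) (((1 : ℝ) : ℂ) * z) := by
      simpa using hd.hasFDerivAt
    exact h3.comp_hasDerivAt 1 h2
  have h2 : HasDerivAt (fun t : ℝ => ((t ^ b : ℝ) : ℂ) * u z) ((b : ℂ) * u z) 1 := by
    have h3 := (Real.hasDerivAt_rpow_const (x := (1 : ℝ)) (p := b) (Or.inl one_ne_zero)).ofReal_comp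
    have h4 := h3.mul_const (u z)
    refine h4.congr_deriv ?_
    simp
  have h3 : (fun t : ℝ => u ((t : ℂ) * z)) =ᶠ[nhds 1] fun t : ℝ => ((t ^ b : ℝ) : ℂ) * u z := by
    filter_upwards [lt_mem_nhds (show (0 : ℝ) < 1 by norm_num)] with t ht
    exact hb t ht z hz
  exact h1.unique (h2.congr_of_eventuallyEq h3)

/-- the point of the unit circle -/
noncomputable def ci (θ : ℝ) : ℂ := Complex.exp (θ * Complex.I)

theorem ci_ne (θ : ℝ) : ci θ ≠ 0 := Complex.exp_ne_zero _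

theorem ci_hasDeriv (θ : ℝ) : HasDerivAt ci (Complex.I * ci θ) θ := by
  unfold ci
  have h1 : HasDerivAt (fun t : ℝ => (t : ℂ) * Complex.I) (1 * Complex.I) θ :=
    (Complex.ofRealCLM.hasDerivAt (x := θ)).mul_const _
  have h2 := h1.cexp
  refine h2.congr_deriv ?_
  ring

theorem ci_smooth (n : ℕ) : ContDiff ℝ n ci := by
  unfold ci
  exact ((Complex.ofRealCLM.contDiff).mul contDiff_const).cexp

theorem ci_split (θ : ℝ) : ci θ = Real.cos θ + Real.sin θ * Complex.I := by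
  rw [ci, Complex.exp_mul_I]
  push_cast
  rfl

/-- the derivative along the circle -/
theorem circ_deriv {u : ℂ → ℂ} {θ : ℝ} (hd : DifferentiableAt ℝ u (ci θ)) :
    HasDerivAt (fun θ => u (ci θ)) (fderiv ℝ u (ci θ) (Complex.I * ci θ)) θ :=
  hd.hasFDerivAt.comp_hasDerivAt θ (ci_hasDeriv θ)

theorem dzb_circ {b : ℝ} {u : ℂ → ℂ} (hb : Homog b u) {θ : ℝ}
    (hd : DifferentiableAt ℝ u (ci θ)) :
    dzb u (ci θ) = ci θ / 2 * (b * u (ci θ) + Complex.I * deriv (fun θ => u (ci θ)) θ) := by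
  rw [(circ_deriv hd).deriv, ← euler hb (ci_ne θ) hd, dzb]
  obtain ⟨L, hL⟩ : ∃ L, L = fderiv ℝ u (ci θ) := ⟨_, rfl⟩
  rw [← hL]
  have e1 : L (ci θ) = Real.cos θ * L 1 + Real.sin θ * L Complex.I := by
    have : ci θ = Real.cos θ • (1 : ℂ) + Real.sin θ • Complex.I := by
      rw [ci_split, Complex.real_smul, Complex.real_smul, mul_one]
    rw [this, map_add, map_smul, map_smul, Complex.real_smul, Complex.real_smul]
  have e2 : L (Complex.I * ci θ) = -Real.sin θ * L 1 + Real.cos θ * L Complex.I := by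
    have : Complex.I * ci θ = (-Real.sin θ) • (1 : ℂ) + Real.cos θ • Complex.I := by
      rw [ci_split, Complex.real_smul, Complex.real_smul, mul_one]
      push_cast
      linear_combination (Complex.sin θ) * Complex.I_mul_I
    rw [this, map_add, map_smul, map_smul, Complex.real_smul, Complex.real_smul]
    push_cast
    ring
  rw [e1, e2, ci_split]
  have h1 : (Real.cos θ : ℂ) ^ 2 + (Real.sin θ : ℂ) ^ 2 = 1 := by
    exact_mod_cast Real.cos_sq_add_sin_sq θ
  have hI := Complex.I_mul_I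
  linear_combination (-(L 1 + Complex.I * L Complex.I) / 2) * h1
    + (-((Real.sin θ : ℂ) * Real.cos θ * L Complex.I) / 2 + (Real.sin θ : ℂ) ^ 2 * L 1 / 2) * hI

theorem dz_circ {b : ℝ} {u : ℂ → ℂ} (hb : Homog b u) {θ : ℝ}
    (hd : DifferentiableAt ℝ u (ci θ)) :
    ci θ * dz u (ci θ) = 1 / 2 * (b * u (ci θ) - Complex.I * deriv (fun θ => u (ci θ)) θ) := by
  rw [(circ_deriv hd).deriv, ← euler hb (ci_ne θ) hd, dz]
  obtain ⟨L, hL⟩ : ∃ L, L = fderiv ℝ u (ci θ) := ⟨_, rfl⟩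
  rw [← hL]
  have e1 : L (ci θ) = Real.cos θ * L 1 + Real.sin θ * L Complex.I := by
    have : ci θ = Real.cos θ • (1 : ℂ) + Real.sin θ • Complex.I := by
      rw [ci_split, Complex.real_smul, Complex.real_smul, mul_one]
    rw [this, map_add, map_smul, map_smul, Complex.real_smul, Complex.real_smul]
  have e2 : L (Complex.I * ci θ) = -Real.sin θ * L 1 + Real.cos θ * L Complex.I := by
    have : Complex.I * ci θ = (-Real.sin θ) • (1 : ℂ) + Real.cos θ • Complex.I := by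
      rw [ci_split, Complex.real_smul, Complex.real_smul, mul_one]
      push_cast
      linear_combination (Complex.sin θ) * Complex.I_mul_I
    rw [this, map_add, map_smul, map_smul, Complex.real_smul, Complex.real_smul]
    push_cast
    ring
  rw [e1, e2, ci_split]
  have hI := Complex.I_mul_I
  linear_combination (-((Real.sin θ : ℂ) * L Complex.I) / 2) * hI

theorem ci_add (x y : ℝ) : ci (x + y) = ci x * ci y := by
  rw [ci, ci, ci, ← Complex.exp_add]
  congr 1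
  push_cast
  ring

theorem ci_norm (x : ℝ) : ‖ci x‖ = 1 := Complex.norm_exp_ofReal_mul_I x

theorem ci_lin (m θ : ℝ) : HasDerivAt (fun θ => ci (m * θ)) (Complex.I * m * ci (m * θ)) θ := by
  have h1 : HasDerivAt (fun θ : ℝ => m * θ) m θ := by
    simpa using (hasDerivAt_id θ).const_mul m
  have h2 := (ci_hasDeriv (m * θ)).scomp θ h1
  refine h2.congr_deriv ?_
  rw [Complex.real_smul]
  ring

/-- `e^(-inθ) u(e^(iθ))` -/
noncomputable def ht (n : ℕ) (u : ℂ → ℂ) (θ : ℝ) : ℂ := ci (-(n : ℝ) * θ) * u (ci θ)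

theorem ht_smooth {n : ℕ} {u : ℂ → ℂ} (hu : ContDiffOn ℝ n u {0}ᶜ) : ContDiff ℝ n (ht n u) := by
  have h1 : ContDiff ℝ n fun θ : ℝ => ci (-(n : ℝ) * θ) :=
    (ci_smooth n).comp (contDiff_const.mul contDiff_id)
  exact h1.mul (hu.comp_contDiff (ci_smooth n) fun θ => ci_ne θ)

theorem ci_periodic : Function.Periodic ci (2 * Real.pi) := by
  intro θ
  rw [ci_add]
  have : ci (2 * Real.pi) = 1 := by
    rw [ci]
    push_cast
    exact Complex.exp_two_pi_mul_I
  rw [this, mul_one]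

theorem ht_periodic (n : ℕ) (u : ℂ → ℂ) : Function.Periodic (ht n u) (2 * Real.pi) := by
  intro θ
  rw [ht, ht, ci_periodic θ]
  congr 1
  have h1 : -(n : ℝ) * (θ + 2 * Real.pi) = -(n : ℝ) * θ - n * (2 * Real.pi) := by ring
  rw [h1]
  exact ci_periodic.sub_nat_mul_eq n

theorem PP_coeff (n j : ℕ) (s : ℝ) (hj : j < n) : (PP j s).coeff n = 0 := by
  apply coeff_eq_zero_of_natDegree_lt
  rw [PP_deg]
  exact hj

theorem PP_succ (j : ℕ) (s : ℝ) : PP (j + 1) s = (X + C (cc s j)) * PP j s := by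
  rw [PP, prod_range_succ, mul_comm, PP]

theorem u_eq (n : ℕ) (u : ℂ → ℂ) (θ : ℝ) : u (ci θ) = ci (n * θ) * ht n u θ := by
  rw [ht, ← mul_assoc, ← ci_add]
  have : (n : ℝ) * θ + -(n : ℝ) * θ = 0 := by ring
  have h0 : ci 0 = 1 := by rw [ci]; simp
  rw [this, h0, one_mul]

theorem dzb_iter {n : ℕ} {s : ℝ} {u : ℂ → ℂ} (hu : ContDiffOn ℝ n u {0}ᶜ)
    (hb : Homog (n - 2 * s) u) (j : ℕ) (hj : j ≤ n) :
    ContDiffOn ℝ (n - j : ℕ) (dzb^[j] u) {0}ᶜ ∧ Homog (n - 2 * s - j) (dzb^[j] u) ∧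
      ∀ θ, (dzb^[j] u) (ci θ) = (-1 / 2) ^ j * ci ((n + j) * θ) * op n (PP j s) (ht n u) θ := by
  induction j with
  | zero =>
    refine ⟨by simpa using hu, by simpa using hb, fun θ => ?_⟩
    have h0 : PP 0 s = 1 := by simp [PP]
    rw [Function.iterate_zero, id, u_eq n u θ, h0, op, sum_range_succ', sum_eq_zero]
    · simp
    · intro k _
      rw [coeff_one]
      simp
  | succ j ih =>
    obtain ⟨h1, h2, h3⟩ := ih (by omega)
    have e : n - j = (n - (j + 1)) + 1 := by omega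
    rw [e] at h1
    obtain ⟨v, hv⟩ : ∃ v, v = dzb^[j] u := ⟨_, rfl⟩
    rw [← hv] at h1 h2 h3
    rw [Function.iterate_succ_apply', ← hv]
    refine ⟨dzb_smooth h1, ?_, fun θ => ?_⟩
    · have := dzb_homog h1 h2
      push_cast
      rw [← sub_sub]
      exact this
    · rw [dzb_circ h2 (diffAt h1 (ci_ne θ))]
      have hh := ht_smooth hu
      have hw : HasDerivAt (op n (PP j s) (ht n u)) (deriv (op n (PP j s) (ht n u)) θ) θ :=
        (op_hasDeriv hh (PP j s) (PP_coeff n j s (by omega)) θ).differentiableAt.hasDerivAt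
      have hd : deriv (fun θ => v (ci θ)) θ = (-1 / 2) ^ j
          * (Complex.I * ((n : ℝ) + j : ℝ) * ci ((n + j) * θ) * op n (PP j s) (ht n u) θ
            + ci ((n + j) * θ) * deriv (op n (PP j s) (ht n u)) θ) := by
        have e2 : (fun θ => v (ci θ)) = fun θ => (-1 / 2 : ℂ) ^ j
            * (ci ((n + j) * θ) * op n (PP j s) (ht n u) θ) := by
          funext θ
          rw [h3]; ring
        rw [e2]
        exact (((ci_lin _ θ).fun_mul hw).const_mul _).deriv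
      rw [hd, h3, PP_succ, op_step hh _ (PP_coeff n j s (by omega))]
      have e3 : ((n : ℝ) + (j + 1 : ℕ)) * θ = (n + j) * θ + θ := by push_cast; ring
      rw [e3, ci_add, pow_succ, cc]
      push_cast
      have hI := Complex.I_mul_I
      linear_combination ((-1 / 2 : ℂ) ^ j * ci θ / 2 * ((n : ℂ) + j) * ci ((n + j) * θ)
        * op n (PP j s) (ht n u) θ) * hI

/-- the products which appear for `∂` -/
noncomputable def QJ (n j : ℕ) (s : ℝ) : ℝ[X] :=
  ∏ l ∈ range j, (X + C (2 * ((n : ℝ) - l) - 2 * s))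

theorem QJ_deg (n j : ℕ) (s : ℝ) : (QJ n j s).natDegree = j :=
  (deg_prod (range j) _).trans (card_range j)

theorem QJ_coeff (n j : ℕ) (s : ℝ) (hj : j < n) : (QJ n j s).coeff n = 0 := by
  apply coeff_eq_zero_of_natDegree_lt
  rw [QJ_deg]
  exact hj

theorem QJ_succ (n j : ℕ) (s : ℝ) :
    QJ n (j + 1) s = (X + C (2 * ((n : ℝ) - j) - 2 * s)) * QJ n j s := by
  rw [QJ, prod_range_succ, mul_comm, QJ]

theorem QJ_self (n : ℕ) (s : ℝ) : QJ n n s = QQ n s := by
  rw [QJ, QQ, ← prod_range_reflect]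
  apply prod_congr rfl
  intro l hl
  have hl' := mem_range.mp hl
  have : ((n - 1 - l : ℕ) : ℝ) = n - 1 - l := by
    rw [Nat.cast_sub (by omega), Nat.cast_sub (by omega)]
    simp
  rw [this]
  congr 2
  ring

theorem dz_iter {n : ℕ} {s : ℝ} {u : ℂ → ℂ} (hu : ContDiffOn ℝ n u {0}ᶜ)
    (hb : Homog (n - 2 * s) u) (j : ℕ) (hj : j ≤ n) :
    ContDiffOn ℝ (n - j : ℕ) (dz^[j] u) {0}ᶜ ∧ Homog (n - 2 * s - j) (dz^[j] u) ∧
      ∀ θ, (dz^[j] u) (ci θ) = (1 / 2) ^ j * ci ((n - j) * θ) * op n (QJ n j s) (ht n u) θ := by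
  induction j with
  | zero =>
    refine ⟨by simpa using hu, by simpa using hb, fun θ => ?_⟩
    have h0 : QJ n 0 s = 1 := by simp [QJ]
    rw [Function.iterate_zero, id, u_eq n u θ, h0, op, sum_range_succ', sum_eq_zero]
    · simp
    · intro k _
      rw [coeff_one]
      simp
  | succ j ih =>
    obtain ⟨h1, h2, h3⟩ := ih (by omega)
    have e : n - j = (n - (j + 1)) + 1 := by omega
    rw [e] at h1
    obtain ⟨v, hv⟩ : ∃ v, v = dz^[j] u := ⟨_, rfl⟩
    rw [← hv] at h1 h2 h3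
    rw [Function.iterate_succ_apply', ← hv]
    refine ⟨dz_smooth h1, ?_, fun θ => ?_⟩
    · have := dz_homog h1 h2
      push_cast
      rw [← sub_sub]
      exact this
    · apply mul_left_cancel₀ (ci_ne θ)
      rw [dz_circ h2 (diffAt h1 (ci_ne θ))]
      have hh := ht_smooth hu
      have hw : HasDerivAt (op n (QJ n j s) (ht n u)) (deriv (op n (QJ n j s) (ht n u)) θ) θ :=
        (op_hasDeriv hh (QJ n j s) (QJ_coeff n j s (by omega)) θ).differentiableAt.hasDerivAt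
      have hd : deriv (fun θ => v (ci θ)) θ = (1 / 2) ^ j
          * (Complex.I * ((n : ℝ) - j : ℝ) * ci ((n - j) * θ) * op n (QJ n j s) (ht n u) θ
            + ci ((n - j) * θ) * deriv (op n (QJ n j s) (ht n u)) θ) := by
        have e2 : (fun θ => v (ci θ)) = fun θ => (1 / 2 : ℂ) ^ j
            * (ci ((n - j) * θ) * op n (QJ n j s) (ht n u) θ) := by
          funext θ
          rw [h3]; ring
        rw [e2]
        exact (((ci_lin _ θ).fun_mul hw).const_mul _).deriv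
      rw [hd, h3, QJ_succ, op_step hh _ (QJ_coeff n j s (by omega))]
      have e3 : ((n : ℝ) - j) * θ = (n - (j + 1 : ℕ)) * θ + θ := by push_cast; ring
      rw [e3, ci_add, pow_succ]
      push_cast
      have hI := Complex.I_mul_I
      linear_combination (-((1 / 2 : ℂ) ^ j / 2 * ((n : ℂ) - j) * (ci ((n - (j + 1)) * θ) * ci θ)
        * op n (QJ n j s) (ht n u) θ)) * hI

end Pool.Agent.D0H14.BA
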