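import Mathlib
import Pool.Agent.D0H14.BA.Op
import Pool.Agent.D0H14.BA.Lag
import Pool.Agent.D0H14.BA.Prob

/-! The sharp inequality on the circle. -/

set_option autoImplicit false

open Polynomial Finset MeasureTheory

namespace Pool.Agent.D0H14.BA

theorem sin_cc (s : ℝ) (l : ℕ) : Real.sin (Real.pi * cc s l) = Real.sin (2 * Real.pi * s) := by
  rw [cc, ← Real.sin_add_nat_mul_two_pi (2 * Real.pi * s) l]
  congr 1
  ring

/-- the convolution kernel -/
noncomputable def bb (n : ℕ) (s t : ℝ) : ℂ := ∑ l ∈ range n, (AA n s l : ℂ) * ee (cc s l) t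

theorem bb_cont (n : ℕ) (s : ℝ) : Continuous (bb n s) :=
  continuous_finset_sum _ fun l _ => continuous_const.mul (ee_cont _)

theorem PL_coeff (n : ℕ) (s : ℝ) (l : ℕ) (hl : l < n) : (PL n s l).coeff n = 0 := by
  apply coeff_eq_zero_of_natDegree_lt
  rw [PL_deg n s l hl]
  omega

theorem op_PL {n : ℕ} {h : ℝ → ℂ} (hh : ContDiff ℝ n h) (hp : Function.Periodic h (2 * Real.pi))
    (s : ℝ) (l : ℕ) (hl : l < n) (θ : ℝ) :
    ∫ t in (0 : ℝ)..(2 * Real.pi), ee (cc s l) t * op n (PP n s) h (θ - t)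
      = 2 * Real.sin (2 * Real.pi * s) * op n (PL n s l) h θ := by
  have hd := op_hasDeriv hh (PL n s l) (PL_coeff n s l hl)
  have hk := kernel (v := op n (PL n s l) h) (v' := deriv (op n (PL n s l) h))
    (fun x => (hd x).differentiableAt.hasDerivAt) ?_ (op_periodic hp _) (cc s l) θ
  · rw [sin_cc] at hk
    rw [← hk]
    apply intervalIntegral.integral_congr
    intro t _
    beta_reduce
    rw [← op_step hh (PL n s l) (PL_coeff n s l hl), PL_mul n s l hl]
  · have e : deriv (op n (PL n s l) h) = fun θ => ∑ k ∈ range n, ((PL n s l).coeff k : ℂ)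
        * (-Complex.I) ^ k * iteratedDeriv (k + 1) h θ := by
      funext x
      exact (hd x).deriv
    rw [e]
    apply continuous_finset_sum
    intro k hk
    exact continuous_const.mul (contD (by have := mem_range.mp hk; omega) hh)

theorem repr {n : ℕ} (hn : 1 ≤ n) {h : ℝ → ℂ} (hh : ContDiff ℝ n h)
    (hp : Function.Periodic h (2 * Real.pi))
    (s : ℝ) (hs : Real.sin (2 * Real.pi * s) ≠ 0) (θ : ℝ) :
    op n (QQ n s) h θ = op n (PP n s) h θ + (2 * (Real.sin (2 * Real.pi * s) : ℂ))⁻¹ *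
      ∫ t in (0 : ℝ)..(2 * Real.pi), bb n s t * op n (PP n s) h (θ - t) := by
  rw [lagrange n s hn, op_add, op_sum]
  congr 1
  have h1 : ∀ t, bb n s t * op n (PP n s) h (θ - t)
      = ∑ l ∈ range n, (AA n s l : ℂ) * (ee (cc s l) t * op n (PP n s) h (θ - t)) := by
    intro t
    rw [bb, sum_mul]
    apply sum_congr rfl
    intro l _
    ring
  simp_rw [h1]
  have hc : Continuous fun t : ℝ => op n (PP n s) h (θ - t) :=
    (op_cont hh _).comp (by fun_prop)
  rw [intervalIntegral.integral_finset_sum, mul_sum]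
  · apply sum_congr rfl
    intro l hl
    rw [intervalIntegral.integral_const_mul, op_PL hh hp s l (mem_range.mp hl), op_C_mul]
    have hs' : (Real.sin (2 * Real.pi * s) : ℂ) ≠ 0 := by exact_mod_cast hs
    field_simp
  · intro l _
    exact (continuous_const.mul ((ee_cont _).mul hc)).intervalIntegrable _ _

/-- distance of the kernel from a constant -/
theorem bb_bound (n : ℕ) (s : ℝ) (hs : 0 < s) (hs2 : s < 1 / 2) {t : ℝ} (ht : 0 ≤ t)
    (ht2 : t ≤ 2 * Real.pi) :
    ‖bb (n + 1) s t - AA (n + 1) s 0‖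
      ≤ 2 * Real.pi * s * AA (n + 1) s 0 + ∑ l ∈ range n, AA (n + 1) s (l + 1) := by
  rw [bb, sum_range_succ']
  have h1 : ∑ l ∈ range n, (AA (n + 1) s (l + 1) : ℂ) * ee (cc s (l + 1)) t
      + (AA (n + 1) s 0 : ℂ) * ee (cc s 0) t - (AA (n + 1) s 0 : ℂ)
      = (AA (n + 1) s 0 : ℂ) * (ee (cc s 0) t - 1)
        + ∑ l ∈ range n, (AA (n + 1) s (l + 1) : ℂ) * ee (cc s (l + 1)) t := by ring
  rw [h1]
  refine (norm_add_le _ _).trans (add_le_add ?_ ?_)
  · rw [norm_mul, Complex.norm_real, Real.norm_of_nonneg (AA_nonneg _ s hs hs2 0 (by omega)),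
      mul_comm]
    apply mul_le_mul_of_nonneg_right _ (AA_nonneg _ s hs hs2 0 (by omega))
    have h2 : ee (cc s 0) t = Complex.exp (Complex.I * ((2 * s * (Real.pi - t) : ℝ) : ℂ)) := by
      rw [ee, cc]; push_cast; ring_nf
    rw [h2]
    refine Real.norm_exp_I_mul_ofReal_sub_one_le.trans ?_
    rw [Real.norm_eq_abs, abs_mul, abs_of_pos (by positivity : (0 : ℝ) < 2 * s)]
    have h3 : |Real.pi - t| ≤ Real.pi := by
      rw [abs_le]; constructor <;> linarith
    calc 2 * s * |Real.pi - t| ≤ 2 * s * Real.pi := by gcongr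
      _ = _ := by ring
  · refine (norm_sum_le _ _).trans (sum_le_sum fun l hl => ?_)
    rw [norm_mul, ee_norm, mul_one, Complex.norm_real,
      Real.norm_of_nonneg (AA_nonneg _ s hs hs2 (l + 1) (by have := mem_range.mp hl; omega))]

/-- pointwise bound when the mean of `g = P(D) h` vanishes -/
theorem pointwise {n : ℕ} {h : ℝ → ℂ} (hh : ContDiff ℝ (n + 1 : ℕ) h)
    (hp : Function.Periodic h (2 * Real.pi)) (s : ℝ) (hs0 : 0 < s) (hs2 : s < 1 / 2)
    (hg : ∫ θ in (0 : ℝ)..(2 * Real.pi), op (n + 1) (PP (n + 1) s) h θ = 0) (θ : ℝ) :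
    ‖op (n + 1) (QQ (n + 1) s) h θ‖ ≤ ‖op (n + 1) (PP (n + 1) s) h θ‖
      + (2 * s * (n + 1) * (Real.pi + (1 + Real.log (n + 1))) / Real.sin (2 * Real.pi * s)) *
      ∫ t in (0 : ℝ)..(2 * Real.pi), ‖op (n + 1) (PP (n + 1) s) h t‖ := by
  have hpi := Real.pi_pos
  have hsin : 0 < Real.sin (2 * Real.pi * s) := by
    apply Real.sin_pos_of_pos_of_lt_pi (by positivity)
    nlinarith
  have h1 := repr (n := n + 1) (by omega) hh hp s hsin.ne' θ
  set g := op (n + 1) (PP (n + 1) s) h with hgdef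
  have hgc : Continuous g := op_cont hh _
  have hgp : Function.Periodic g (2 * Real.pi) := op_periodic hp _
  have hgc' : Continuous fun t : ℝ => g (θ - t) := hgc.comp (by fun_prop)
  have hshift : ∫ t in (0 : ℝ)..(2 * Real.pi), g (θ - t) = 0 := by
    rw [intervalIntegral.integral_comp_sub_left (fun t => g t) θ, sub_zero]
    have := hgp.intervalIntegral_add_eq (θ - 2 * Real.pi) 0
    rw [zero_add, sub_add_cancel] at this
    rw [this, hg]
  have hshift2 : ∫ t in (0 : ℝ)..(2 * Real.pi), ‖g (θ - t)‖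
      = ∫ t in (0 : ℝ)..(2 * Real.pi), ‖g t‖ := by
    rw [intervalIntegral.integral_comp_sub_left (fun t => ‖g t‖) θ, sub_zero]
    have hgp' : Function.Periodic (fun t => ‖g t‖) (2 * Real.pi) := fun x => by
      show ‖g (x + 2 * Real.pi)‖ = ‖g x‖
      rw [hgp x]
    have := hgp'.intervalIntegral_add_eq (θ - 2 * Real.pi) 0
    rw [zero_add, sub_add_cancel] at this
    exact this
  have h2 : ∫ t in (0 : ℝ)..(2 * Real.pi), bb (n + 1) s t * g (θ - t)
      = ∫ t in (0 : ℝ)..(2 * Real.pi), (bb (n + 1) s t - AA (n + 1) s 0) * g (θ - t) := by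
    have h3 : ∀ t, (bb (n + 1) s t - AA (n + 1) s 0) * g (θ - t)
        = bb (n + 1) s t * g (θ - t) - AA (n + 1) s 0 * g (θ - t) := fun t => by ring
    simp_rw [h3]
    rw [intervalIntegral.integral_sub, intervalIntegral.integral_const_mul, hshift, mul_zero,
      sub_zero]
    · exact ((bb_cont _ s).mul hgc').intervalIntegrable _ _
    · exact (continuous_const.mul hgc').intervalIntegrable _ _
  rw [h1, h2]
  refine (norm_add_le _ _).trans (add_le_add le_rfl ?_)
  rw [norm_mul]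
  have h4 : ‖(2 * (Real.sin (2 * Real.pi * s) : ℂ))⁻¹‖ = (2 * Real.sin (2 * Real.pi * s))⁻¹ := by
    rw [norm_inv, norm_mul, Complex.norm_real, Real.norm_of_nonneg hsin.le]
    simp
  rw [h4]
  have h5 : ‖∫ t in (0 : ℝ)..(2 * Real.pi), (bb (n + 1) s t - AA (n + 1) s 0) * g (θ - t)‖
      ≤ (4 * s * (n + 1) * (Real.pi + (1 + Real.log (n + 1))))
        * ∫ t in (0 : ℝ)..(2 * Real.pi), ‖g t‖ := by
    rw [← hshift2, ← intervalIntegral.integral_const_mul]
    apply intervalIntegral.norm_integral_le_of_norm_le (by positivity)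
    · refine Filter.Eventually.of_forall fun t ht => ?_
      rw [norm_mul]
      apply mul_le_mul_of_nonneg_right _ (norm_nonneg _)
      exact (bb_bound n s hs0 hs2 ht.1.le ht.2).trans (AA_bound n s hs0 hs2)
    · exact (continuous_const.mul hgc'.norm).intervalIntegrable _ _
  calc (2 * Real.sin (2 * Real.pi * s))⁻¹ * ‖∫ t in (0 : ℝ)..(2 * Real.pi),
        (bb (n + 1) s t - AA (n + 1) s 0) * g (θ - t)‖
      ≤ (2 * Real.sin (2 * Real.pi * s))⁻¹ * ((4 * s * (n + 1) * (Real.pi + (1 + Real.log (n + 1))))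
        * ∫ t in (0 : ℝ)..(2 * Real.pi), ‖g t‖) := by gcongr
    _ = _ := by
      field_simp
      ring

end Pool.Agent.D0H14.BA
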