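import Mathlib
import Pool.Agent.D0H14.BA.Circ

/-! The sharp inequality on the circle, second part. -/

set_option autoImplicit false

open Polynomial Finset MeasureTheory

namespace Pool.Agent.D0H14.BA

/-- normalised measure on the circle -/
noncomputable def mu : Measure ℝ :=
  (ENNReal.ofReal (2 * Real.pi))⁻¹ • volume.restrict (Set.Ioc 0 (2 * Real.pi))

theorem mu_prob : IsProbabilityMeasure mu := by
  constructor
  rw [mu, Measure.smul_apply, Measure.restrict_apply_univ, Real.volume_Ioc, sub_zero, smul_eq_mul]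
  apply ENNReal.inv_mul_cancel
  · simpa using Real.pi_pos
  · exact ENNReal.ofReal_ne_top

theorem int_mu {E : Type*} [NormedAddCommGroup E] [NormedSpace ℝ E] (f : ℝ → E) :
    ∫ θ, f θ ∂mu = (2 * Real.pi)⁻¹ • ∫ θ in (0 : ℝ)..(2 * Real.pi), f θ := by
  rw [mu, integral_smul_measure, intervalIntegral.integral_of_le (by positivity),
    ENNReal.toReal_inv, ENNReal.toReal_ofReal (by positivity)]

theorem per_bdd {f : ℝ → ℂ} (hf : Continuous f) (hp : Function.Periodic f (2 * Real.pi)) :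
    ∃ B : ℝ, ∀ x, ‖f x‖ ≤ B := by
  obtain ⟨B, hB⟩ := isCompact_Icc.exists_bound_of_continuousOn
    (s := Set.Icc (0 : ℝ) (2 * Real.pi)) hf.continuousOn
  refine ⟨B, fun x => ?_⟩
  obtain ⟨y, hy, hxy⟩ := hp.exists_mem_Ico₀ Real.two_pi_pos x
  rw [hxy]
  exact hB y ⟨hy.1, hy.2.le⟩

theorem per_zero {f : ℝ → ℂ} (hf : Continuous f) (hp : Function.Periodic f (2 * Real.pi))
    (h0 : ∫ θ, ‖f θ‖ ∂mu = 0) (x : ℝ) : f x = 0 := by
  rw [int_mu, smul_eq_mul] at h0
  have h1 : ∫ θ in (0 : ℝ)..(2 * Real.pi), ‖f θ‖ = 0 := by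
    rcases mul_eq_zero.mp h0 with h | h
    · exact absurd h (by positivity)
    · exact h
  by_contra hx
  have hgp : Function.Periodic (fun t => ‖f t‖) (2 * Real.pi) := fun x => by
    show ‖f (x + 2 * Real.pi)‖ = ‖f x‖
    rw [hp x]
  have h2 := hgp.intervalIntegral_add_eq 0 x
  rw [zero_add] at h2
  rw [h2] at h1
  have h3 : 0 < ∫ θ in x..(x + 2 * Real.pi), ‖f θ‖ := by
    apply intervalIntegral.integral_pos
    · linarith [Real.two_pi_pos]
    · exact hf.norm.continuousOn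
    · intro t _; positivity
    · exact ⟨x, ⟨le_rfl, by linarith [Real.two_pi_pos]⟩, by simpa using hx⟩
  linarith

theorem one_lagrange (n : ℕ) (s : ℝ) (hn : 1 ≤ n) :
    (1 : ℝ[X]) = ∑ l ∈ range n, C (1 / (PL n s l).eval (-(cc s l))) * PL n s l := by
  refine eq_of_degrees_lt_of_eval_index_eq (v := fun l : ℕ => -(cc s l)) (range n) ?_ ?_ ?_ ?_
  · intro i _ j _ h
    simp only [cc, neg_inj] at h
    have : (i : ℝ) = j := by linarith
    exact_mod_cast this
  · rw [card_range, degree_one]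
    exact_mod_cast hn
  · rw [card_range]
    refine lt_of_le_of_lt (degree_sum_le _ _) ?_
    rw [Finset.sup_lt_iff (by exact_mod_cast WithBot.bot_lt_coe n)]
    intro l hl
    refine lt_of_le_of_lt (b := (PL n s l).degree) ?_ ?_
    · refine (degree_mul_le _ _).trans ?_
      calc (C (1 / (PL n s l).eval (-(cc s l)))).degree + (PL n s l).degree
          ≤ 0 + (PL n s l).degree := by
            gcongr
            exact degree_C_le
        _ = _ := zero_add _
    rw [degree_eq_natDegree (PL_monic n s l).ne_zero, PL_deg n s l (mem_range.mp hl)]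
    exact_mod_cast (by omega : n - 1 < n)
  · intro k hk
    have hk' := mem_range.mp hk
    rw [eval_one, eval_finsetSum, sum_eq_single k]
    · rw [eval_mul, eval_C, div_mul_cancel₀ _ (PL_eval_ne n s k)]
    · intro l _ hlk
      rw [eval_mul, PL_eval_zero n s l k hk' hlk, mul_zero]
    · intro h; exact absurd hk h

theorem op_one (n : ℕ) (h : ℝ → ℂ) (θ : ℝ) : op n 1 h θ = h θ := by
  rw [op, sum_range_succ', sum_eq_zero]
  · simp
  · intro k _
    rw [coeff_one]
    simp

/-- injectivity of `P(D)` -/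
theorem inj {n : ℕ} (hn : 1 ≤ n) {h : ℝ → ℂ} (hh : ContDiff ℝ n h)
    (hp : Function.Periodic h (2 * Real.pi))
    (s : ℝ) (hs : Real.sin (2 * Real.pi * s) ≠ 0) (h0 : ∀ θ, op n (PP n s) h θ = 0) (θ : ℝ) :
    h θ = 0 := by
  rw [← op_one n h θ, one_lagrange n s hn, op_sum]
  apply sum_eq_zero
  intro l hl
  rw [op_C_mul]
  have h1 := op_PL hh hp s l (mem_range.mp hl) θ
  simp only [h0, mul_zero, intervalIntegral.integral_zero] at h1
  have h2 : (2 * (Real.sin (2 * Real.pi * s) : ℂ)) ≠ 0 := by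
    apply mul_ne_zero two_ne_zero
    exact_mod_cast hs
  rcases mul_eq_zero.mp h1.symm with h3 | h3
  · exact absurd h3 h2
  · rw [h3, mul_zero]

/-- the numbers -/
theorem size (n : ℕ) (p : ℝ) (hp : 1000 * (1 + Real.log (n + 1)) ^ 2 ≤ p) :
    1000 ≤ p ∧ 0 < K (n + 1) p ∧ p ≤ 101 / 100 * K (n + 1) p ∧
    0 < Real.sin (2 * Real.pi * (1 / p)) ∧
    ∃ M : ℝ, M = 2 * Real.pi * (2 * (1 / p) * (n + 1) * (Real.pi + (1 + Real.log (n + 1)))
        / Real.sin (2 * Real.pi * (1 / p))) ∧ 0 ≤ M ∧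
      p * M ≤ 9 * (1 + Real.log (n + 1)) * K (n + 1) p ∧ 1 + M < K (n + 1) p := by
  have hn : (0 : ℝ) ≤ n := by positivity
  have hlog : 0 ≤ Real.log ((n : ℝ) + 1) := Real.log_nonneg (by linarith)
  set L := 1 + Real.log ((n : ℝ) + 1) with hL
  have hL1 : 1 ≤ L := by linarith
  have hp1 : 1000 ≤ p := by nlinarith
  have hp0 : 0 < p := by linarith
  have hpi := Real.pi_pos
  have hpi3 := Real.pi_gt_three
  have hpi4 := Real.pi_lt_d2
  have hK := K_lower n p (by linarith)
  rw [← hL] at hK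
  have hs : 1 / p ≤ 1 / 1000 := by gcongr
  have hs0 : 0 < 1 / p := by positivity
  have hLp : 2 / p * L ≤ 1 / 500 := by
    rw [div_mul_eq_mul_div, div_le_div_iff₀ hp0 (by norm_num)]
    nlinarith
  have hK2 : 0.997 * ((n + 1) * p) ≤ K (n + 1) p := by
    refine le_trans ?_ hK
    have h1 : 0.999 * ((n : ℝ) + 1) ≤ (n : ℝ) + 1 - 1 / p := by linarith
    have h2 : 0.998 ≤ 1 - 2 / p * L := by linarith
    have h0 : 0 ≤ ((n : ℝ) + 1 - 1 / p) * p := mul_nonneg (by linarith) hp0.le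
    calc 0.997 * ((n + 1) * p) ≤ (0.999 * ((n : ℝ) + 1)) * p * 0.998 := by
          have : 0 < ((n : ℝ) + 1) * p := by positivity
          linarith
      _ ≤ ((n : ℝ) + 1 - 1 / p) * p * (1 - 2 / p * L) := by gcongr
  have hnp : 0 < ((n : ℝ) + 1) * p := by positivity
  have hK0 : 0 < K (n + 1) p := by linarith
  have hx0 : 0 < 2 * Real.pi * (1 / p) := by positivity
  have hx1 : 2 * Real.pi * (1 / p) ≤ 1 / 100 := by
    calc 2 * Real.pi * (1 / p) ≤ 2 * 3.15 * (1 / 1000) := by gcongr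
      _ ≤ 1 / 100 := by norm_num
  have hsin : 0.999 * (2 * Real.pi * (1 / p)) ≤ Real.sin (2 * Real.pi * (1 / p)) := by
    have h1 := Real.sin_gt_sub_cube hx0
    have h2 : (2 * Real.pi * (1 / p)) ^ 3 / 6 ≤ 0.001 * (2 * Real.pi * (1 / p)) := by
      have h3 : (2 * Real.pi * (1 / p)) ^ 2 ≤ (1 / 100) ^ 2 := by gcongr
      nlinarith
    linarith
  have hsin0 : 0 < Real.sin (2 * Real.pi * (1 / p)) := by
    have : 0 < 0.999 * (2 * Real.pi * (1 / p)) := by positivity
    linarith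
  refine ⟨hp1, hK0, ?_, hsin0, _, rfl, by positivity, ?_, ?_⟩
  · nlinarith
  · have h1 : 2 * Real.pi * (2 * (1 / p) * (n + 1) * (Real.pi + L)
        / Real.sin (2 * Real.pi * (1 / p))) ≤ 2.01 * (n + 1) * (Real.pi + L) := by
      rw [← mul_div_assoc, div_le_iff₀ hsin0]
      calc 2 * Real.pi * (2 * (1 / p) * (n + 1) * (Real.pi + L))
          = 2 * ((n + 1) * (Real.pi + L)) * (2 * Real.pi * (1 / p)) := by ring
        _ ≤ 2.01 * 0.999 * ((n + 1) * (Real.pi + L)) * (2 * Real.pi * (1 / p)) := by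
            gcongr
            norm_num
        _ = 2.01 * (n + 1) * (Real.pi + L) * (0.999 * (2 * Real.pi * (1 / p))) := by ring
        _ ≤ _ := by gcongr
    calc p * _ ≤ p * (2.01 * (n + 1) * (Real.pi + L)) := by gcongr
      _ = (2.01 * (Real.pi + L)) * ((n + 1) * p) := by ring
      _ ≤ (9 * 0.997 * L) * ((n + 1) * p) := by
          have h2 : 2.01 * (Real.pi + L) ≤ 9 * 0.997 * L := by nlinarith
          exact mul_le_mul_of_nonneg_right h2 hnp.le
      _ = 9 * L * (0.997 * ((n + 1) * p)) := by ring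
      _ ≤ _ := by gcongr
  · have h1 : 2 * Real.pi * (2 * (1 / p) * (n + 1) * (Real.pi + L)
        / Real.sin (2 * Real.pi * (1 / p))) ≤ 2.01 * (n + 1) * (Real.pi + L) := by
      rw [← mul_div_assoc, div_le_iff₀ hsin0]
      calc 2 * Real.pi * (2 * (1 / p) * (n + 1) * (Real.pi + L))
          = 2 * ((n + 1) * (Real.pi + L)) * (2 * Real.pi * (1 / p)) := by ring
        _ ≤ 2.01 * 0.999 * ((n + 1) * (Real.pi + L)) * (2 * Real.pi * (1 / p)) := by
            gcongr
            norm_num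
        _ = 2.01 * (n + 1) * (Real.pi + L) * (0.999 * (2 * Real.pi * (1 / p))) := by ring
        _ ≤ _ := by gcongr
    have h2 : 2.01 * (n + 1) * (Real.pi + L) ≤ 10 * L * (n + 1) := by
      have : 2.01 * (Real.pi + L) ≤ 10 * L := by nlinarith
      calc 2.01 * (n + 1) * (Real.pi + L) = 2.01 * (Real.pi + L) * (n + 1) := by ring
        _ ≤ _ := by gcongr
    have h3 : 1000 * L ≤ p := by nlinarith
    have h4 : 10 * L * ((n : ℝ) + 1) ≤ 0.01 * ((n + 1) * p) := by
      have : 10 * L ≤ 0.01 * p := by linarith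
      calc 10 * L * ((n : ℝ) + 1) ≤ 0.01 * p * (n + 1) := by gcongr
        _ = _ := by ring
    have h5 : 1000 ≤ ((n : ℝ) + 1) * p := by nlinarith
    linarith

end Pool.Agent.D0H14.BA
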