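import Mathlib
import Pool.Agent.D0H14.BA.Circ2

/-! The sharp inequality on the circle, third part. -/

set_option autoImplicit false

open Polynomial Finset MeasureTheory

namespace Pool.Agent.D0H14.BA

theorem op_const (n : ℕ) (F : ℝ[X]) (a : ℂ) (θ : ℝ) :
    op n F (fun _ => a) θ = (F.eval 0 : ℝ) * a := by
  rw [op_sub_const (fun _ => a) F a θ]
  simp only [sub_self]
  have : op n F (fun _ => (0 : ℂ)) θ = 0 := by
    rw [op]
    apply sum_eq_zero
    intro k _
    rw [iteratedDeriv_fun_const_zero, mul_zero]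
  rw [this, add_zero]

theorem circle {n : ℕ} {h : ℝ → ℂ} (hh : ContDiff ℝ (n + 1 : ℕ) h)
    (hper : Function.Periodic h (2 * Real.pi)) {p : ℝ}
    (hp : 1000 * (1 + Real.log (n + 1)) ^ 2 ≤ p) :
    (∃ a : ℂ, ∀ θ, h θ = a) ∨
    ∫ θ in (0 : ℝ)..(2 * Real.pi), ‖op (n + 1) (QQ (n + 1) (1 / p)) h θ‖ ^ p
      < K (n + 1) p ^ p *
        ∫ θ in (0 : ℝ)..(2 * Real.pi), ‖op (n + 1) (PP (n + 1) (1 / p)) h θ‖ ^ p := by
  obtain ⟨hp1, hK0, hpK, hsin, M, hM, hM0, hpM, hMK⟩ := size n p hp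
  have hp0 : 0 < p := by linarith
  haveI := mu_prob
  have hpi := Real.two_pi_pos
  set s := 1 / p with hs
  have hs0 : 0 < s := by positivity
  have hs2 : s < 1 / 2 := by rw [hs]; gcongr; linarith
  obtain ⟨a, ha⟩ : ∃ a : ℂ, a = (2 * Real.pi : ℝ)⁻¹ • ∫ θ in (0 : ℝ)..(2 * Real.pi), h θ := ⟨_, rfl⟩
  obtain ⟨h1, hh1⟩ : ∃ h1 : ℝ → ℂ, h1 = fun θ => h θ - a := ⟨_, rfl⟩
  have c1 : ContDiff ℝ (n + 1 : ℕ) h1 := by rw [hh1]; exact hh.sub contDiff_const
  have p1 : Function.Periodic h1 (2 * Real.pi) := by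
    intro x
    rw [hh1]
    show h (x + 2 * Real.pi) - a = h x - a
    rw [hper x]
  have i1 : ∫ θ in (0 : ℝ)..(2 * Real.pi), h1 θ = 0 := by
    rw [hh1, intervalIntegral.integral_sub (hh.continuous.intervalIntegrable _ _)
      (continuous_const.intervalIntegrable _ _), intervalIntegral.integral_const, ha, smul_smul,
      sub_zero, mul_inv_cancel₀ hpi.ne', one_smul, sub_self]
  obtain ⟨x, hx⟩ : ∃ x, x = op (n + 1) (PP (n + 1) s) h1 := ⟨_, rfl⟩
  obtain ⟨y, hy⟩ : ∃ y, y = op (n + 1) (QQ (n + 1) s) h1 := ⟨_, rfl⟩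
  have xc : Continuous x := by rw [hx]; exact op_cont c1 _
  have yc : Continuous y := by rw [hy]; exact op_cont c1 _
  have xp : Function.Periodic x (2 * Real.pi) := by rw [hx]; exact op_periodic p1 _
  have yp : Function.Periodic y (2 * Real.pi) := by rw [hy]; exact op_periodic p1 _
  have xi : ∫ θ in (0 : ℝ)..(2 * Real.pi), x θ = 0 := by
    rw [hx, op_integral c1 p1, i1, mul_zero]
  have yi : ∫ θ in (0 : ℝ)..(2 * Real.pi), y θ = 0 := by
    rw [hy, op_integral c1 p1, i1, mul_zero]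
  obtain ⟨m, hm⟩ : ∃ m, m = ∫ θ, ‖x θ‖ ∂mu := ⟨_, rfl⟩
  have hpt : ∀ θ, ‖y θ‖ ≤ ‖x θ‖ + M * m := by
    intro θ
    have h2 := pointwise c1 p1 s hs0 hs2 (by rw [← hx]; exact xi) θ
    rw [← hx, ← hy] at h2
    refine h2.trans (le_of_eq ?_)
    rw [hm, int_mu, hM, smul_eq_mul]
    field_simp
  have hm0 : 0 ≤ m := by rw [hm]; exact integral_nonneg fun θ => norm_nonneg _
  have hg : ∀ θ, op (n + 1) (PP (n + 1) s) h θ = ((PP (n + 1) s).eval 0 : ℝ) * a + x θ := by
    intro θ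
    rw [op_sub_const h _ a θ, hx, hh1]
  have hH : ∀ θ, op (n + 1) (QQ (n + 1) s) h θ
      = K (n + 1) p * (((PP (n + 1) s).eval 0 : ℝ) * a) + y θ := by
    intro θ
    rw [op_sub_const h _ a θ, hy, hh1, K_mul _ _ hp0]
    push_cast
    ring
  rcases eq_or_lt_of_le hm0 with hm1 | hm1
  · left
    refine ⟨a, fun θ => ?_⟩
    have h2 : ∀ θ, x θ = 0 := per_zero xc xp (by rw [← hm, ← hm1])
    have h3 := inj (n := n + 1) (by omega) c1 p1 s hsin.ne' (fun θ => by rw [← hx]; exact h2 θ) θ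
    rw [hh1] at h3
    exact sub_eq_zero.mp h3
  right
  obtain ⟨B, hB⟩ := per_bdd xc xp
  obtain ⟨B', hB'⟩ := per_bdd yc yp
  have hP0 := PP_zero_pos (n + 1) s hs0
  simp_rw [hg, hH]
  -- reduce to the normalised measure
  have key : ∫ θ, ‖(K (n + 1) p : ℂ) * (((PP (n + 1) s).eval 0 : ℝ) * a) + y θ‖ ^ p ∂mu
      < K (n + 1) p ^ p * ∫ θ, ‖(((PP (n + 1) s).eval 0 : ℝ) : ℂ) * a + x θ‖ ^ p ∂mu := by
    by_cases ha0 : a = 0
    · rw [ha0]
      simp only [mul_zero, zero_add]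
      have mx : AEStronglyMeasurable x mu := xc.aestronglyMeasurable
      have my : AEStronglyMeasurable y mu := yc.aestronglyMeasurable
      have hq1 : (1 : ENNReal) ≤ ENNReal.ofReal p := by
        rw [← ENNReal.ofReal_one]
        exact ENNReal.ofReal_le_ofReal (by linarith)
      obtain ⟨N, hN⟩ : ∃ N, N = lpNorm x (ENNReal.ofReal p) mu := ⟨_, rfl⟩
      have hmN : m ≤ N := by
        rw [hN, hm, ← lpNorm_one_eq_integral_norm mx, ← toReal_eLpNorm mx, ← toReal_eLpNorm mx]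
        exact ENNReal.toReal_mono (memLp_of mx hB _).2.ne (eLpNorm_le_eLpNorm_of_exponent_le hq1 mx)
      have hyN : lpNorm y (ENNReal.ofReal p) mu ≤ N + M * m := by
        have g1 : MemLp (fun _ : ℝ => M * m) (ENNReal.ofReal p) mu := memLp_const _
        have g2 : MemLp (fun θ : ℝ => ‖x θ‖) (ENNReal.ofReal p) mu := (memLp_of mx hB _).norm
        have h2 := lpNorm_mono_real (μ := mu) (p := ENNReal.ofReal p) (f := y)
          (g := (fun θ : ℝ => ‖x θ‖) + fun _ : ℝ => M * m) (g2.add g1) (fun θ => hpt θ)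
        have h3 := lpNorm_add_le (μ := mu) (p := ENNReal.ofReal p) (f := fun θ : ℝ => ‖x θ‖)
          (g := fun _ : ℝ => M * m) g2 hq1
        have e1 : lpNorm (fun _ : ℝ => M * m) (ENNReal.ofReal p) mu = M * m := by
          rw [lpNorm_const (by simpa using hp0) (IsProbabilityMeasure.ne_zero mu)]
          simp [abs_of_nonneg hM0, abs_of_nonneg hm0]
        rw [lpNorm_norm mx, ← hN, e1] at h3
        linarith
      have hyK : lpNorm y (ENNReal.ofReal p) mu < K (n + 1) p * N := by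
        have hN0 : 0 < N := by linarith
        have h2 : M * m ≤ M * N := by gcongr
        nlinarith
      rw [hN, lp_eq mx hp0, lp_eq my hp0] at hyK
      have h4 : (0 : ℝ) ≤ ∫ θ, ‖y θ‖ ^ p ∂mu := integral_nonneg fun θ => by positivity
      have h5 : (0 : ℝ) ≤ ∫ θ, ‖x θ‖ ^ p ∂mu := integral_nonneg fun θ => by positivity
      have h6 : K (n + 1) p * (∫ θ, ‖x θ‖ ^ p ∂mu) ^ p⁻¹
          = (K (n + 1) p ^ p * ∫ θ, ‖x θ‖ ^ p ∂mu) ^ p⁻¹ := by
        rw [Real.mul_rpow (by positivity) h5, ← Real.rpow_mul hK0.le, mul_inv_cancel₀ hp0.ne',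
          Real.rpow_one]
      rw [h6] at hyK
      exact (Real.rpow_lt_rpow_iff h4 (by positivity) (by positivity)).mp hyK
    · obtain ⟨A, hA⟩ : ∃ A : ℂ, A = (((PP (n + 1) s).eval 0 : ℝ) : ℂ) * a := ⟨_, rfl⟩
      have hA0 : A ≠ 0 := by
        rw [hA]
        exact mul_ne_zero (by exact_mod_cast hP0.ne') ha0
      have hKc : (K (n + 1) p : ℂ) ≠ 0 := by exact_mod_cast hK0.ne'
      have hA' : 0 < ‖A‖ := norm_pos_iff.mpr hA0
      rw [← hA]
      have h2 := prob (μ := mu) (X := fun θ => x θ / A) (Y := fun θ => y θ / (K (n + 1) p * A))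
        (B := B / ‖A‖) (p := p) (Λ := 9 * (1 + Real.log (n + 1)))
        (xc.div_const _).aestronglyMeasurable (yc.div_const _).aestronglyMeasurable ?_ ?_ ?_ ?_ ?_
        ?_ ?_
      · have e1 : ∀ θ, ‖1 + y θ / (K (n + 1) p * A)‖ ^ p
            = ‖(K (n + 1) p : ℂ) * A + y θ‖ ^ p / (K (n + 1) p * ‖A‖) ^ p := by
          intro θ
          rw [← Real.div_rpow (norm_nonneg _) (by positivity)]
          congr 1
          rw [eq_div_iff (by positivity)]
          have : K (n + 1) p * ‖A‖ = ‖(K (n + 1) p : ℂ) * A‖ := by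
            rw [norm_mul, Complex.norm_real, Real.norm_of_nonneg hK0.le]
          rw [this, ← norm_mul]
          congr 1
          field_simp
        have e2 : ∀ θ, ‖1 + x θ / A‖ ^ p = ‖A + x θ‖ ^ p / ‖A‖ ^ p := by
          intro θ
          rw [← Real.div_rpow (norm_nonneg _) (by positivity)]
          congr 1
          rw [eq_div_iff (by positivity), ← norm_mul]
          congr 1
          field_simp
        simp_rw [e1, e2] at h2
        rw [integral_div, integral_div, Real.mul_rpow hK0.le hA'.le] at h2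
        have hKp : 0 < K (n + 1) p ^ p := by positivity
        have hAp : 0 < ‖A‖ ^ p := by positivity
        rw [div_lt_div_iff₀ (by positivity) hAp] at h2
        have h3 : (∫ θ, ‖(K (n + 1) p : ℂ) * A + y θ‖ ^ p ∂mu) * ‖A‖ ^ p
            < (K (n + 1) p ^ p * ∫ θ, ‖A + x θ‖ ^ p ∂mu) * ‖A‖ ^ p := by
          refine h2.trans_le (le_of_eq ?_)
          ring
        exact lt_of_mul_lt_mul_right h3 hAp.le
      · intro θ
        rw [norm_div]
        gcongr
        exact hB θ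
      · rw [integral_div, int_mu, xi]; simp
      · rw [integral_div, int_mu, yi]; simp
      · have : 0 ≤ Real.log ((n : ℝ) + 1) := Real.log_nonneg (by
          have : (0 : ℝ) ≤ n := by positivity
          linarith)
        linarith
      · nlinarith
      · intro θ
        have e3 : ∫ θ, ‖x θ / A‖ ∂mu = m / ‖A‖ := by
          simp_rw [norm_div]
          rw [integral_div, hm]
        rw [e3, norm_div, norm_div, norm_mul, Complex.norm_real, Real.norm_of_nonneg hK0.le]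
        rw [← mul_div_assoc, ← mul_div_assoc, ← mul_div_assoc, ← add_div,
          div_le_div_iff₀ (by positivity) hA']
        have h3 : p * ‖y θ‖ ≤ (101 / 100 * ‖x θ‖ + 9 * (1 + Real.log (n + 1)) * m)
            * K (n + 1) p := by
          calc p * ‖y θ‖ ≤ p * (‖x θ‖ + M * m) := by gcongr; exact hpt θ
            _ = p * ‖x θ‖ + (p * M) * m := by ring
            _ ≤ (101 / 100 * K (n + 1) p) * ‖x θ‖
                + (9 * (1 + Real.log (n + 1)) * K (n + 1) p) * m := by gcongr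
            _ = _ := by ring
        calc p * ‖y θ‖ * ‖A‖ ≤ (101 / 100 * ‖x θ‖ + 9 * (1 + Real.log (n + 1)) * m)
            * K (n + 1) p * ‖A‖ := by gcongr
          _ = _ := by ring
      · have e3 : ∫ θ, ‖x θ / A‖ ∂mu = m / ‖A‖ := by
          simp_rw [norm_div]
          rw [integral_div, hm]
        rw [e3]
        positivity
  rw [int_mu, int_mu, smul_eq_mul, smul_eq_mul] at key
  have h7 : (2 * Real.pi)⁻¹ * ∫ θ in (0 : ℝ)..(2 * Real.pi),
      ‖(K (n + 1) p : ℂ) * (((PP (n + 1) s).eval 0 : ℝ) * a) + y θ‖ ^ p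
      < (2 * Real.pi)⁻¹ * (K (n + 1) p ^ p * ∫ θ in (0 : ℝ)..(2 * Real.pi),
        ‖(((PP (n + 1) s).eval 0 : ℝ) : ℂ) * a + x θ‖ ^ p) := by
    refine key.trans_le (le_of_eq ?_)
    ring
  exact lt_of_mul_lt_mul_left h7 (by positivity)

/-- equality for constants -/
theorem circle_eq {n : ℕ} {p : ℝ} (hp : 0 < p) (hK : 0 ≤ K n p) (a : ℂ) :
    ∫ θ in (0 : ℝ)..(2 * Real.pi), ‖op n (QQ n (1 / p)) (fun _ => a) θ‖ ^ p
      = K n p ^ p *
        ∫ θ in (0 : ℝ)..(2 * Real.pi), ‖op n (PP n (1 / p)) (fun _ => a) θ‖ ^ p := by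
  rw [← intervalIntegral.integral_const_mul]
  congr 1
  funext θ
  rw [op_const, op_const, K_mul _ _ hp, ← Real.mul_rpow hK (norm_nonneg _)]
  congr 1
  rw [norm_mul, norm_mul, Complex.norm_real, Complex.norm_real, norm_mul, Real.norm_of_nonneg hK]
  ring

end Pool.Agent.D0H14.BA
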