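import Mathlib
import Pool.Agent.D0H14.BA.Lag

/-! Recursion and square sum of the coefficients. -/

set_option autoImplicit false

open Polynomial Finset

namespace Pool.Agent.D0H14.BA

theorem QQ_rec (n : ℕ) (s : ℝ) (l : ℕ) :
    (QQ n s).eval (-(cc s (l + 1))) * (2 * ((n : ℝ) - l) - 4 * s)
      = (QQ n s).eval (-(cc s l)) * (-(2 * (l : ℝ)) - 4 * s) := by
  have e1 : (QQ n s).eval (-(cc s (l + 1))) = ∏ j ∈ range n, (2 * ((j : ℝ) - l) - 4 * s) := by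
    rw [QQ, eval_prod]
    apply prod_congr rfl
    intro j _
    rw [eval_add, eval_X, eval_C, cc]
    push_cast
    ring
  have e2 : (QQ n s).eval (-(cc s l)) = ∏ j ∈ range n, (2 * (((j + 1 : ℕ) : ℝ) - l) - 4 * s) := by
    rw [QQ, eval_prod]
    apply prod_congr rfl
    intro j _
    rw [eval_add, eval_X, eval_C, cc]
    push_cast
    ring
  have h1 := prod_range_succ (fun j : ℕ => (2 * ((j : ℝ) - l) - 4 * s)) n
  have h2 := prod_range_succ' (fun j : ℕ => (2 * ((j : ℝ) - l) - 4 * s)) n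
  rw [e1, e2, ← h1, h2]
  congr 1
  push_cast
  ring

theorem prod_erase_ite (S : Finset ℕ) (l : ℕ) (hl : l ∈ S) (g : ℕ → ℝ) :
    ∏ j ∈ S.erase l, g j = ∏ j ∈ S, (if j = l then 1 else g j) := by
  rw [← mul_prod_erase S _ hl, if_pos rfl, one_mul]
  apply prod_congr rfl
  intro j hj
  rw [if_neg (mem_erase.mp hj).1]

theorem PL_rec (n : ℕ) (s : ℝ) (l : ℕ) (hl : l < n) :
    (PL (n + 1) s (l + 1)).eval (-(cc s (l + 1))) * (2 * ((n : ℝ) - l))
      = (PL (n + 1) s l).eval (-(cc s l)) * (-(2 * ((l : ℝ) + 1))) := by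
  rw [PL_eval, PL_eval, prod_erase_ite _ _ (mem_range.mpr (by omega)),
    prod_erase_ite _ _ (mem_range.mpr (by omega)), prod_range_succ', prod_range_succ _ n]
  rw [if_neg (by omega), if_neg (by omega)]
  have e : ∏ k ∈ range n, (if k + 1 = l + 1 then (1 : ℝ) else -cc s (l + 1) + cc s (k + 1))
      = ∏ k ∈ range n, (if k = l then (1 : ℝ) else -cc s l + cc s k) := by
    apply prod_congr rfl
    intro k _
    by_cases h : k = l
    · rw [if_pos h, if_pos (by omega)]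
    · rw [if_neg h, if_neg (by omega), cc, cc, cc, cc]
      push_cast
      ring
  rw [e, cc, cc, cc, cc]
  push_cast
  ring

theorem AA_rec (n : ℕ) (s : ℝ) (hs : 0 < s) (hs2 : s < 1 / 2) (l : ℕ) (hl : l < n) :
    AA (n + 1) s (l + 1) * (((l : ℝ) + 1) * (n + 1 - l - 2 * s))
      = AA (n + 1) s l * ((l + 2 * s) * (n - l)) := by
  have h1 := QQ_rec (n + 1) s l
  have h2 := PL_rec n s l hl
  have h3 := PL_eval_ne (n + 1) s l
  have h4 := PL_eval_ne (n + 1) s (l + 1)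
  rw [AA, AA]
  obtain ⟨a, ha⟩ : ∃ a, a = (QQ (n + 1) s).eval (-(cc s (l + 1))) := ⟨_, rfl⟩
  obtain ⟨b, hb⟩ : ∃ b, b = (QQ (n + 1) s).eval (-(cc s l)) := ⟨_, rfl⟩
  obtain ⟨c, hc⟩ : ∃ c, c = (PL (n + 1) s (l + 1)).eval (-(cc s (l + 1))) := ⟨_, rfl⟩
  obtain ⟨d, hd⟩ : ∃ d, d = (PL (n + 1) s l).eval (-(cc s l)) := ⟨_, rfl⟩
  rw [← ha, ← hb] at h1
  rw [← hc, ← hd] at h2
  rw [← hd] at h3
  rw [← hc] at h4
  rw [← ha, ← hb, ← hc, ← hd]
  push_cast at h1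
  have hln : (l : ℝ) + 1 ≤ n := by exact_mod_cast hl
  have hnl : (n : ℝ) - l ≠ 0 := by
    have : 0 < (n : ℝ) - l := by linarith
    exact this.ne'
  have hc' : c = d * (-(2 * ((l : ℝ) + 1))) / (2 * ((n : ℝ) - l)) := by
    rw [eq_div_iff (by simpa using hnl)]
    exact h2
  have hden : 2 * ((n : ℝ) + 1 - l) - 4 * s ≠ 0 := by
    have : 0 < 2 * ((n : ℝ) + 1 - l) - 4 * s := by linarith
    exact this.ne'
  have ha' : a = b * (-(2 * (l : ℝ)) - 4 * s) / (2 * ((n : ℝ) + 1 - l) - 4 * s) := by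
    rw [eq_div_iff hden]
    exact h1
  have hl1 : (l : ℝ) + 1 ≠ 0 := by positivity
  have hden2 : (n : ℝ) + 1 - l - 2 * s ≠ 0 := by
    have : 0 < (n : ℝ) + 1 - l - 2 * s := by linarith
    exact this.ne'
  have e2 : 2 * ((n : ℝ) + 1 - l) - 4 * s = 2 * ((n : ℝ) + 1 - l - 2 * s) := by ring
  rw [ha', hc', e2]
  field_simp
  ring

theorem AA_one_le (n : ℕ) (s : ℝ) (hs : 0 < s) (hs2 : s < 1 / 2) (hn : 0 < n) :
    AA (n + 1) s 1 ≤ 2 * s * AA (n + 1) s 0 := by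
  have h := AA_rec n s hs hs2 0 hn
  have h0 := AA_nonneg (n + 1) s hs hs2 0 (by omega)
  have hn1 : (1 : ℝ) ≤ n := by exact_mod_cast hn
  have h1 : AA (n + 1) s 1 * (n + 1 - 2 * s) = AA (n + 1) s 0 * (2 * s * n) := by
    have := h
    push_cast at this
    simp only [zero_add] at this
    linarith
  have h2 : AA (n + 1) s 1 * (n + 1 - 2 * s) ≤ 2 * s * AA (n + 1) s 0 * (n + 1 - 2 * s) := by
    rw [h1]
    have : 2 * s * AA (n + 1) s 0 * (n + 1 - 2 * s) - AA (n + 1) s 0 * (2 * s * n)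
        = 2 * s * AA (n + 1) s 0 * (1 - 2 * s) := by ring
    have h3 : 0 ≤ 2 * s * AA (n + 1) s 0 * (1 - 2 * s) :=
      mul_nonneg (by positivity) (by linarith)
    linarith
  exact le_of_mul_le_mul_right h2 (by linarith)

theorem AA_step (n : ℕ) (s : ℝ) (hs : 0 < s) (hs2 : s < 1 / 2) (l : ℕ) (hl : l < n) :
    AA (n + 1) s (l + 1) * ((l : ℝ) + 1) ≤ AA (n + 1) s l * (l + 2 * s) := by
  have h := AA_rec n s hs hs2 l hl
  have h0 := AA_nonneg (n + 1) s hs hs2 l (by omega)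
  have hln : (l : ℝ) + 1 ≤ n := by exact_mod_cast hl
  have h2 : AA (n + 1) s (l + 1) * ((l : ℝ) + 1) * (n + 1 - l - 2 * s)
      ≤ AA (n + 1) s l * (l + 2 * s) * (n + 1 - l - 2 * s) := by
    have e1 : AA (n + 1) s (l + 1) * ((l : ℝ) + 1) * (n + 1 - l - 2 * s)
        = AA (n + 1) s l * (l + 2 * s) * (n - l) := by linarith
    rw [e1]
    apply mul_le_mul_of_nonneg_left (by linarith) (by positivity)
  exact le_of_mul_le_mul_right h2 (by linarith)

theorem AA_sq_sum (n : ℕ) (s : ℝ) (hs : 0 < s) (hs2 : s ≤ 1 / 450) :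
    ∑ l ∈ range n, AA (n + 1) s (l + 1) ^ 2 ≤ 8.08 * s ^ 2 * AA (n + 1) s 0 ^ 2 := by
  rcases Nat.eq_zero_or_pos n with hn | hn
  · subst hn
    simp
    positivity
  have hs3 : s < 1 / 2 := by linarith
  have hA1 : AA (n + 1) s 1 ^ 2 ≤ 4 * s ^ 2 * AA (n + 1) s 0 ^ 2 := by
    have h1 := AA_one_le n s hs hs3 hn
    have h2 := AA_nonneg (n + 1) s hs hs3 1 (by omega)
    calc AA (n + 1) s 1 ^ 2 ≤ (2 * s * AA (n + 1) s 0) ^ 2 := by gcongr
      _ = _ := by ring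
  have key : ∀ m : ℕ, m < n → ∑ l ∈ range m, AA (n + 1) s (l + 1) ^ 2
      + 2.02 * ((m : ℝ) + 1) * AA (n + 1) s (m + 1) ^ 2 ≤ 2.02 * AA (n + 1) s 1 ^ 2 := by
    intro m
    induction m with
    | zero => intro _; simp
    | succ m ih =>
      intro hm
      have h1 := ih (by omega)
      rw [sum_range_succ]
      have h2 := AA_step n s hs hs3 (m + 1) hm
      have h3 := AA_nonneg (n + 1) s hs hs3 (m + 1) (by omega)
      have h4 := AA_nonneg (n + 1) s hs hs3 (m + 1 + 1) (by omega)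
      push_cast at h2 ⊢
      have hm0 : (0 : ℝ) ≤ m := by positivity
      obtain ⟨A, hA⟩ : ∃ A, A = AA (n + 1) s (m + 1) := ⟨_, rfl⟩
      obtain ⟨B, hB⟩ : ∃ B, B = AA (n + 1) s (m + 1 + 1) := ⟨_, rfl⟩
      rw [← hA] at h2 h3 h1
      rw [← hB] at h2 h4
      rw [← hA, ← hB]
      have h5 : (B * ((m : ℝ) + 1 + 1)) ^ 2 ≤ (A * ((m : ℝ) + 1 + 2 * s)) ^ 2 := by gcongr
      have h6 : A ^ 2 + 2.02 * ((m : ℝ) + 1 + 1) * B ^ 2 ≤ 2.02 * ((m : ℝ) + 1) * A ^ 2 := by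
        have h7 : 2.02 * ((m : ℝ) + 1 + 1) * B ^ 2
            ≤ 2.02 * (A ^ 2 * ((m : ℝ) + 1 + 2 * s) ^ 2 / (m + 1 + 1)) := by
          rw [mul_assoc]
          gcongr
          rw [le_div_iff₀ (by positivity)]
          calc ((m : ℝ) + 1 + 1) * B ^ 2 * (m + 1 + 1) = (B * ((m : ℝ) + 1 + 1)) ^ 2 := by ring
            _ ≤ (A * ((m : ℝ) + 1 + 2 * s)) ^ 2 := h5
            _ = _ := by ring
        have h8 : ((m : ℝ) + 1 + 2 * s) ^ 2 / (m + 1 + 1) ≤ (m + 1) - 1 / 2.02 := by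
          rw [div_le_iff₀ (by positivity)]
          have : ((m : ℝ) + 1 + 2 * s) ^ 2 = (m + 1) ^ 2 + 4 * s * (m + 1) + 4 * s ^ 2 := by ring
          rw [this]
          have h9 : 4 * s * ((m : ℝ) + 1) ≤ 4 * (1 / 450) * (m + 1) := by gcongr
          have h10 : 4 * s ^ 2 ≤ 4 * (1 / 450) ^ 2 := by gcongr
          norm_num at h10 ⊢
          nlinarith
        have h11 : 2.02 * (A ^ 2 * ((m : ℝ) + 1 + 2 * s) ^ 2 / (m + 1 + 1))
            = 2.02 * A ^ 2 * (((m : ℝ) + 1 + 2 * s) ^ 2 / (m + 1 + 1)) := by ring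
        rw [h11] at h7
        have h12 : 2.02 * A ^ 2 * (((m : ℝ) + 1 + 2 * s) ^ 2 / (m + 1 + 1))
            ≤ 2.02 * A ^ 2 * ((m + 1) - 1 / 2.02) := by gcongr
        have h13 : 2.02 * A ^ 2 * (((m : ℝ) + 1) - 1 / 2.02)
            = 2.02 * ((m : ℝ) + 1) * A ^ 2 - A ^ 2 := by ring
        linarith
      linarith
  have h1 := key (n - 1) (by omega)
  have e : n = (n - 1) + 1 := by omega
  have h2 : ∑ l ∈ range n, AA (n + 1) s (l + 1) ^ 2
      = ∑ l ∈ range (n - 1), AA (n + 1) s (l + 1) ^ 2 + AA (n + 1) s (n - 1 + 1) ^ 2 := by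
    conv_lhs => rw [e, sum_range_succ]
    rw [← e]
  rw [h2]
  have h3 : AA (n + 1) s (n - 1 + 1) ^ 2
      ≤ 2.02 * (((n - 1 : ℕ) : ℝ) + 1) * AA (n + 1) s (n - 1 + 1) ^ 2 := by
    have h4 : 0 ≤ AA (n + 1) s (n - 1 + 1) ^ 2 := sq_nonneg _
    have h5 : (0 : ℝ) ≤ ((n - 1 : ℕ) : ℝ) := by positivity
    nlinarith
  linarith

theorem AA_zero_ge (n : ℕ) (s : ℝ) (hs : 0 < s) (hs2 : s ≤ 1 / 450) :
    2 - 4 * s ≤ AA (n + 1) s 0 := by
  rw [AA_zero]
  induction n with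
  | zero => simp
  | succ n ih =>
    refine ih.trans ?_
    rw [prod_range_succ]
    obtain ⟨-, h2, -⟩ := prod_lower n s hs (by linarith)
    have hn : (0 : ℝ) ≤ n := by positivity
    have h3 : 2 * ((n : ℝ) + 1) - 4 * s
        ≤ (2 * (((n + 1 : ℕ) : ℝ) + 1) - 4 * s) * (1 - 2 * s / ((n : ℝ) + 1)) := by
      push_cast
      have e : (2 * ((n : ℝ) + 1 + 1) - 4 * s) * (1 - 2 * s / ((n : ℝ) + 1))
          = (2 * ((n : ℝ) + 1 + 1) - 4 * s) * ((n : ℝ) + 1 - 2 * s) / (n + 1) := by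
        field_simp
      rw [e, le_div_iff₀ (by positivity)]
      nlinarith
    calc (2 * ((n : ℝ) + 1) - 4 * s) * ∏ j ∈ range n, (1 - 2 * s / ((j : ℝ) + 1))
        ≤ (2 * (((n + 1 : ℕ) : ℝ) + 1) - 4 * s) * (1 - 2 * s / ((n : ℝ) + 1))
          * ∏ j ∈ range n, (1 - 2 * s / ((j : ℝ) + 1)) := by gcongr
      _ = _ := by ring

/-- `K ≥ p A_0 / 2` -/
theorem K_ge (n : ℕ) (p : ℝ) (hp : 450 ≤ p) : p * AA (n + 1) (1 / p) 0 / 2 ≤ K (n + 1) p := by
  have hp0 : 0 < p := by linarith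
  obtain ⟨s, hs⟩ : ∃ s, s = 1 / p := ⟨_, rfl⟩
  have hs0 : 0 < s := by rw [hs]; positivity
  have hs2 : s < 1 / 2 := by rw [hs]; gcongr; linarith
  have h1 := congrArg (fun P : ℝ[X] => P.eval 0) (lagrange (n + 1) s (by omega))
  simp only [eval_add, eval_finsetSum, eval_mul, eval_C] at h1
  rw [hs, K_mul _ _ hp0, ← hs] at h1
  have hP := PP_zero_pos (n + 1) s hs0
  have h2 : ∀ l ∈ range (n + 1), AA (n + 1) s l * (PL (n + 1) s l).eval 0
      = AA (n + 1) s l / cc s l * (PP (n + 1) s).eval 0 := by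
    intro l hl
    have h3 := congrArg (fun P : ℝ[X] => P.eval 0) (PL_mul (n + 1) s l (mem_range.mp hl))
    simp only [eval_mul, eval_add, eval_X, eval_C, zero_add] at h3
    have hc : cc s l ≠ 0 := by
      have : 0 < cc s l := by rw [cc]; positivity
      exact this.ne'
    rw [← h3]
    field_simp
  rw [sum_congr rfl h2, ← sum_mul] at h1
  have h4 : K (n + 1) p = 1 + ∑ l ∈ range (n + 1), AA (n + 1) s l / cc s l := by
    have : K (n + 1) p * (PP (n + 1) s).eval 0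
        = (1 + ∑ l ∈ range (n + 1), AA (n + 1) s l / cc s l) * (PP (n + 1) s).eval 0 := by
      rw [h1]; ring
    exact mul_right_cancel₀ hP.ne' this
  rw [h4]
  have h5 : AA (n + 1) s 0 / cc s 0 ≤ ∑ l ∈ range (n + 1), AA (n + 1) s l / cc s l := by
    apply single_le_sum (f := fun l => AA (n + 1) s l / cc s l) (fun l hl => ?_)
      (mem_range.mpr (by omega))
    apply div_nonneg (AA_nonneg _ s hs0 hs2 l (mem_range.mp hl))
    rw [cc]; positivity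
  have h6 : AA (n + 1) s 0 / cc s 0 = p * AA (n + 1) s 0 / 2 := by
    rw [cc, hs]
    field_simp
    simp
  rw [hs] at h6 h5 ⊢
  linarith

end Pool.Agent.D0H14.BA
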