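import Mathlib

/-! A comparison of `p`-th moments of `1 + Y` and `1 + X` when `Y` is dominated by
`(1.01 ‖X‖ + 6.5 σ) / p`, `σ² = E‖X‖²`, and `p ≥ 450`. -/

set_option autoImplicit false

open MeasureTheory

namespace Pool.Agent.D0H14.BA.S

theorem exp_taylor {z R : ℝ} (hR : 0 < R) (hz : |z| ≤ R) :
    Real.exp z - 1 - z ≤ z ^ 2 * ((Real.exp R - 1 - R) / R ^ 2) := by
  have h1 : ∀ x : ℝ, HasSum (fun n : ℕ => x ^ (n + 2) / ((n + 2).factorial : ℝ))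
      (Real.exp x - 1 - x) := by
    intro x
    have h := NormedSpace.expSeries_div_hasSum_exp (𝔸 := ℝ) x
    have h' := (hasSum_nat_add_iff' 2).mpr h
    have e : NormedSpace.exp x - ∑ i ∈ Finset.range 2, x ^ i / (i.factorial : ℝ)
        = Real.exp x - 1 - x := by
      rw [Finset.sum_range_succ, Finset.sum_range_one, Real.exp_eq_exp_ℝ]
      simp
      ring
    rw [e] at h'
    exact h'
  have h2 := (h1 R).mul_left (z ^ 2 / R ^ 2)
  have h3 := hasSum_le (f := fun n : ℕ => z ^ (n + 2) / ((n + 2).factorial : ℝ)) ?_ (h1 z) h2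
  · calc Real.exp z - 1 - z ≤ z ^ 2 / R ^ 2 * (Real.exp R - 1 - R) := h3
      _ = _ := by ring
  · intro n
    have hf : (0 : ℝ) < ((n + 2).factorial : ℝ) := by positivity
    have ha : z ^ (n + 2) ≤ z ^ 2 * R ^ n := by
      calc z ^ (n + 2) ≤ |z ^ (n + 2)| := le_abs_self _
        _ = |z| ^ 2 * |z| ^ n := by rw [abs_pow]; ring
        _ ≤ |z| ^ 2 * R ^ n := by gcongr
        _ = z ^ 2 * R ^ n := by rw [sq_abs]
    have hb : z ^ 2 / R ^ 2 * (R ^ (n + 2) / ((n + 2).factorial : ℝ))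
        = z ^ 2 * R ^ n / ((n + 2).factorial : ℝ) := by
      field_simp
      ring
    rw [hb]
    gcongr

theorem sq_one_add (x : ℂ) : ‖1 + x‖ ^ 2 = 1 + (2 * x.re + ‖x‖ ^ 2) := by
  rw [Complex.sq_norm, Complex.sq_norm, Complex.normSq_apply, Complex.normSq_apply]
  simp
  ring

theorem rpow_sq (a p : ℝ) (ha : 0 ≤ a) : a ^ p = (a ^ 2) ^ (p / 2) := by
  rw [← Real.rpow_natCast a 2, ← Real.rpow_mul ha]
  congr 1
  push_cast
  ring

/-- lower bound -/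
theorem lower (x : ℂ) (p : ℝ) (hp : 2 ≤ p) :
    1 + p * x.re + p / 2 * ‖x‖ ^ 2 ≤ ‖1 + x‖ ^ p := by
  rw [rpow_sq _ _ (norm_nonneg _), sq_one_add]
  have h : -1 ≤ 2 * x.re + ‖x‖ ^ 2 := by
    have := sq_nonneg ‖1 + x‖
    rw [sq_one_add] at this
    linarith
  have := one_add_mul_self_le_rpow_one_add h (p := p / 2) (by linarith)
  linarith

/-- upper bound for small `y` -/
theorem upper_small (y : ℂ) (p w : ℝ) (hp : 450 ≤ p) (hw : p * ‖y‖ ≤ w) (hw4 : w ≤ 3.972) :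
    ‖1 + y‖ ^ p ≤ 1 + p * y.re + 3.14 * w ^ 2 := by
  have hy0 := norm_nonneg y
  have hw0 : 0 ≤ w := le_trans (by positivity) hw
  set z : ℝ := p * y.re + p / 2 * ‖y‖ ^ 2 with hz
  have h1 : ‖1 + y‖ ^ p ≤ Real.exp z := by
    rw [rpow_sq _ _ (norm_nonneg _), sq_one_add]
    have h2 : 1 + (2 * y.re + ‖y‖ ^ 2) ≤ Real.exp (2 * y.re + ‖y‖ ^ 2) := by
      have := Real.add_one_le_exp (2 * y.re + ‖y‖ ^ 2)
      linarith
    have h3 : 0 ≤ 1 + (2 * y.re + ‖y‖ ^ 2) := by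
      rw [← sq_one_add]; positivity
    calc (1 + (2 * y.re + ‖y‖ ^ 2)) ^ (p / 2) ≤ (Real.exp (2 * y.re + ‖y‖ ^ 2)) ^ (p / 2) :=
          Real.rpow_le_rpow h3 h2 (by linarith)
      _ = Real.exp z := by
          rw [← Real.exp_mul]
          congr 1
          rw [hz]; ring
  have hq : p * ‖y‖ ^ 2 ≤ w ^ 2 / p := by
    rw [le_div_iff₀ (by linarith)]
    calc p * ‖y‖ ^ 2 * p = (p * ‖y‖) ^ 2 := by ring
      _ ≤ w ^ 2 := by gcongr
  have hw2 : w ^ 2 / p ≤ w * (3.972 / 450) := by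
    rw [div_le_iff₀ (by linarith)]
    calc w ^ 2 = w * w := by ring
      _ ≤ w * 3.972 := by gcongr
      _ = w * (3.972 / 450) * 450 := by ring
      _ ≤ w * (3.972 / 450) * p := by gcongr
  have hw3 : w ^ 2 / p ≤ w ^ 2 / 450 := by gcongr
  have hre := abs_le.mp (Complex.abs_re_le_norm y)
  have hzw : |z| ≤ w * (1 + 3.972 / 900) := by
    rw [abs_le]
    constructor
    · rw [hz]
      have : -(p * ‖y‖) ≤ p * y.re := by
        have := mul_le_mul_of_nonneg_left hre.1 (by linarith : (0 : ℝ) ≤ p)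
        linarith
      nlinarith [sq_nonneg ‖y‖]
    · rw [hz]
      have : p * y.re ≤ p * ‖y‖ := by
        have := mul_le_mul_of_nonneg_left hre.2 (by linarith : (0 : ℝ) ≤ p)
        linarith
      linarith
  have hz4 : |z| ≤ 4 := by
    refine hzw.trans ?_
    nlinarith
  have h4 := exp_taylor (R := 4) (by norm_num) hz4
  have he : (Real.exp 4 - 1 - 4) / 4 ^ 2 ≤ 3.1 := by
    have h5 : Real.exp 4 = Real.exp 1 ^ 4 := by
      rw [← Real.exp_nat_mul]; norm_num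
    have h6 := Real.exp_one_lt_d9
    have h7 : Real.exp 1 ^ 4 ≤ 2.7182818286 ^ 4 := by
      have : 0 ≤ Real.exp 1 := (Real.exp_pos 1).le
      gcongr
    rw [h5]
    norm_num at h7 ⊢
    linarith
  have hz2 : z ^ 2 ≤ w ^ 2 * 1.009 := by
    have : z ^ 2 ≤ (w * (1 + 3.972 / 900)) ^ 2 := by
      rw [← sq_abs z]
      have := abs_nonneg z
      gcongr
    refine this.trans ?_
    nlinarith [sq_nonneg w]
  have h5 : z ^ 2 * ((Real.exp 4 - 1 - 4) / 4 ^ 2) ≤ w ^ 2 * 1.009 * 3.1 := by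
    have h0 : 0 ≤ z ^ 2 := sq_nonneg z
    calc z ^ 2 * ((Real.exp 4 - 1 - 4) / 4 ^ 2) ≤ z ^ 2 * 3.1 := by gcongr
      _ ≤ _ := by gcongr
  have h6 : Real.exp z ≤ 1 + z + w ^ 2 * 1.009 * 3.1 := by linarith
  have h7 : z ≤ p * y.re + w ^ 2 / 900 := by
    rw [hz]
    have : p / 2 * ‖y‖ ^ 2 = (p * ‖y‖ ^ 2) / 2 := by ring
    rw [this]
    linarith
  have : 0 ≤ w ^ 2 := sq_nonneg w
  linarith

theorem pow_big (t p : ℝ) (ht : 1.2 ≤ t) (hp : 450 ≤ p) :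
    t * (1 + 0.1 * (p - 1)) ^ 2 ≤ t ^ p := by
  have ht0 : 0 < t := by linarith
  have h1 : t ^ p = t * t ^ (p - 1) := by
    rw [Real.rpow_sub_one ht0.ne']
    field_simp
  rw [h1]
  gcongr
  calc (1 + 0.1 * (p - 1)) ^ 2 ≤ ((1 + 0.2 : ℝ) ^ ((p - 1) / 2)) ^ 2 := by
        have := one_add_mul_self_le_rpow_one_add (s := 0.2) (p := (p - 1) / 2) (by norm_num)
          (by linarith)
        have h0 : 0 ≤ 1 + 0.1 * (p - 1) := by linarith
        gcongr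
        linarith
    _ = (1.2 : ℝ) ^ (p - 1) := by
        rw [← Real.rpow_natCast, ← Real.rpow_mul (by norm_num)]
        norm_num
    _ ≤ t ^ (p - 1) := by
        gcongr
        linarith

/-- comparison for large `x` -/
theorem upper_big (x y : ℂ) (p v : ℝ) (hp : 450 ≤ p) (hx : 2.2 < ‖x‖)
    (hw : p * ‖y‖ ≤ 101 / 100 * ‖x‖ + v) (hv : v ≤ 1.75) :
    ‖1 + y‖ ^ p - 1 - p * y.re ≤ 0.1 * (‖1 + x‖ ^ p - 1 - p * x.re) := by
  have hp0 : 0 < p := by linarith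
  obtain ⟨t, ht⟩ : ∃ t, t = ‖x‖ - 1 := ⟨_, rfl⟩
  have hxt : ‖x‖ = t + 1 := by linarith
  have ht12 : 1.2 < t := by linarith
  have hy : p * ‖y‖ ≤ 3.31 * t := by
    refine hw.trans ?_
    rw [hxt]
    linarith
  have hy' : ‖y‖ ≤ 3.31 * t / p := by
    rw [le_div_iff₀ hp0]; linarith
  have h1 : ‖1 + y‖ ≤ 0.85 * t := by
    have h2 : ‖1 + y‖ ≤ 1 + ‖y‖ := by
      calc ‖1 + y‖ ≤ ‖(1 : ℂ)‖ + ‖y‖ := norm_add_le _ _
        _ = _ := by simp
    have h3 : 3.31 * t / p ≤ 3.31 * t / 450 := by gcongr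
    have : ‖1 + y‖ ≤ 1 + 3.31 * t / 450 := by linarith
    refine this.trans ?_
    linarith
  have htp : 0 ≤ t ^ p := by positivity
  have h2 : ‖1 + y‖ ^ p ≤ 0.05 * t ^ p := by
    calc ‖1 + y‖ ^ p ≤ (0.85 * t) ^ p := by gcongr
      _ = 0.85 ^ p * t ^ p := by rw [Real.mul_rpow (by norm_num) (by linarith)]
      _ ≤ 0.05 * t ^ p := by
          gcongr
          have h3 := one_add_mul_self_le_rpow_one_add (s := (3 / 17 : ℝ)) (p := p) (by norm_num)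
            (by linarith)
          have h4 : (0.85 : ℝ) ^ p * (1 + 3 / 17) ^ p = 1 := by
            rw [← Real.mul_rpow (by norm_num) (by norm_num)]
            norm_num
          have h5 : (0 : ℝ) < 0.85 ^ p := by positivity
          have h6 : (20 : ℝ) ≤ (1 + 3 / 17) ^ p := by linarith
          nlinarith
  have h3 : t ^ p ≤ ‖1 + x‖ ^ p := by
    have : t ≤ ‖1 + x‖ := by
      have := norm_sub_norm_le x (-1)
      have e : x - -1 = 1 + x := by ring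
      rw [e, norm_neg, norm_one] at this
      linarith
    gcongr
  have h4 : -(p * y.re) ≤ 3.31 * t := by
    have := (abs_le.mp (Complex.abs_re_le_norm y)).1
    nlinarith
  have h5 : p * x.re ≤ p * (t + 1) := by
    have := (abs_le.mp (Complex.abs_re_le_norm x)).2
    rw [hxt] at this
    gcongr
  have h6 := pow_big t p (by linarith) hp
  have h7 : 0.1 * (p * (t + 1)) + 3.31 * t + 0.1 ≤ 0.05 * (t * (1 + 0.1 * (p - 1)) ^ 2) := by
    nlinarith [mul_nonneg (by linarith : (0 : ℝ) ≤ t - 1.2) (by linarith : (0 : ℝ) ≤ p - 450),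
      mul_nonneg (mul_nonneg (by linarith : (0 : ℝ) ≤ t) (by linarith : (0 : ℝ) ≤ p - 450))
        (by linarith : (0 : ℝ) ≤ p - 450)]
  nlinarith

section Prob

variable {Ω : Type*} [MeasurableSpace Ω] {μ : Measure Ω} [IsProbabilityMeasure μ]

theorem int_rpow {f : Ω → ℂ} (hf : AEStronglyMeasurable f μ) {B : ℝ} (hB : ∀ ω, ‖f ω‖ ≤ B) {p : ℝ}
    (hp : 0 < p) : Integrable (fun ω => ‖f ω‖ ^ p) μ := by
  refine Integrable.of_bound (hf.norm.aemeasurable.pow_const p).aestronglyMeasurable (B ^ p)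
    (Filter.Eventually.of_forall fun ω => ?_)
  rw [Real.norm_of_nonneg (by positivity)]
  exact Real.rpow_le_rpow (norm_nonneg _) (hB ω) hp.le

theorem sq_mean {f : Ω → ℂ} (hf : AEStronglyMeasurable f μ) {B : ℝ} (hB : ∀ ω, ‖f ω‖ ≤ B) :
    (∫ ω, ‖f ω‖ ∂μ) ^ 2 ≤ ∫ ω, ‖f ω‖ ^ 2 ∂μ := by
  have h1 : Integrable (fun ω => ‖f ω‖) μ :=
    Integrable.of_bound hf.norm B (Filter.Eventually.of_forall fun ω => by simpa using hB ω)
  have h2 : Integrable (fun ω => ‖f ω‖ ^ 2) μ := by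
    have := int_rpow hf hB (p := 2) (by norm_num)
    simpa using this
  set m := ∫ ω, ‖f ω‖ ∂μ with hm
  have h3 : 0 ≤ ∫ ω, (‖f ω‖ - m) ^ 2 ∂μ := integral_nonneg fun ω => sq_nonneg _
  have h4 : ∫ ω, (‖f ω‖ - m) ^ 2 ∂μ = (∫ ω, ‖f ω‖ ^ 2 ∂μ) - m ^ 2 := by
    have e : ∀ ω, (‖f ω‖ - m) ^ 2 = ‖f ω‖ ^ 2 - 2 * m * ‖f ω‖ + m ^ 2 := fun ω => by ring
    simp_rw [e]
    have i1 : Integrable (fun ω => 2 * m * ‖f ω‖) μ := h1.const_mul _
    have i2 : Integrable (fun ω => ‖f ω‖ ^ 2 - 2 * m * ‖f ω‖) μ := h2.sub i1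
    rw [integral_add i2 (integrable_const _), integral_sub h2 i1, integral_const_mul, ← hm]
    simp
    ring
  linarith

theorem caseI {X Y : Ω → ℂ} (hX : AEStronglyMeasurable X μ) (hY : AEStronglyMeasurable Y μ)
    {B : ℝ} (hXB : ∀ ω, ‖X ω‖ ≤ B) {B' : ℝ} (hYB : ∀ ω, ‖Y ω‖ ≤ B')
    (hX0 : ∫ ω, X ω ∂μ = 0) (hY0 : ∫ ω, Y ω ∂μ = 0) {p σ : ℝ} (hp : 450 ≤ p)
    (hσ : 0 < σ) (hσ2 : σ ^ 2 = ∫ ω, ‖X ω‖ ^ 2 ∂μ)
    (hYX : ∀ ω, p * ‖Y ω‖ ≤ 101 / 100 * ‖X ω‖ + 13 / 2 * σ)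
    (hv : 13 / 2 * σ ≤ 1.75) :
    ∫ ω, ‖1 + Y ω‖ ^ p ∂μ < ∫ ω, ‖1 + X ω‖ ^ p ∂μ := by
  obtain ⟨m, hmdef⟩ : ∃ m, m = ∫ ω, ‖X ω‖ ∂μ := ⟨_, rfl⟩
  have hp0 : 0 < p := by linarith
  have iX : Integrable X μ := Integrable.of_bound hX B (Filter.Eventually.of_forall hXB)
  have iY : Integrable Y μ := Integrable.of_bound hY B' (Filter.Eventually.of_forall hYB)
  have iXn : Integrable (fun ω => ‖X ω‖) μ := iX.norm
  have iX2 : Integrable (fun ω => ‖X ω‖ ^ 2) μ := by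
    have := int_rpow hX hXB (p := 2) (by norm_num)
    simpa using this
  have h1X : ∀ ω, ‖1 + X ω‖ ≤ 1 + B := fun ω =>
    (norm_add_le _ _).trans (by simpa using hXB ω)
  have h1Y : ∀ ω, ‖1 + Y ω‖ ≤ 1 + B' := fun ω =>
    (norm_add_le _ _).trans (by simpa using hYB ω)
  have iXp : Integrable (fun ω => ‖1 + X ω‖ ^ p) μ := int_rpow (hX.const_add 1) h1X hp0
  have iYp : Integrable (fun ω => ‖1 + Y ω‖ ^ p) μ := int_rpow (hY.const_add 1) h1Y hp0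
  have iXr : Integrable (fun ω => (X ω).re) μ := iX.re
  have iYr : Integrable (fun ω => (Y ω).re) μ := iY.re
  have hXr : ∫ ω, (X ω).re ∂μ = 0 := by
    have := integral_re iX
    simp only [RCLike.re_to_complex] at this
    rw [this, hX0]; simp
  have hYr : ∫ ω, (Y ω).re ∂μ = 0 := by
    have := integral_re iY
    simp only [RCLike.re_to_complex] at this
    rw [this, hY0]; simp
  have hm0 : 0 ≤ m := by rw [hmdef]; exact integral_nonneg fun ω => norm_nonneg _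
  have hmσ : m ≤ σ := by
    have h1 : m ^ 2 ≤ σ ^ 2 := by rw [hσ2, hmdef]; exact sq_mean hX hXB
    exact le_of_sq_le_sq h1 hσ.le
  -- lower bound
  have iX1 : Integrable (fun ω => ‖1 + X ω‖ ^ p - 1) μ := iXp.sub (integrable_const 1)
  have iY1 : Integrable (fun ω => ‖1 + Y ω‖ ^ p - 1) μ := iYp.sub (integrable_const 1)
  have iXr' : Integrable (fun ω => p * (X ω).re) μ := iXr.const_mul p
  have iYr' : Integrable (fun ω => p * (Y ω).re) μ := iYr.const_mul p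
  have iφ : Integrable (fun ω => ‖1 + X ω‖ ^ p - 1 - p * (X ω).re) μ := iX1.sub iXr'
  have iψ : Integrable (fun ω => ‖1 + Y ω‖ ^ p - 1 - p * (Y ω).re) μ := iY1.sub iYr'
  have eφ : ∫ ω, (‖1 + X ω‖ ^ p - 1 - p * (X ω).re) ∂μ = (∫ ω, ‖1 + X ω‖ ^ p ∂μ) - 1 := by
    rw [integral_sub iX1 iXr', integral_sub iXp (integrable_const 1), integral_const_mul, hXr]
    simp
  have eψ : ∫ ω, (‖1 + Y ω‖ ^ p - 1 - p * (Y ω).re) ∂μ = (∫ ω, ‖1 + Y ω‖ ^ p ∂μ) - 1 := by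
    rw [integral_sub iY1 iYr', integral_sub iYp (integrable_const 1), integral_const_mul, hYr]
    simp
  have hφ0 : ∀ ω, p / 2 * ‖X ω‖ ^ 2 ≤ ‖1 + X ω‖ ^ p - 1 - p * (X ω).re := fun ω => by
    have := lower (X ω) p (by linarith)
    linarith
  have hφ : p / 2 * σ ^ 2 ≤ (∫ ω, ‖1 + X ω‖ ^ p ∂μ) - 1 := by
    rw [← eφ, hσ2, ← integral_const_mul]
    exact integral_mono (iX2.const_mul _) iφ hφ0
  -- upper bound
  have j1 : Integrable (fun ω => (101 / 100) ^ 2 * ‖X ω‖ ^ 2) μ := iX2.const_mul _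
  have j2 : Integrable (fun ω => 2 * (101 / 100) * (13 / 2 * σ) * ‖X ω‖) μ := iXn.const_mul _
  have j3 : Integrable (fun ω => (101 / 100) ^ 2 * ‖X ω‖ ^ 2
      + 2 * (101 / 100) * (13 / 2 * σ) * ‖X ω‖) μ := j1.add j2
  have j4 : Integrable (fun ω => (101 / 100) ^ 2 * ‖X ω‖ ^ 2
      + 2 * (101 / 100) * (13 / 2 * σ) * ‖X ω‖ + (13 / 2 * σ) ^ 2) μ := j3.add (integrable_const _)
  have e0 : (fun ω => 3.14 * (101 / 100 * ‖X ω‖ + 13 / 2 * σ) ^ 2)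
      = fun ω => 3.14 * ((101 / 100) ^ 2 * ‖X ω‖ ^ 2 + 2 * (101 / 100) * (13 / 2 * σ) * ‖X ω‖
        + (13 / 2 * σ) ^ 2) := by
    funext ω; ring
  have iq : Integrable (fun ω => 3.14 * (101 / 100 * ‖X ω‖ + 13 / 2 * σ) ^ 2) μ := by
    rw [e0]
    exact j4.const_mul _
  have eq : ∫ ω, 3.14 * (101 / 100 * ‖X ω‖ + 13 / 2 * σ) ^ 2 ∂μ
      = 3.14 * ((101 / 100) ^ 2 * σ ^ 2 + 2 * (101 / 100) * (13 / 2 * σ) * m
        + (13 / 2 * σ) ^ 2) := by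
    rw [e0, integral_const_mul, integral_add j3 (integrable_const _), integral_add j1 j2,
      integral_const_mul, integral_const_mul, ← hσ2, ← hmdef]
    simp
  have hψ : (∫ ω, ‖1 + Y ω‖ ^ p ∂μ) - 1
      ≤ 3.14 * ((101 / 100) ^ 2 * σ ^ 2 + 2 * (101 / 100) * (13 / 2 * σ) * m + (13 / 2 * σ) ^ 2)
        + 0.1 * ((∫ ω, ‖1 + X ω‖ ^ p ∂μ) - 1) := by
    have iφ' : Integrable (fun ω => 0.1 * (‖1 + X ω‖ ^ p - 1 - p * (X ω).re)) μ :=
      iφ.const_mul _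
    rw [← eψ, ← eφ, ← eq, ← integral_const_mul (0.1 : ℝ)
      (fun ω => ‖1 + X ω‖ ^ p - 1 - p * (X ω).re), ← integral_add iq iφ']
    refine integral_mono iψ (iq.add iφ') fun ω => ?_
    show ‖1 + Y ω‖ ^ p - 1 - p * (Y ω).re ≤ 3.14 * (101 / 100 * ‖X ω‖ + 13 / 2 * σ) ^ 2
      + 0.1 * (‖1 + X ω‖ ^ p - 1 - p * (X ω).re)
    have h0 := hφ0 ω
    have h1 : 0 ≤ p / 2 * ‖X ω‖ ^ 2 := by positivity
    by_cases hx : ‖X ω‖ ≤ 2.2
    · have := upper_small (Y ω) p _ hp (hYX ω) (by linarith)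
      linarith
    · have := upper_big (X ω) (Y ω) p (13 / 2 * σ) hp (not_le.mp hx) (hYX ω) hv
      have h3 : 0 ≤ 3.14 * (101 / 100 * ‖X ω‖ + 13 / 2 * σ) ^ 2 := by positivity
      linarith
  have hσ3 : 0 < σ ^ 2 := by positivity
  have h5 : (101 / 100) ^ 2 * σ ^ 2 + 2 * (101 / 100) * (13 / 2 * σ) * m + (13 / 2 * σ) ^ 2
      ≤ (7.51) ^ 2 * σ ^ 2 := by
    have : 2 * (101 / 100) * (13 / 2 * σ) * m ≤ 2 * (101 / 100) * (13 / 2 * σ) * σ := by gcongr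
    nlinarith
  have h8 : 3.14 * ((7.51) ^ 2 * σ ^ 2) ≤ 0.85 * (p / 2 * σ ^ 2) := by
    nlinarith
  have h9 : 0 < p / 2 * σ ^ 2 := by positivity
  linarith

theorem lp_eq {f : Ω → ℂ} (hf : AEStronglyMeasurable f μ) {p : ℝ} (hp : 0 < p) :
    lpNorm f (ENNReal.ofReal p) μ = (∫ ω, ‖f ω‖ ^ p ∂μ) ^ p⁻¹ := by
  rw [lpNorm_eq_integral_norm_rpow_toReal (by simpa using hp) ENNReal.ofReal_ne_top hf,
    ENNReal.toReal_ofReal hp.le]

theorem memLp_of {f : Ω → ℂ} (hf : AEStronglyMeasurable f μ) {B : ℝ} (hB : ∀ ω, ‖f ω‖ ≤ B)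
    (q : ENNReal) : MemLp f q μ :=
  MemLp.of_bound hf B (Filter.Eventually.of_forall hB)

theorem caseII {X Y : Ω → ℂ} (hX : AEStronglyMeasurable X μ) (hY : AEStronglyMeasurable Y μ)
    {B : ℝ} (hXB : ∀ ω, ‖X ω‖ ≤ B) {B' : ℝ} (hYB : ∀ ω, ‖Y ω‖ ≤ B')
    (hX0 : ∫ ω, X ω ∂μ = 0) {p σ : ℝ} (hp : 450 ≤ p)
    (hσ : 0 < σ) (hσ2 : σ ^ 2 = ∫ ω, ‖X ω‖ ^ 2 ∂μ)
    (hYX : ∀ ω, p * ‖Y ω‖ ≤ 101 / 100 * ‖X ω‖ + 13 / 2 * σ)
    (hv : 1.75 ≤ 13 / 2 * σ) :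
    ∫ ω, ‖1 + Y ω‖ ^ p ∂μ < ∫ ω, ‖1 + X ω‖ ^ p ∂μ := by
  have hp0 : 0 < p := by linarith
  have hq1 : (1 : ENNReal) ≤ ENNReal.ofReal p := by
    rw [← ENNReal.ofReal_one]
    exact ENNReal.ofReal_le_ofReal (by linarith)
  have hq2 : (2 : ENNReal) ≤ ENNReal.ofReal p := by
    have : (2 : ENNReal) = ENNReal.ofReal 2 := by simp
    rw [this]
    exact ENNReal.ofReal_le_ofReal (by linarith)
  set q := ENNReal.ofReal p with hq
  have iX : Integrable X μ := Integrable.of_bound hX B (Filter.Eventually.of_forall hXB)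
  have h1X : ∀ ω, ‖1 + X ω‖ ≤ 1 + B := fun ω =>
    (norm_add_le _ _).trans (by simpa using hXB ω)
  have h1Y : ∀ ω, ‖1 + Y ω‖ ≤ 1 + B' := fun ω =>
    (norm_add_le _ _).trans (by simpa using hYB ω)
  have m1X : AEStronglyMeasurable (fun ω => 1 + X ω) μ := hX.const_add 1
  have m1Y : AEStronglyMeasurable (fun ω => 1 + Y ω) μ := hY.const_add 1
  obtain ⟨N, hN⟩ : ∃ N, N = lpNorm X q μ := ⟨_, rfl⟩
  obtain ⟨U, hU⟩ : ∃ U, U = lpNorm (fun ω => 1 + X ω) q μ := ⟨_, rfl⟩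
  obtain ⟨V, hV⟩ : ∃ V, V = lpNorm (fun ω => 1 + Y ω) q μ := ⟨_, rfl⟩
  have hN0 : 0 ≤ N := by rw [hN]; exact lpNorm_nonneg
  have e22 : ENNReal.ofReal 2 = 2 := by simp
  -- `σ ≤ N`
  have hmN : σ ≤ N := by
    have h2 : lpNorm X 2 μ ≤ N := by
      rw [hN, ← toReal_eLpNorm hX, ← toReal_eLpNorm hX]
      exact ENNReal.toReal_mono (memLp_of hX hXB q).2.ne
        (eLpNorm_le_eLpNorm_of_exponent_le hq2 hX)
    refine le_trans (le_of_eq ?_) h2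
    have h4 := lp_eq hX (p := 2) (by norm_num)
    rw [e22] at h4
    rw [h4]
    have h5 : (∫ ω, ‖X ω‖ ^ (2 : ℝ) ∂μ) = σ ^ 2 := by
      rw [hσ2]; norm_num
    rw [h5, ← Real.rpow_natCast, ← Real.rpow_mul hσ.le]
    norm_num
  -- `N ≤ U + 1`
  have hNU : N ≤ U + 1 := by
    have h := lpNorm_sub_le (μ := μ) (p := q) (f := fun ω => 1 + X ω) (g := fun _ => (1 : ℂ))
      (memLp_of m1X h1X q) hq1
    have e : (fun ω => 1 + X ω) - (fun _ => (1 : ℂ)) = X := by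
      funext ω
      simp
    rw [e, ← hN, ← hU] at h
    have e2 : lpNorm (fun _ : Ω => (1 : ℂ)) q μ = 1 := by
      rw [lpNorm_const (by rw [hq]; simpa using hp0) (IsProbabilityMeasure.ne_zero μ)]
      simp
    rw [e2] at h
    exact h
  -- `1 + σ² ≤ U²`
  have hUm : 1 + σ ^ 2 ≤ U ^ 2 := by
    have iXr : Integrable (fun ω => (X ω).re) μ := iX.re
    have hXr : ∫ ω, (X ω).re ∂μ = 0 := by
      have := integral_re iX
      simp only [RCLike.re_to_complex] at this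
      rw [this, hX0]; simp
    have iX2 : Integrable (fun ω => ‖X ω‖ ^ 2) μ := by
      have := int_rpow hX hXB (p := 2) (by norm_num)
      simpa using this
    have h2 : lpNorm (fun ω => 1 + X ω) 2 μ ≤ U := by
      rw [hU, ← toReal_eLpNorm m1X, ← toReal_eLpNorm m1X]
      exact ENNReal.toReal_mono (memLp_of m1X h1X q).2.ne
        (eLpNorm_le_eLpNorm_of_exponent_le hq2 m1X)
    have h3 : lpNorm (fun ω => 1 + X ω) 2 μ ^ 2 = 1 + σ ^ 2 := by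
      have h4 := lp_eq m1X (p := 2) (by norm_num)
      rw [e22] at h4
      rw [h4, ← Real.rpow_natCast, ← Real.rpow_mul (integral_nonneg fun ω => by positivity), hσ2]
      norm_num
      simp_rw [sq_one_add]
      have j1 : Integrable (fun ω => 2 * (X ω).re) μ := iXr.const_mul _
      have j2 : Integrable (fun ω => 2 * (X ω).re + ‖X ω‖ ^ 2) μ := j1.add iX2
      rw [integral_add (integrable_const _) j2, integral_add j1 iX2, integral_const_mul, hXr]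
      simp
    have h5 : (0 : ℝ) ≤ lpNorm (fun ω => 1 + X ω) 2 μ := lpNorm_nonneg
    calc 1 + σ ^ 2 = lpNorm (fun ω => 1 + X ω) 2 μ ^ 2 := by rw [h3]
      _ ≤ U ^ 2 := by gcongr
  -- `V ≤ 1 + 6.5 σ / p + 1.01 N / p`
  have hVN : V ≤ 1 + 13 / 2 * σ / p + 101 / 100 / p * N := by
    have g1 : MemLp (fun _ : Ω => 1 + 13 / 2 * σ / p) q μ := memLp_const _
    have g2 : MemLp (fun ω : Ω => 101 / 100 / p * ‖X ω‖) q μ :=
      ((memLp_of hX hXB q).norm).const_mul _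
    have h := lpNorm_mono_real (μ := μ) (p := q) (f := fun ω => 1 + Y ω)
      (g := (fun _ : Ω => 1 + 13 / 2 * σ / p) + fun ω => 101 / 100 / p * ‖X ω‖) (g1.add g2) ?_
    · have h2 := lpNorm_add_le (μ := μ) (p := q) (f := fun _ : Ω => 1 + 13 / 2 * σ / p)
        (g := fun ω => 101 / 100 / p * ‖X ω‖) g1 hq1
      have e1 : lpNorm (fun _ : Ω => 1 + 13 / 2 * σ / p) q μ = 1 + 13 / 2 * σ / p := by
        rw [lpNorm_const (by rw [hq]; simpa using hp0) (IsProbabilityMeasure.ne_zero μ)]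
        simp
        positivity
      have e2 : lpNorm (fun ω : Ω => 101 / 100 / p * ‖X ω‖) q μ = 101 / 100 / p * N := by
        have h3 := lpNorm_const_smul (𝕜 := ℝ) (p := q) (101 / 100 / p) (fun ω => ‖X ω‖) μ
        have e3 : (101 / 100 / p) • (fun ω => ‖X ω‖) = fun ω : Ω => 101 / 100 / p * ‖X ω‖ := by
          funext ω
          simp
        rw [e3] at h3
        rw [h3, lpNorm_norm hX, hN, Real.nnnorm_of_nonneg (by positivity)]
        rfl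
      rw [← hV] at h
      rw [e1, e2] at h2
      linarith
    · intro ω
      have h3 : ‖Y ω‖ ≤ (101 / 100 * ‖X ω‖ + 13 / 2 * σ) / p := by
        rw [le_div_iff₀ hp0]
        linarith [hYX ω]
      calc ‖1 + Y ω‖ ≤ 1 + ‖Y ω‖ := (norm_add_le _ _).trans (by simp)
        _ ≤ 1 + (101 / 100 * ‖X ω‖ + 13 / 2 * σ) / p := by linarith
        _ = _ := by simp; ring
  have hV0 : 0 ≤ V := by rw [hV]; exact lpNorm_nonneg
  have hU0 : 0 ≤ U := by rw [hU]; exact lpNorm_nonneg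
  have hpi : 1 / p ≤ 1 / 450 := by
    gcongr
  have hσp : 13 / 2 * σ / p ≤ 13 / 900 * σ := by
    calc 13 / 2 * σ / p = 13 / 2 * σ * (1 / p) := by ring
      _ ≤ 13 / 2 * σ * (1 / 450) := by gcongr
      _ = _ := by ring
  have hVU : V < U := by
    by_cases hN3 : 3 ≤ N
    · have h2 : 101 / 100 / p * N ≤ 101 / 100 / 450 * N := by gcongr
      linarith
    · push Not at hN3
      have hm3 : σ < 3 := lt_of_le_of_lt hmN hN3
      obtain ⟨δ, hδ⟩ : ∃ δ, δ = 13 / 2 * σ / p + 101 / 100 / p * N := ⟨_, rfl⟩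
      have hδ0 : 0 ≤ δ := by rw [hδ]; positivity
      have h1 : δ ≤ 0.04 * σ := by
        have h2 : 101 / 100 / p * N ≤ 101 / 100 / 450 * 3 := by gcongr
        rw [hδ]
        linarith
      have h7 : δ ≤ 0.12 := by linarith
      have h8 : δ ≤ 0.15 * σ ^ 2 := by nlinarith
      have h9 : V ≤ 1 + δ := by linarith
      have h10 : V ^ 2 < U ^ 2 := by
        calc V ^ 2 ≤ (1 + δ) ^ 2 := by gcongr
          _ = 1 + δ * (2 + δ) := by ring
          _ ≤ 1 + (0.15 * σ ^ 2) * (2 + 0.12) := by gcongr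
          _ < 1 + σ ^ 2 := by
            have : 0 < σ ^ 2 := by positivity
            linarith
          _ ≤ U ^ 2 := hUm
      exact lt_of_pow_lt_pow_left₀ 2 hU0 h10
  rw [hU, hV, hq, lp_eq m1X hp0, lp_eq m1Y hp0] at hVU
  exact (Real.rpow_lt_rpow_iff (integral_nonneg fun ω => by positivity)
    (integral_nonneg fun ω => by positivity) (by positivity)).mp hVU

/-- the comparison lemma -/
theorem prob {X Y : Ω → ℂ} (hX : AEStronglyMeasurable X μ) (hY : AEStronglyMeasurable Y μ)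
    {B : ℝ} (hXB : ∀ ω, ‖X ω‖ ≤ B) (hX0 : ∫ ω, X ω ∂μ = 0) (hY0 : ∫ ω, Y ω ∂μ = 0) {p σ : ℝ}
    (hp : 450 ≤ p) (hσ : 0 < σ) (hσ2 : σ ^ 2 = ∫ ω, ‖X ω‖ ^ 2 ∂μ)
    (hYX : ∀ ω, p * ‖Y ω‖ ≤ 101 / 100 * ‖X ω‖ + 13 / 2 * σ) :
    ∫ ω, ‖1 + Y ω‖ ^ p ∂μ < ∫ ω, ‖1 + X ω‖ ^ p ∂μ := by
  have hp0 : 0 < p := by linarith
  have hYB : ∀ ω, ‖Y ω‖ ≤ (101 / 100 * B + 13 / 2 * σ) / p := by
    intro ω
    rw [le_div_iff₀ hp0]
    have := hXB ω
    linarith [hYX ω]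
  rcases le_total (13 / 2 * σ) 1.75 with h | h
  · exact caseI hX hY hXB hYB hX0 hY0 hp hσ hσ2 hYX h
  · exact caseII hX hY hXB hYB hX0 hp hσ hσ2 hYX h

end Prob

end Pool.Agent.D0H14.BA.S
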