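import Mathlib
import Pool.Agent.D0H14.BA.Circ3
import Pool.Agent.D0H14.BA.LagB
import Pool.Agent.D0H14.BA.ProbS

/-! The square mean of the kernel and the pointwise bound. -/

set_option autoImplicit false

open Polynomial Finset MeasureTheory

namespace Pool.Agent.D0H14.BA

theorem ee_mul_conj (a b t : ℝ) : ee a t * (starRingEnd ℂ) (ee b t) = ee (a - b) t := by
  rw [ee, ee, ee, ← Complex.exp_conj, ← Complex.exp_add]
  congr 1
  simp only [map_mul, map_sub, Complex.conj_I, Complex.conj_ofReal]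
  push_cast
  ring

theorem ee_int (k : ℤ) (hk : k ≠ 0) : ∫ t in (0 : ℝ)..(2 * Real.pi), ee (2 * k) t = 0 := by
  have hk' : (k : ℂ) ≠ 0 := by exact_mod_cast hk
  have hd : ∀ t ∈ Set.uIcc 0 (2 * Real.pi), HasDerivAt
      (fun t => (-(Complex.I * (2 * k)))⁻¹ * ee (2 * k) t) (ee (2 * k) t) t := by
    intro t _
    refine ((ee_hasDeriv (2 * k) t).const_mul _).congr_deriv ?_
    push_cast
    have hI := Complex.I_ne_zero
    field_simp
  rw [intervalIntegral.integral_eq_sub_of_hasDerivAt hd ((ee_cont _).intervalIntegrable _ _)]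
  have e : ee (2 * k) (2 * Real.pi) = ee (2 * k) 0 := by
    rw [ee, ee, Complex.exp_eq_exp_iff_exists_int]
    refine ⟨-(2 * k), ?_⟩
    push_cast
    ring
  rw [e, sub_self]

theorem ee_zero (t : ℝ) : ee 0 t = 1 := by
  rw [ee]; simp

theorem ortho (n : ℕ) (a : ℕ → ℝ) (s : ℝ) :
    ∫ t in (0 : ℝ)..(2 * Real.pi), ‖∑ l ∈ range n, (a l : ℂ) * ee (cc s (l + 1)) t‖ ^ 2
      = 2 * Real.pi * ∑ l ∈ range n, a l ^ 2 := by
  have h1 : ∀ t : ℝ, ((‖∑ l ∈ range n, (a l : ℂ) * ee (cc s (l + 1)) t‖ ^ 2 : ℝ) : ℂ)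
      = ∑ l ∈ range n, ∑ m ∈ range n, (a l * a m : ℂ) * ee (2 * ((l : ℤ) - (m : ℤ) : ℤ)) t := by
    intro t
    push_cast
    rw [← Complex.mul_conj', map_sum, sum_mul_sum]
    apply sum_congr rfl
    intro l _
    apply sum_congr rfl
    intro m _
    rw [map_mul, Complex.conj_ofReal]
    have e := ee_mul_conj (cc s (l + 1)) (cc s (m + 1)) t
    have e2 : cc s (l + 1) - cc s (m + 1) = 2 * ((l : ℝ) - (m : ℝ)) := by
      rw [cc, cc]; push_cast; ring
    rw [e2] at e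
    rw [← e]
    ring
  have h2 : ((∫ t in (0 : ℝ)..(2 * Real.pi),
      ‖∑ l ∈ range n, (a l : ℂ) * ee (cc s (l + 1)) t‖ ^ 2 : ℝ) : ℂ)
      = ((2 * Real.pi * ∑ l ∈ range n, a l ^ 2 : ℝ) : ℂ) := by
    rw [← intervalIntegral.integral_ofReal]
    simp_rw [h1]
    rw [intervalIntegral.integral_finsetSum]
    · have h3 : ∀ l ∈ range n, ∫ t in (0 : ℝ)..(2 * Real.pi),
          ∑ m ∈ range n, (a l * a m : ℂ) * ee (2 * ((l : ℤ) - (m : ℤ) : ℤ)) t
          = 2 * Real.pi * (a l : ℂ) ^ 2 := by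
        intro l hl
        rw [intervalIntegral.integral_finsetSum]
        · rw [sum_eq_single l]
          · rw [intervalIntegral.integral_const_mul, sub_self]
            have : ∀ t : ℝ, ee (2 * ((0 : ℤ) : ℝ)) t = 1 := by
              intro t
              rw [Int.cast_zero, mul_zero, ee_zero]
            simp_rw [this]
            simp
            ring
          · intro m _ hml
            rw [intervalIntegral.integral_const_mul, ee_int _ (by omega), mul_zero]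
          · intro h; exact absurd hl h
        · intro m _
          exact (continuous_const.mul (ee_cont _)).intervalIntegrable _ _
      rw [sum_congr rfl h3, ← mul_sum]
      push_cast
      rfl
    · intro l _
      exact (continuous_finsetSum _ fun m _ =>
        continuous_const.mul (ee_cont _)).intervalIntegrable _ _
  exact_mod_cast h2

theorem bb_sq (n : ℕ) (s : ℝ) (hs : 0 < s) (hs2 : s ≤ 1 / 450) :
    ∫ t in (0 : ℝ)..(2 * Real.pi), ‖bb (n + 1) s t - AA (n + 1) s 0‖ ^ 2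
      ≤ 2 * Real.pi * (41.9 * s ^ 2 * AA (n + 1) s 0 ^ 2) := by
  have hpi := Real.pi_pos
  have hs3 : s < 1 / 2 := by linarith
  obtain ⟨A, hA⟩ : ∃ A, A = AA (n + 1) s 0 := ⟨_, rfl⟩
  have hA0 : 0 ≤ A := by rw [hA]; exact AA_nonneg _ s hs hs3 0 (by omega)
  obtain ⟨S, hS⟩ : ∃ S : ℝ → ℂ, S = fun t => ∑ l ∈ range n, (AA (n + 1) s (l + 1) : ℂ)
      * ee (cc s (l + 1)) t := ⟨_, rfl⟩
  have hSc : Continuous S := by
    rw [hS]
    exact continuous_finsetSum _ fun l _ => continuous_const.mul (ee_cont _)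
  have hpt : ∀ t, ‖bb (n + 1) s t - A‖ ^ 2
      ≤ 1.78 * (A ^ 2 * (4 * s ^ 2 * (Real.pi - t) ^ 2)) + (1 + 50 / 39) * ‖S t‖ ^ 2 := by
    intro t
    have e1 : bb (n + 1) s t - A = A * (ee (cc s 0) t - 1) + S t := by
      rw [bb, sum_range_succ', hS, hA]; ring
    have e2 : ‖bb (n + 1) s t - A‖ ≤ A * ‖ee (cc s 0) t - 1‖ + ‖S t‖ := by
      rw [e1]
      refine (norm_add_le _ _).trans ?_
      rw [norm_mul, Complex.norm_real, Real.norm_of_nonneg hA0]
    have e3 : ‖ee (cc s 0) t - 1‖ ^ 2 ≤ 4 * s ^ 2 * (Real.pi - t) ^ 2 := by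
      have h2 : ee (cc s 0) t = Complex.exp (Complex.I * ((2 * s * (Real.pi - t) : ℝ) : ℂ)) := by
        rw [ee, cc]; push_cast; ring_nf
      rw [h2]
      have h3 := Real.norm_exp_I_mul_ofReal_sub_one_le (x := 2 * s * (Real.pi - t))
      calc _ ≤ ‖2 * s * (Real.pi - t)‖ ^ 2 := by gcongr
        _ = _ := by rw [Real.norm_eq_abs, sq_abs]; ring
    obtain ⟨a, ha⟩ : ∃ a, a = A * ‖ee (cc s 0) t - 1‖ := ⟨_, rfl⟩
    obtain ⟨b, hb⟩ : ∃ b, b = ‖S t‖ := ⟨_, rfl⟩
    rw [← ha, ← hb] at e2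
    have e4 : a ^ 2 ≤ A ^ 2 * (4 * s ^ 2 * (Real.pi - t) ^ 2) := by
      rw [ha, mul_pow]
      gcongr
    have e5 : (a + b) ^ 2 ≤ 1.78 * a ^ 2 + (1 + 50 / 39) * b ^ 2 := by
      have : 1.78 * a ^ 2 + (1 + 50 / 39) * b ^ 2 - (a + b) ^ 2
          = 0.78 * (a - b / 0.78) ^ 2 := by ring
      have h0 : 0 ≤ 0.78 * (a - b / 0.78) ^ 2 := by positivity
      linarith
    rw [← hb]
    calc ‖bb (n + 1) s t - A‖ ^ 2 ≤ (a + b) ^ 2 := by gcongr
      _ ≤ 1.78 * a ^ 2 + (1 + 50 / 39) * b ^ 2 := e5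
      _ ≤ _ := by linarith
  rw [← hA]
  have i1 : ∫ t in (0 : ℝ)..(2 * Real.pi), (Real.pi - t) ^ 2 = 2 * Real.pi ^ 3 / 3 := by
    have hd : ∀ t ∈ Set.uIcc 0 (2 * Real.pi), HasDerivAt
        (fun t : ℝ => -(Real.pi - t) ^ 3 / 3) ((Real.pi - t) ^ 2) t := by
      intro t _
      have h1 := (((hasDerivAt_id t).const_sub Real.pi).pow 3).neg.div_const 3
      refine h1.congr_deriv ?_
      simp
    rw [intervalIntegral.integral_eq_sub_of_hasDerivAt hd
      ((by fun_prop : Continuous fun t : ℝ => (Real.pi - t) ^ 2).intervalIntegrable _ _)]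
    ring
  have i2 : ∫ t in (0 : ℝ)..(2 * Real.pi), ‖S t‖ ^ 2
      ≤ 2 * Real.pi * (8.08 * s ^ 2 * A ^ 2) := by
    rw [hS, ortho n (fun l => AA (n + 1) s (l + 1)) s, hA]
    gcongr
    exact AA_sq_sum n s hs hs2
  calc ∫ t in (0 : ℝ)..(2 * Real.pi), ‖bb (n + 1) s t - A‖ ^ 2
      ≤ ∫ t in (0 : ℝ)..(2 * Real.pi), (1.78 * (A ^ 2 * (4 * s ^ 2 * (Real.pi - t) ^ 2))
        + (1 + 50 / 39) * ‖S t‖ ^ 2) := by
        apply intervalIntegral.integral_mono_on (by positivity)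
        · exact (((bb_cont _ s).sub continuous_const).norm.pow 2).intervalIntegrable _ _
        · apply Continuous.intervalIntegrable
          have := hSc.norm
          fun_prop
        · intro t _; exact hpt t
    _ = 1.78 * (A ^ 2 * (4 * s ^ 2 * (2 * Real.pi ^ 3 / 3)))
        + (1 + 50 / 39) * ∫ t in (0 : ℝ)..(2 * Real.pi), ‖S t‖ ^ 2 := by
        rw [intervalIntegral.integral_add, intervalIntegral.integral_const_mul,
          intervalIntegral.integral_const_mul, intervalIntegral.integral_const_mul,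
          intervalIntegral.integral_const_mul, i1]
        · apply Continuous.intervalIntegrable
          fun_prop
        · exact (continuous_const.mul (hSc.norm.pow 2)).intervalIntegrable _ _
    _ ≤ 1.78 * (A ^ 2 * (4 * s ^ 2 * (2 * Real.pi ^ 3 / 3)))
        + (1 + 50 / 39) * (2 * Real.pi * (8.08 * s ^ 2 * A ^ 2)) := by gcongr
    _ = 2 * Real.pi * ((1.78 * (4 * Real.pi ^ 2 / 3) + (1 + 50 / 39) * 8.08) * s ^ 2 * A ^ 2) := by
        ring
    _ ≤ 2 * Real.pi * (41.9 * s ^ 2 * A ^ 2) := by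
        gcongr
        have h4 := Real.pi_lt_d4
        have h5 : Real.pi ^ 2 ≤ 3.1416 ^ 2 := by gcongr
        norm_num at h5 ⊢
        linarith

/-- Cauchy-Schwarz on the circle -/
theorem cs {f g : ℝ → ℝ} (hf : Continuous f) (hg : Continuous g) (hf0 : ∀ t, 0 ≤ f t)
    (hg0 : ∀ t, 0 ≤ g t) {F G : ℝ} (hF0 : 0 ≤ F) (hG0 : 0 ≤ G)
    (hF : ∫ t in (0 : ℝ)..(2 * Real.pi), f t ^ 2 ≤ F ^ 2)
    (hG : ∫ t in (0 : ℝ)..(2 * Real.pi), g t ^ 2 ≤ G ^ 2) :
    ∫ t in (0 : ℝ)..(2 * Real.pi), f t * g t ≤ F * G := by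
  have hpi := Real.two_pi_pos
  rw [intervalIntegral.integral_of_le hpi.le] at *
  have mf : MemLp f (ENNReal.ofReal 2) (volume.restrict (Set.Ioc 0 (2 * Real.pi))) := by
    obtain ⟨B, hB⟩ := isCompact_Icc.exists_bound_of_continuousOn
      (s := Set.Icc (0 : ℝ) (2 * Real.pi)) hf.continuousOn
    exact MemLp.of_bound hf.aestronglyMeasurable B
      ((ae_restrict_iff' measurableSet_Ioc).mpr (Filter.Eventually.of_forall fun x hx =>
        hB x ⟨hx.1.le, hx.2⟩))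
  have mg : MemLp g (ENNReal.ofReal 2) (volume.restrict (Set.Ioc 0 (2 * Real.pi))) := by
    obtain ⟨B, hB⟩ := isCompact_Icc.exists_bound_of_continuousOn
      (s := Set.Icc (0 : ℝ) (2 * Real.pi)) hg.continuousOn
    exact MemLp.of_bound hg.aestronglyMeasurable B
      ((ae_restrict_iff' measurableSet_Ioc).mpr (Filter.Eventually.of_forall fun x hx =>
        hB x ⟨hx.1.le, hx.2⟩))
  have h := integral_mul_le_Lp_mul_Lq_of_nonneg Real.HolderConjugate.two_two
    (Filter.Eventually.of_forall hf0) (Filter.Eventually.of_forall hg0) mf mg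
  refine h.trans ?_
  have e1 : (∫ t in Set.Ioc 0 (2 * Real.pi), f t ^ (2 : ℝ)) ^ (1 / (2 : ℝ)) ≤ F := by
    have h1 : (∫ t in Set.Ioc 0 (2 * Real.pi), f t ^ (2 : ℝ)) ≤ F ^ 2 := by
      simpa using hF
    calc _ ≤ (F ^ 2) ^ (1 / (2 : ℝ)) := by
          apply Real.rpow_le_rpow _ h1 (by norm_num)
          exact integral_nonneg fun t => Real.rpow_nonneg (hf0 t) _
      _ = F := by rw [← Real.rpow_natCast, ← Real.rpow_mul hF0]; norm_num
  have e2 : (∫ t in Set.Ioc 0 (2 * Real.pi), g t ^ (2 : ℝ)) ^ (1 / (2 : ℝ)) ≤ G := by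
    have h1 : (∫ t in Set.Ioc 0 (2 * Real.pi), g t ^ (2 : ℝ)) ≤ G ^ 2 := by
      simpa using hG
    calc _ ≤ (G ^ 2) ^ (1 / (2 : ℝ)) := by
          apply Real.rpow_le_rpow _ h1 (by norm_num)
          exact integral_nonneg fun t => Real.rpow_nonneg (hg0 t) _
      _ = G := by rw [← Real.rpow_natCast, ← Real.rpow_mul hG0]; norm_num
  have e3 : 0 ≤ (∫ t in Set.Ioc 0 (2 * Real.pi), g t ^ (2 : ℝ)) ^ (1 / (2 : ℝ)) :=
    Real.rpow_nonneg (integral_nonneg fun t => Real.rpow_nonneg (hg0 t) _) _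
  exact mul_le_mul e1 e2 e3 hF0

/-- pointwise bound when the mean of `g = P(D) h` vanishes -/
theorem pointwiseB {n : ℕ} {h : ℝ → ℂ} (hh : ContDiff ℝ (n + 1 : ℕ) h)
    (hp : Function.Periodic h (2 * Real.pi)) (s : ℝ) (hs0 : 0 < s) (hs2 : s ≤ 1 / 450)
    (hg : ∫ θ in (0 : ℝ)..(2 * Real.pi), op (n + 1) (PP (n + 1) s) h θ = 0)
    {σ : ℝ} (hσ0 : 0 ≤ σ)
    (hσ : σ ^ 2 = ∫ t, ‖op (n + 1) (PP (n + 1) s) h t‖ ^ 2 ∂mu) (θ : ℝ) :
    ‖op (n + 1) (QQ (n + 1) s) h θ‖ ≤ ‖op (n + 1) (PP (n + 1) s) h θ‖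
      + 3.24 * AA (n + 1) s 0 * σ := by
  have hpi := Real.pi_pos
  have hs3 : s < 1 / 2 := by linarith
  have hx0 : 0 < 2 * Real.pi * s := by positivity
  have hx1 : 2 * Real.pi * s ≤ 0.014 := by
    calc 2 * Real.pi * s ≤ 2 * 3.15 * (1 / 450) := by
          have := Real.pi_lt_d2
          gcongr
      _ ≤ 0.014 := by norm_num
  have hsin : 0.9999 * (2 * Real.pi * s) ≤ Real.sin (2 * Real.pi * s) := by
    have h1 := Real.sin_gt_sub_cube hx0
    have h2 : (2 * Real.pi * s) ^ 3 / 6 ≤ 0.0001 * (2 * Real.pi * s) := by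
      have h3 : (2 * Real.pi * s) ^ 2 ≤ 0.014 ^ 2 := by gcongr
      nlinarith
    linarith
  have hsin0 : 0 < Real.sin (2 * Real.pi * s) := by
    have : 0 < 0.9999 * (2 * Real.pi * s) := by positivity
    linarith
  have h1 := repr (n := n + 1) (by omega) hh hp s hsin0.ne' θ
  set g := op (n + 1) (PP (n + 1) s) h with hgdef
  have hgc : Continuous g := op_cont hh _
  have hgp : Function.Periodic g (2 * Real.pi) := op_periodic hp _
  have hgc' : Continuous fun t : ℝ => g (θ - t) := hgc.comp (by fun_prop)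
  have hshift : ∫ t in (0 : ℝ)..(2 * Real.pi), g (θ - t) = 0 := by
    rw [intervalIntegral.integral_comp_sub_left (fun t => g t) θ, sub_zero]
    have := hgp.intervalIntegral_add_eq (θ - 2 * Real.pi) 0
    rw [zero_add, sub_add_cancel] at this
    rw [this, hg]
  have hshift2 : ∫ t in (0 : ℝ)..(2 * Real.pi), ‖g (θ - t)‖ ^ 2
      = ∫ t in (0 : ℝ)..(2 * Real.pi), ‖g t‖ ^ 2 := by
    rw [intervalIntegral.integral_comp_sub_left (fun t => ‖g t‖ ^ 2) θ, sub_zero]
    have hgp' : Function.Periodic (fun t => ‖g t‖ ^ 2) (2 * Real.pi) := fun x => by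
      show ‖g (x + 2 * Real.pi)‖ ^ 2 = ‖g x‖ ^ 2
      rw [hgp x]
    have := hgp'.intervalIntegral_add_eq (θ - 2 * Real.pi) 0
    rw [zero_add, sub_add_cancel] at this
    exact this
  have h2 : ∫ t in (0 : ℝ)..(2 * Real.pi), bb (n + 1) s t * g (θ - t)
      = ∫ t in (0 : ℝ)..(2 * Real.pi), (bb (n + 1) s t - AA (n + 1) s 0) * g (θ - t) := by
    have h3 : ∀ t, (bb (n + 1) s t - AA (n + 1) s 0) * g (θ - t)
        = bb (n + 1) s t * g (θ - t) - AA (n + 1) s 0 * g (θ - t) := fun t => by ring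
    simp_rw [h3]
    rw [intervalIntegral.integral_sub, intervalIntegral.integral_const_mul, hshift, mul_zero,
      sub_zero]
    · exact ((bb_cont _ s).mul hgc').intervalIntegrable _ _
    · exact (continuous_const.mul hgc').intervalIntegrable _ _
  rw [h1, h2]
  refine (norm_add_le _ _).trans (add_le_add le_rfl ?_)
  rw [norm_mul]
  have h4 : ‖(2 * (Real.sin (2 * Real.pi * s) : ℂ))⁻¹‖ = (2 * Real.sin (2 * Real.pi * s))⁻¹ := by
    rw [norm_inv, norm_mul, Complex.norm_real, Real.norm_of_nonneg hsin0.le]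
    simp
  rw [h4]
  have hA0 : 0 ≤ AA (n + 1) s 0 := AA_nonneg _ s hs0 hs3 0 (by omega)
  have hσ' : ∫ t in (0 : ℝ)..(2 * Real.pi), ‖g t‖ ^ 2 = 2 * Real.pi * σ ^ 2 := by
    rw [hσ, int_mu, smul_eq_mul]
    field_simp
  obtain ⟨w, hw⟩ : ∃ w, w = Real.sqrt (2 * Real.pi) := ⟨_, rfl⟩
  have hw0 : 0 ≤ w := by rw [hw]; exact Real.sqrt_nonneg _
  have hw2 : w ^ 2 = 2 * Real.pi := by rw [hw]; exact Real.sq_sqrt (by positivity)
  have h5 : ‖∫ t in (0 : ℝ)..(2 * Real.pi), (bb (n + 1) s t - AA (n + 1) s 0) * g (θ - t)‖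
      ≤ (w * (6.4731 * s * AA (n + 1) s 0)) * (w * σ) := by
    refine (intervalIntegral.norm_integral_le_integral_norm (by positivity)).trans ?_
    simp_rw [norm_mul]
    apply cs ((bb_cont _ s).sub continuous_const).norm hgc'.norm (fun t => norm_nonneg _)
      (fun t => norm_nonneg _) (by positivity) (by positivity)
    · refine (bb_sq n s hs0 hs2).trans ?_
      have : (w * (6.4731 * s * AA (n + 1) s 0)) ^ 2
          = 2 * Real.pi * (6.4731 ^ 2 * s ^ 2 * AA (n + 1) s 0 ^ 2) := by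
        rw [mul_pow, hw2]; ring
      rw [this]
      gcongr
      norm_num
    · rw [hshift2, hσ', mul_pow, hw2]
  calc (2 * Real.sin (2 * Real.pi * s))⁻¹ * ‖∫ t in (0 : ℝ)..(2 * Real.pi),
        (bb (n + 1) s t - AA (n + 1) s 0) * g (θ - t)‖
      ≤ (2 * (0.9999 * (2 * Real.pi * s)))⁻¹ * ((w * (6.4731 * s * AA (n + 1) s 0)) * (w * σ)) := by
        gcongr
    _ = (6.4731 / (2 * 0.9999)) * AA (n + 1) s 0 * σ := by
      have : (w * (6.4731 * s * AA (n + 1) s 0)) * (w * σ)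
          = w ^ 2 * (6.4731 * s * AA (n + 1) s 0 * σ) := by ring
      rw [this, hw2]
      field_simp
    _ ≤ 3.24 * AA (n + 1) s 0 * σ := by
      gcongr
      norm_num

end Pool.Agent.D0H14.BA
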