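import Mathlib
import Pool.Agent.D0H14.BA.CircB

/-! The sharp inequality on the circle for all `n` and `p ≥ 450`. -/

set_option autoImplicit false

open Polynomial Finset MeasureTheory

namespace Pool.Agent.D0H14.BA

theorem circleB {n : ℕ} {h : ℝ → ℂ} (hh : ContDiff ℝ (n + 1 : ℕ) h)
    (hper : Function.Periodic h (2 * Real.pi)) {p : ℝ}
    (hp : 450 ≤ p) :
    (∃ a : ℂ, ∀ θ, h θ = a) ∨
    ∫ θ in (0 : ℝ)..(2 * Real.pi), ‖op (n + 1) (QQ (n + 1) (1 / p)) h θ‖ ^ p
      < K (n + 1) p ^ p *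
        ∫ θ in (0 : ℝ)..(2 * Real.pi), ‖op (n + 1) (PP (n + 1) (1 / p)) h θ‖ ^ p := by
  have hp0 : 0 < p := by linarith
  haveI := mu_prob
  have hpi := Real.two_pi_pos
  set s := 1 / p with hs
  have hs0 : 0 < s := by positivity
  have hs2 : s < 1 / 2 := by rw [hs]; gcongr; linarith
  have hs3 : s ≤ 1 / 450 := by rw [hs]; gcongr
  have hsin : 0 < Real.sin (2 * Real.pi * s) := by
    apply Real.sin_pos_of_pos_of_lt_pi (by positivity)
    have := Real.pi_pos
    nlinarith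
  obtain ⟨A0, hA0⟩ : ∃ A0, A0 = AA (n + 1) s 0 := ⟨_, rfl⟩
  have hA1 : 1.99 ≤ A0 := by
    have := AA_zero_ge n s hs0 hs3
    rw [hA0]; linarith
  have hKA : p * A0 / 2 ≤ K (n + 1) p := by rw [hA0]; exact K_ge n p hp
  have hK0 : 0 < K (n + 1) p := by
    have : 0 < p * A0 / 2 := by positivity
    linarith
  have hpK : p ≤ 101 / 100 * K (n + 1) p := by nlinarith
  obtain ⟨M, hM⟩ : ∃ M, M = 3.24 * A0 := ⟨_, rfl⟩
  have hM0 : 0 ≤ M := by rw [hM]; positivity
  have hpM : p * M ≤ 13 / 2 * K (n + 1) p := by rw [hM]; nlinarith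
  have hMK : 1 + M < K (n + 1) p := by rw [hM]; nlinarith
  obtain ⟨a, ha⟩ : ∃ a : ℂ, a = (2 * Real.pi : ℝ)⁻¹ • ∫ θ in (0 : ℝ)..(2 * Real.pi), h θ := ⟨_, rfl⟩
  obtain ⟨h1, hh1⟩ : ∃ h1 : ℝ → ℂ, h1 = fun θ => h θ - a := ⟨_, rfl⟩
  have c1 : ContDiff ℝ (n + 1 : ℕ) h1 := by rw [hh1]; exact hh.sub contDiff_const
  have p1 : Function.Periodic h1 (2 * Real.pi) := by
    intro x
    rw [hh1]
    show h (x + 2 * Real.pi) - a = h x - a
    rw [hper x]
  have i1 : ∫ θ in (0 : ℝ)..(2 * Real.pi), h1 θ = 0 := by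
    rw [hh1, intervalIntegral.integral_sub (hh.continuous.intervalIntegrable _ _)
      (continuous_const.intervalIntegrable _ _), intervalIntegral.integral_const, ha, smul_smul,
      sub_zero, mul_inv_cancel₀ hpi.ne', one_smul, sub_self]
  obtain ⟨x, hx⟩ : ∃ x, x = op (n + 1) (PP (n + 1) s) h1 := ⟨_, rfl⟩
  obtain ⟨y, hy⟩ : ∃ y, y = op (n + 1) (QQ (n + 1) s) h1 := ⟨_, rfl⟩
  have xc : Continuous x := by rw [hx]; exact op_cont c1 _
  have yc : Continuous y := by rw [hy]; exact op_cont c1 _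
  have xp : Function.Periodic x (2 * Real.pi) := by rw [hx]; exact op_periodic p1 _
  have yp : Function.Periodic y (2 * Real.pi) := by rw [hy]; exact op_periodic p1 _
  have xi : ∫ θ in (0 : ℝ)..(2 * Real.pi), x θ = 0 := by
    rw [hx, op_integral c1 p1, i1, mul_zero]
  have yi : ∫ θ in (0 : ℝ)..(2 * Real.pi), y θ = 0 := by
    rw [hy, op_integral c1 p1, i1, mul_zero]
  obtain ⟨m, hm⟩ : ∃ m, m = Real.sqrt (∫ θ, ‖x θ‖ ^ 2 ∂mu) := ⟨_, rfl⟩
  have hm0 : 0 ≤ m := by rw [hm]; exact Real.sqrt_nonneg _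
  have hm2 : m ^ 2 = ∫ θ, ‖x θ‖ ^ 2 ∂mu := by
    rw [hm]; exact Real.sq_sqrt (integral_nonneg fun θ => by positivity)
  have hpt : ∀ θ, ‖y θ‖ ≤ ‖x θ‖ + M * m := by
    intro θ
    have h2 := pointwiseB c1 p1 s hs0 hs3 (by rw [← hx]; exact xi) hm0 (by rw [← hx]; exact hm2) θ
    rw [← hx, ← hy, ← hA0, ← hM] at h2
    exact h2
  have hg : ∀ θ, op (n + 1) (PP (n + 1) s) h θ = ((PP (n + 1) s).eval 0 : ℝ) * a + x θ := by
    intro θ
    rw [op_sub_const h _ a θ, hx, hh1]
  have hH : ∀ θ, op (n + 1) (QQ (n + 1) s) h θ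
      = K (n + 1) p * (((PP (n + 1) s).eval 0 : ℝ) * a) + y θ := by
    intro θ
    rw [op_sub_const h _ a θ, hy, hh1, K_mul _ _ hp0]
    push_cast
    ring
  rcases eq_or_lt_of_le hm0 with hm1 | hm1
  · left
    refine ⟨a, fun θ => ?_⟩
    obtain ⟨B, hB⟩ := per_bdd xc xp
    have h2 : ∀ θ, x θ = 0 := per_zero xc xp (by
      have h4 := sq_mean (μ := mu) xc.aestronglyMeasurable hB
      rw [← hm2, ← hm1] at h4
      have h5 : 0 ≤ ∫ θ, ‖x θ‖ ∂mu := integral_nonneg fun θ => norm_nonneg _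
      nlinarith)
    have h3 := inj (n := n + 1) (by omega) c1 p1 s hsin.ne' (fun θ => by rw [← hx]; exact h2 θ) θ
    rw [hh1] at h3
    exact sub_eq_zero.mp h3
  right
  obtain ⟨B, hB⟩ := per_bdd xc xp
  obtain ⟨B', hB'⟩ := per_bdd yc yp
  have hP0 := PP_zero_pos (n + 1) s hs0
  simp_rw [hg, hH]
  -- reduce to the normalised measure
  have key : ∫ θ, ‖(K (n + 1) p : ℂ) * (((PP (n + 1) s).eval 0 : ℝ) * a) + y θ‖ ^ p ∂mu
      < K (n + 1) p ^ p * ∫ θ, ‖(((PP (n + 1) s).eval 0 : ℝ) : ℂ) * a + x θ‖ ^ p ∂mu := by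
    by_cases ha0 : a = 0
    · rw [ha0]
      simp only [mul_zero, zero_add]
      have mx : AEStronglyMeasurable x mu := xc.aestronglyMeasurable
      have my : AEStronglyMeasurable y mu := yc.aestronglyMeasurable
      have hq1 : (1 : ENNReal) ≤ ENNReal.ofReal p := by
        rw [← ENNReal.ofReal_one]
        exact ENNReal.ofReal_le_ofReal (by linarith)
      obtain ⟨N, hN⟩ : ∃ N, N = lpNorm x (ENNReal.ofReal p) mu := ⟨_, rfl⟩
      have hq2 : (2 : ENNReal) ≤ ENNReal.ofReal p := by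
        have : (2 : ENNReal) = ENNReal.ofReal 2 := by simp
        rw [this]
        exact ENNReal.ofReal_le_ofReal (by linarith)
      have hmN : m ≤ N := by
        have h2 : lpNorm x 2 mu ≤ N := by
          rw [hN, ← toReal_eLpNorm mx, ← toReal_eLpNorm mx]
          exact ENNReal.toReal_mono (memLp_of mx hB _).2.ne
            (eLpNorm_le_eLpNorm_of_exponent_le hq2 mx)
        refine le_trans (le_of_eq ?_) h2
        have h4 := lp_eq mx (p := 2) (by norm_num)
        have e22 : ENNReal.ofReal 2 = 2 := by simp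
        rw [e22] at h4
        rw [h4]
        have h5 : (∫ ω, ‖x ω‖ ^ (2 : ℝ) ∂mu) = m ^ 2 := by
          rw [hm2]; norm_num
        rw [h5, ← Real.rpow_natCast, ← Real.rpow_mul hm0]
        norm_num
      have hyN : lpNorm y (ENNReal.ofReal p) mu ≤ N + M * m := by
        have g1 : MemLp (fun _ : ℝ => M * m) (ENNReal.ofReal p) mu := memLp_const _
        have g2 : MemLp (fun θ : ℝ => ‖x θ‖) (ENNReal.ofReal p) mu := (memLp_of mx hB _).norm
        have h2 := lpNorm_mono_real (μ := mu) (p := ENNReal.ofReal p) (f := y)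
          (g := (fun θ : ℝ => ‖x θ‖) + fun _ : ℝ => M * m) (g2.add g1) (fun θ => hpt θ)
        have h3 := lpNorm_add_le (μ := mu) (p := ENNReal.ofReal p) (f := fun θ : ℝ => ‖x θ‖)
          (g := fun _ : ℝ => M * m) g2 hq1
        have e1 : lpNorm (fun _ : ℝ => M * m) (ENNReal.ofReal p) mu = M * m := by
          rw [lpNorm_const (by simpa using hp0) (IsProbabilityMeasure.ne_zero mu)]
          simp [abs_of_nonneg hM0, abs_of_nonneg hm0]
        rw [lpNorm_norm mx, ← hN, e1] at h3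
        linarith
      have hyK : lpNorm y (ENNReal.ofReal p) mu < K (n + 1) p * N := by
        have hN0 : 0 < N := by linarith
        have h2 : M * m ≤ M * N := by gcongr
        nlinarith
      rw [hN, lp_eq mx hp0, lp_eq my hp0] at hyK
      have h4 : (0 : ℝ) ≤ ∫ θ, ‖y θ‖ ^ p ∂mu := integral_nonneg fun θ => by positivity
      have h5 : (0 : ℝ) ≤ ∫ θ, ‖x θ‖ ^ p ∂mu := integral_nonneg fun θ => by positivity
      have h6 : K (n + 1) p * (∫ θ, ‖x θ‖ ^ p ∂mu) ^ p⁻¹
          = (K (n + 1) p ^ p * ∫ θ, ‖x θ‖ ^ p ∂mu) ^ p⁻¹ := by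
        rw [Real.mul_rpow (by positivity) h5, ← Real.rpow_mul hK0.le, mul_inv_cancel₀ hp0.ne',
          Real.rpow_one]
      rw [h6] at hyK
      exact (Real.rpow_lt_rpow_iff h4 (by positivity) (by positivity)).mp hyK
    · obtain ⟨A, hA⟩ : ∃ A : ℂ, A = (((PP (n + 1) s).eval 0 : ℝ) : ℂ) * a := ⟨_, rfl⟩
      have hA0 : A ≠ 0 := by
        rw [hA]
        exact mul_ne_zero (by exact_mod_cast hP0.ne') ha0
      have hKc : (K (n + 1) p : ℂ) ≠ 0 := by exact_mod_cast hK0.ne'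
      have hA' : 0 < ‖A‖ := norm_pos_iff.mpr hA0
      rw [← hA]
      have h2 := S.prob (μ := mu) (X := fun θ => x θ / A) (Y := fun θ => y θ / (K (n + 1) p * A))
        (B := B / ‖A‖) (p := p) (σ := m / ‖A‖)
        (xc.div_const _).aestronglyMeasurable (yc.div_const _).aestronglyMeasurable ?_ ?_ ?_ hp
        (by positivity) ?_ ?_
      · have e1 : ∀ θ, ‖1 + y θ / (K (n + 1) p * A)‖ ^ p
            = ‖(K (n + 1) p : ℂ) * A + y θ‖ ^ p / (K (n + 1) p * ‖A‖) ^ p := by
          intro θ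
          rw [← Real.div_rpow (norm_nonneg _) (by positivity)]
          congr 1
          rw [eq_div_iff (by positivity)]
          have : K (n + 1) p * ‖A‖ = ‖(K (n + 1) p : ℂ) * A‖ := by
            rw [norm_mul, Complex.norm_real, Real.norm_of_nonneg hK0.le]
          rw [this, ← norm_mul]
          congr 1
          field_simp
        have e2 : ∀ θ, ‖1 + x θ / A‖ ^ p = ‖A + x θ‖ ^ p / ‖A‖ ^ p := by
          intro θ
          rw [← Real.div_rpow (norm_nonneg _) (by positivity)]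
          congr 1
          rw [eq_div_iff (by positivity), ← norm_mul]
          congr 1
          field_simp
        simp_rw [e1, e2] at h2
        rw [integral_div, integral_div, Real.mul_rpow hK0.le hA'.le] at h2
        have hKp : 0 < K (n + 1) p ^ p := by positivity
        have hAp : 0 < ‖A‖ ^ p := by positivity
        rw [div_lt_div_iff₀ (by positivity) hAp] at h2
        have h3 : (∫ θ, ‖(K (n + 1) p : ℂ) * A + y θ‖ ^ p ∂mu) * ‖A‖ ^ p
            < (K (n + 1) p ^ p * ∫ θ, ‖A + x θ‖ ^ p ∂mu) * ‖A‖ ^ p := by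
          refine h2.trans_le (le_of_eq ?_)
          ring
        exact lt_of_mul_lt_mul_right h3 hAp.le
      · intro θ
        rw [norm_div]
        gcongr
        exact hB θ
      · rw [integral_div, int_mu, xi]; simp
      · rw [integral_div, int_mu, yi]; simp
      · rw [div_pow, hm2]
        simp_rw [norm_div, div_pow]
        rw [integral_div]
      · intro θ
        rw [norm_div, norm_div, norm_mul, Complex.norm_real, Real.norm_of_nonneg hK0.le]
        rw [← mul_div_assoc, ← mul_div_assoc, ← mul_div_assoc, ← add_div,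
          div_le_div_iff₀ (by positivity) hA']
        have h3 : p * ‖y θ‖ ≤ (101 / 100 * ‖x θ‖ + 13 / 2 * m) * K (n + 1) p := by
          calc p * ‖y θ‖ ≤ p * (‖x θ‖ + M * m) := by gcongr; exact hpt θ
            _ = p * ‖x θ‖ + (p * M) * m := by ring
            _ ≤ (101 / 100 * K (n + 1) p) * ‖x θ‖ + (13 / 2 * K (n + 1) p) * m := by gcongr
            _ = _ := by ring
        calc p * ‖y θ‖ * ‖A‖ ≤ (101 / 100 * ‖x θ‖ + 13 / 2 * m) * K (n + 1) p * ‖A‖ := by gcongr
          _ = _ := by ring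
  rw [int_mu, int_mu, smul_eq_mul, smul_eq_mul] at key
  have h7 : (2 * Real.pi)⁻¹ * ∫ θ in (0 : ℝ)..(2 * Real.pi),
      ‖(K (n + 1) p : ℂ) * (((PP (n + 1) s).eval 0 : ℝ) * a) + y θ‖ ^ p
      < (2 * Real.pi)⁻¹ * (K (n + 1) p ^ p * ∫ θ in (0 : ℝ)..(2 * Real.pi),
        ‖(((PP (n + 1) s).eval 0 : ℝ) : ℂ) * a + x θ‖ ^ p) := by
    refine key.trans_le (le_of_eq ?_)
    ring
  exact lt_of_mul_lt_mul_left h7 (by positivity)

end Pool.Agent.D0H14.BA
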