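import Mathlib
import Pool.Agent.D0H14.BA.Cal

/-! Integrals over annuli of functions homogeneous of degree `-2/p`. -/

set_option autoImplicit false

open MeasureTheory Set

namespace Pool.Agent.D0H14.BA

theorem annulus {F : ℂ → ℂ} {p a b : ℝ} (hp : 0 < p) (ha : 0 < a) (hab : a < b)
    (hF : Homog (-(2 / p)) F) :
    ∫ z in {z : ℂ | a ≤ ‖z‖ ∧ ‖z‖ ≤ b}, ‖F z‖ ^ p
      = Real.log (b / a) * ∫ θ in (0 : ℝ)..(2 * Real.pi), ‖F (ci θ)‖ ^ p := by
  have hS : MeasurableSet {z : ℂ | a ≤ ‖z‖ ∧ ‖z‖ ≤ b} :=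
    (measurableSet_le measurable_const measurable_norm).inter
      (measurableSet_le measurable_norm measurable_const)
  rw [← integral_indicator hS, ← Complex.integral_comp_polarCoord_symm]
  have h1 : ∀ x ∈ polarCoord.target,
      x.1 • ({z : ℂ | a ≤ ‖z‖ ∧ ‖z‖ ≤ b}.indicator (fun z => ‖F z‖ ^ p))
        (Complex.polarCoord.symm x)
      = (Icc a b).indicator (fun r : ℝ => r⁻¹) x.1 * ‖F (ci x.2)‖ ^ p := by
    intro x hx
    have hx1 : 0 < x.1 := hx.1
    have e1 : Complex.polarCoord.symm x = x.1 * ci x.2 := by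
      rw [Complex.polarCoord_symm_apply, ci_split]
    have e2 : ‖Complex.polarCoord.symm x‖ = x.1 := by
      rw [e1, norm_mul, ci_norm, mul_one, Complex.norm_real, Real.norm_of_nonneg hx1.le]
    by_cases hr : x.1 ∈ Icc a b
    · have hz : Complex.polarCoord.symm x ∈ {z : ℂ | a ≤ ‖z‖ ∧ ‖z‖ ≤ b} := by
        simp only [mem_setOf_eq, e2]
        exact hr
      rw [indicator_of_mem hz, indicator_of_mem hr, e1, hF x.1 hx1 _ (ci_ne _), norm_mul,
        Complex.norm_real, Real.norm_of_nonneg (by positivity),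
        Real.mul_rpow (by positivity) (norm_nonneg _), ← Real.rpow_mul hx1.le, smul_eq_mul,
        ← mul_assoc]
      congr 1
      have h3 : -(2 / p) * p = -2 := by field_simp
      rw [h3, Real.rpow_neg hx1.le]
      have h4 : x.1 ^ (2 : ℝ) = x.1 ^ 2 := by norm_cast
      rw [h4]
      field_simp
    · have hz : Complex.polarCoord.symm x ∉ {z : ℂ | a ≤ ‖z‖ ∧ ‖z‖ ≤ b} := by
        simp only [mem_setOf_eq, e2]
        exact hr
      rw [indicator_of_notMem hz, indicator_of_notMem hr]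
      simp
  rw [setIntegral_congr_fun polarCoord.open_target.measurableSet h1]
  have h2 : polarCoord.target = Ioi (0 : ℝ) ×ˢ Ioo (-Real.pi) Real.pi := rfl
  rw [h2, Measure.volume_eq_prod,
    setIntegral_prod_mul (L := ℝ) (fun r => (Icc a b).indicator (fun r : ℝ => r⁻¹) r)
      (fun θ => ‖F (ci θ)‖ ^ p)]
  congr 1
  · rw [setIntegral_indicator measurableSet_Icc]
    have h3 : Ioi (0 : ℝ) ∩ Icc a b = Icc a b :=
      inter_eq_right.mpr fun x hx => lt_of_lt_of_le ha hx.1
    rw [h3, integral_Icc_eq_integral_Ioc, ← intervalIntegral.integral_of_le hab.le,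
      integral_inv_of_pos ha (ha.trans hab)]
  · rw [← integral_Ioc_eq_integral_Ioo, ← intervalIntegral.integral_of_le (by
      linarith [Real.pi_pos])]
    have hper : Function.Periodic (fun θ => ‖F (ci θ)‖ ^ p) (2 * Real.pi) := by
      intro θ
      show ‖F (ci (θ + 2 * Real.pi))‖ ^ p = ‖F (ci θ)‖ ^ p
      rw [ci_periodic θ]
    have h4 := hper.intervalIntegral_add_eq (-Real.pi) 0
    have h5 : -Real.pi + 2 * Real.pi = Real.pi := by ring
    rw [h5, zero_add] at h4
    exact h4

end Pool.Agent.D0H14.BA
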