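import Mathlib
import Pool.Agent.D0H14.BA.CircC
import Pool.Agent.D0H14.BA.Pol

/-! Assembly: the inequality on annuli for homogeneous functions. -/

set_option autoImplicit false

open Polynomial Finset MeasureTheory

namespace Pool.Agent.D0H14.BA

theorem main (n : ℕ) (hn : 1 ≤ n) (p : ℝ) (hp : 450 ≤ p) (u : ℂ → ℂ)
    (hu : ContDiffOn ℝ n u {0}ᶜ) (hb : Homog (n - 2 / p) u) (a b : ℝ) (ha : 0 < a) (hab : a < b) :
    (∫ z in {z : ℂ | a ≤ ‖z‖ ∧ ‖z‖ ≤ b}, ‖(dz^[n] u) z‖ ^ p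
      ≤ K n p ^ p * ∫ z in {z : ℂ | a ≤ ‖z‖ ∧ ‖z‖ ≤ b}, ‖(dzb^[n] u) z‖ ^ p) ∧
    (∫ z in {z : ℂ | a ≤ ‖z‖ ∧ ‖z‖ ≤ b}, ‖(dz^[n] u) z‖ ^ p
        = K n p ^ p * ∫ z in {z : ℂ | a ≤ ‖z‖ ∧ ‖z‖ ≤ b}, ‖(dzb^[n] u) z‖ ^ p ↔
      ∃ c : ℂ, ∀ z : ℂ, z ≠ 0 → u z = c * (z ^ n * ((‖z‖ ^ (-(2 / p)) : ℝ) : ℂ))) := by
  obtain ⟨N, rfl⟩ : ∃ N, n = N + 1 := ⟨n - 1, by omega⟩
  have hp0 : 0 < p := by linarith
  obtain ⟨s, hs⟩ : ∃ s, s = 1 / p := ⟨_, rfl⟩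
  have hb' : Homog (((N + 1 : ℕ) : ℝ) - 2 * s) u := by
    have : ((N + 1 : ℕ) : ℝ) - 2 * s = ((N + 1 : ℕ) : ℝ) - 2 / p := by rw [hs]; ring
    rw [this]; exact hb
  obtain ⟨-, z2, z3⟩ := dz_iter hu hb' (N + 1) le_rfl
  obtain ⟨-, w2, w3⟩ := dzb_iter hu hb' (N + 1) le_rfl
  have e0 : ((N + 1 : ℕ) : ℝ) - 2 * s - (N + 1 : ℕ) = -(2 / p) := by rw [hs]; ring
  rw [e0] at z2 w2
  have h0 := Real.log_pos ((one_lt_div ha).mpr hab)
  rw [annulus hp0 ha hab z2, annulus hp0 ha hab w2]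
  have hper := ht_periodic (N + 1) u
  have hsm := ht_smooth hu
  have c1 : ∀ θ, ‖(dz^[N + 1] u) (ci θ)‖ ^ p
      = ((1 / 2) ^ (N + 1)) ^ p * ‖op (N + 1) (QQ (N + 1) s) (ht (N + 1) u) θ‖ ^ p := by
    intro θ
    rw [z3, QJ_self, norm_mul, norm_mul, ci_norm, mul_one, norm_pow,
      Real.mul_rpow (by positivity) (norm_nonneg _)]
    norm_num
  have c2 : ∀ θ, ‖(dzb^[N + 1] u) (ci θ)‖ ^ p
      = ((1 / 2) ^ (N + 1)) ^ p * ‖op (N + 1) (PP (N + 1) s) (ht (N + 1) u) θ‖ ^ p := by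
    intro θ
    rw [w3, norm_mul, norm_mul, ci_norm, mul_one, norm_pow,
      Real.mul_rpow (by positivity) (norm_nonneg _)]
    norm_num
  simp_rw [c1, c2]
  rw [intervalIntegral.integral_const_mul, intervalIntegral.integral_const_mul]
  have hc : (0 : ℝ) < ((1 / 2) ^ (N + 1)) ^ p := by positivity
  obtain ⟨I, hI⟩ : ∃ I, I = ∫ θ in (0 : ℝ)..(2 * Real.pi),
    ‖op (N + 1) (QQ (N + 1) s) (ht (N + 1) u) θ‖ ^ p := ⟨_, rfl⟩
  obtain ⟨J, hJ⟩ : ∃ J, J = ∫ θ in (0 : ℝ)..(2 * Real.pi),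
    ‖op (N + 1) (PP (N + 1) s) (ht (N + 1) u) θ‖ ^ p := ⟨_, rfl⟩
  rw [← hI, ← hJ]
  have hK : 0 ≤ K (N + 1) p := by
    have h1 := K_ge N p hp
    have h2 := AA_zero_ge N (1 / p) (by positivity) (by gcongr)
    have h3 : 1 / p ≤ 1 / 450 := by gcongr
    have h4 : 0 ≤ p * AA (N + 1) (1 / p) 0 / 2 := by
      have : 0 ≤ AA (N + 1) (1 / p) 0 := by linarith
      positivity
    linarith
  have hcirc := circleB hsm hper hp
  rw [← hs, ← hI, ← hJ] at hcirc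
  have hconst : (∃ c : ℂ, ∀ θ, ht (N + 1) u θ = c) → I = K (N + 1) p ^ p * J := by
    rintro ⟨c, hc⟩
    have e : ht (N + 1) u = fun _ => c := funext hc
    rw [hI, hJ, e, hs]
    exact circle_eq hp0 hK c
  have hiff : (∃ c : ℂ, ∀ θ, ht (N + 1) u θ = c) ↔
      ∃ c : ℂ, ∀ z : ℂ, z ≠ 0 → u z = c * (z ^ (N + 1) * ((‖z‖ ^ (-(2 / p)) : ℝ) : ℂ)) := by
    constructor
    · rintro ⟨c, hc⟩
      refine ⟨c, fun z hz => ?_⟩
      have hz0 : 0 < ‖z‖ := norm_pos_iff.mpr hz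
      have hzθ : z = (‖z‖ : ℂ) * ci (Complex.arg z) := by
        rw [ci]; exact (Complex.norm_mul_exp_arg_mul_I z).symm
      have h1 := hb ‖z‖ hz0 (ci (Complex.arg z)) (ci_ne _)
      rw [← hzθ, u_eq (N + 1) u, hc] at h1
      rw [h1]
      have h2 : ((‖z‖ ^ (((N + 1 : ℕ) : ℝ) - 2 / p) : ℝ) : ℂ)
          = (‖z‖ : ℂ) ^ (N + 1) * ((‖z‖ ^ (-(2 / p)) : ℝ) : ℂ) := by
        rw [← Complex.ofReal_pow, ← Complex.ofReal_mul]
        congr 1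
        rw [sub_eq_add_neg, Real.rpow_add hz0, Real.rpow_natCast]
      have h3 : ci (((N + 1 : ℕ) : ℝ) * Complex.arg z) = ci (Complex.arg z) ^ (N + 1) := by
        rw [ci, ci, ← Complex.exp_nat_mul]
        congr 1
        push_cast
        ring
      rw [h2, h3]
      conv_rhs => rw [hzθ]
      rw [mul_pow]
      have h4 : ‖(‖z‖ : ℂ) * ci (Complex.arg z)‖ = ‖z‖ := by rw [← hzθ]
      rw [h4]
      ring
    · rintro ⟨c, hc⟩
      refine ⟨c, fun θ => ?_⟩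
      rw [ht, hc _ (ci_ne θ), ci_norm, Real.one_rpow]
      have h3 : ci θ ^ (N + 1) = ci (((N + 1 : ℕ) : ℝ) * θ) := by
        rw [ci, ci, ← Complex.exp_nat_mul]
        congr 1
        push_cast
        ring
      rw [h3, Complex.ofReal_one, mul_one]
      have h4 : ci (-((N + 1 : ℕ) : ℝ) * θ) * (c * ci (((N + 1 : ℕ) : ℝ) * θ))
          = c * (ci (-((N + 1 : ℕ) : ℝ) * θ) * ci (((N + 1 : ℕ) : ℝ) * θ)) := by ring
      rw [h4, ← ci_add]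
      have h5 : -((N + 1 : ℕ) : ℝ) * θ + ((N + 1 : ℕ) : ℝ) * θ = 0 := by ring
      have h6 : ci 0 = 1 := by rw [ci]; simp
      rw [h5, h6, mul_one]
  rw [← hiff]
  have hLc : 0 < Real.log (b / a) * ((1 / 2) ^ (N + 1)) ^ p := mul_pos h0 hc
  have e1 : Real.log (b / a) * (((1 / 2) ^ (N + 1)) ^ p * I)
      = (Real.log (b / a) * ((1 / 2) ^ (N + 1)) ^ p) * I := by ring
  have e2 : K (N + 1) p ^ p * (Real.log (b / a) * (((1 / 2) ^ (N + 1)) ^ p * J))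
      = (Real.log (b / a) * ((1 / 2) ^ (N + 1)) ^ p) * (K (N + 1) p ^ p * J) := by ring
  rw [e1, e2]
  constructor
  · apply mul_le_mul_of_nonneg_left _ hLc.le
    rcases hcirc with h | h
    · exact (hconst h).le
    · exact h.le
  · constructor
    · intro h
      rcases hcirc with h1 | h1
      · exact h1
      · exact absurd (mul_left_cancel₀ hLc.ne' h) h1.ne
    · intro h
      rw [hconst h]

/-- the extremal has a non-zero right-hand side -/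
theorem extremal (n : ℕ) (hn : 1 ≤ n) (p : ℝ) (hp : 450 ≤ p) (a b : ℝ) (ha : 0 < a) (hab : a < b) :
    ContDiffOn ℝ n (fun z : ℂ => z ^ n * ((‖z‖ ^ (-(2 / p)) : ℝ) : ℂ)) {0}ᶜ ∧
    Homog (n - 2 / p) (fun z : ℂ => z ^ n * ((‖z‖ ^ (-(2 / p)) : ℝ) : ℂ)) ∧
    0 < ∫ z in {z : ℂ | a ≤ ‖z‖ ∧ ‖z‖ ≤ b},
      ‖(dzb^[n] (fun z : ℂ => z ^ n * ((‖z‖ ^ (-(2 / p)) : ℝ) : ℂ))) z‖ ^ p := by
  have hp0 : 0 < p := by linarith
  obtain ⟨u, hu⟩ : ∃ u : ℂ → ℂ, u = fun z : ℂ => z ^ n * ((‖z‖ ^ (-(2 / p)) : ℝ) : ℂ) := ⟨_, rfl⟩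
  have h1 : ContDiffOn ℝ n u {0}ᶜ := by
    rw [hu]
    intro z hz
    have hz' : z ≠ 0 := hz
    have h2 : ContDiffAt ℝ n (fun z : ℂ => ‖z‖ ^ (-(2 / p))) z :=
      (contDiffAt_norm ℝ hz').rpow_const_of_ne (norm_ne_zero_iff.mpr hz')
    exact ((contDiffAt_id.pow n).mul
      (Complex.ofRealCLM.contDiff.contDiffAt.comp z h2)).contDiffWithinAt
  have h2 : Homog (n - 2 / p) u := by
    intro t ht z hz
    have hz0 : 0 < ‖z‖ := norm_pos_iff.mpr hz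
    rw [hu]
    show (t * z) ^ n * ((‖(t : ℂ) * z‖ ^ (-(2 / p)) : ℝ) : ℂ)
      = ((t ^ ((n : ℝ) - 2 / p) : ℝ) : ℂ) * (z ^ n * ((‖z‖ ^ (-(2 / p)) : ℝ) : ℂ))
    rw [norm_mul, Complex.norm_real, Real.norm_of_nonneg ht.le, Real.mul_rpow ht.le hz0.le,
      sub_eq_add_neg, Real.rpow_add ht, Real.rpow_natCast, mul_pow]
    push_cast
    ring
  rw [← hu]
  refine ⟨h1, h2, ?_⟩
  obtain ⟨s, hs⟩ : ∃ s, s = 1 / p := ⟨_, rfl⟩
  have hs0 : 0 < s := by rw [hs]; positivity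
  have hb' : Homog ((n : ℝ) - 2 * s) u := by
    have : (n : ℝ) - 2 * s = (n : ℝ) - 2 / p := by rw [hs]; ring
    rw [this]; exact h2
  obtain ⟨-, w2, w3⟩ := dzb_iter h1 hb' n le_rfl
  have e0 : (n : ℝ) - 2 * s - n = -(2 / p) := by rw [hs]; ring
  rw [e0] at w2
  rw [annulus hp0 ha hab w2]
  apply mul_pos (Real.log_pos ((one_lt_div ha).mpr hab))
  have e1 : ∀ θ, ht n u θ = 1 := by
    intro θ
    rw [ht, hu]
    show ci (-(n : ℝ) * θ) * (ci θ ^ n * ((‖ci θ‖ ^ (-(2 / p)) : ℝ) : ℂ)) = 1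
    rw [ci_norm, Real.one_rpow]
    have h3 : ci θ ^ n = ci ((n : ℝ) * θ) := by
      rw [ci, ci, ← Complex.exp_nat_mul]
      congr 1
      push_cast
      ring
    rw [h3, Complex.ofReal_one, mul_one, ← ci_add]
    have h5 : -(n : ℝ) * θ + (n : ℝ) * θ = 0 := by ring
    rw [h5, ci]; simp
  have e2 : ht n u = fun _ => 1 := funext e1
  have e3 : ∀ θ, ‖(dzb^[n] u) (ci θ)‖ ^ p = ((1 / 2) ^ n * (PP n s).eval 0) ^ p := by
    intro θ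
    rw [w3, e2, op_const, norm_mul, norm_mul, ci_norm, mul_one, norm_pow, mul_one,
      Complex.norm_real, Real.norm_of_nonneg (PP_zero_pos n s hs0).le]
    norm_num
  simp_rw [e3]
  rw [intervalIntegral.integral_const]
  have h6 := PP_zero_pos n s hs0
  have h7 := Real.two_pi_pos
  simp only [sub_zero, smul_eq_mul]
  positivity

end Pool.Agent.D0H14.BA
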